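import Pool.Agent.MP_e0214e_ag.H61.Tens

-- part MP_e0214e_ag.H61.Alg
section

/-! Commutative algebra: common zeros, the theorem of Tsen for conics, generic surjectivity. -/

set_option autoImplicit false

namespace Pool.Agent.MP_e0214e_ag.H61

open MvPolynomial

theorem ht_poly {F : Type} [Field F] (σ : Type) [Fintype σ] :
    (Fintype.card σ : ℕ∞) ≤ (RingHom.ker (eval (0 : σ → F))).height := by
  classical
  let v := Fintype.equivFin σ
  let ψ : ℕ → MvPolynomial σ F →ₐ[F] MvPolynomial σ F := fun k =>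
    aeval fun i => if (v i : ℕ) < k then 0 else X i
  have hp : ∀ k, (RingHom.ker (ψ k)).IsPrime := fun k => RingHom.ker_isPrime _
  have := RingHom.ker_isPrime (eval (0 : σ → F))
  have h1 : ∀ k ≤ Fintype.card σ, (k : ℕ∞) ≤ (RingHom.ker (ψ k)).height := by
    intro k hk
    induction k with
    | zero => simp
    | succ k ih =>
      have h2 : (ψ (k + 1)).comp (ψ k) = ψ (k + 1) := by
        refine algHom_ext fun i => ?_
        by_cases h : (v i : ℕ) < k
        · simp [ψ, h, h.le]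
        · simp [ψ, h]
      have h3 : RingHom.ker (ψ k) < RingHom.ker (ψ (k + 1)) := by
        refine lt_of_le_of_ne (fun f hf => ?_) fun e => ?_
        · rw [RingHom.mem_ker] at hf ⊢
          rw [← h2, AlgHom.comp_apply, hf, map_zero]
        · have : X (v.symm ⟨k, hk⟩) ∈ RingHom.ker (ψ (k + 1)) := by
            simp [RingHom.mem_ker, ψ]
          rw [← e] at this
          simp [RingHom.mem_ker, ψ] at this
      push_cast
      exact (add_le_add_left (ih (by omega)) 1).trans (Ideal.height_add_one_le_of_lt_of_isPrime h3)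
  refine (h1 _ le_rfl).trans (Ideal.height_mono fun f hf => ?_)
  have h2 : (aeval (R := F) (0 : σ → F)).comp (ψ (Fintype.card σ)) = aeval 0 := by
    refine algHom_ext fun i => ?_
    simp [ψ]
  rw [RingHom.mem_ker] at hf ⊢
  rw [← aeval_eq_eval, ← h2, AlgHom.comp_apply, hf, map_zero]

theorem null {F K ι κ : Type} [Field F] [IsAlgClosed F] [Finite ι] [CommRing K] [IsReduced K]
    [Algebra F K] (r : κ → MvPolynomial ι F) (N : MvPolynomial ι F)
    (h : ∀ y : ι → F, (∀ j, eval y (r j) = 0) → eval y N = 0) (y : ι → K)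
    (hy : ∀ j, aeval y (r j) = 0) : aeval y N = 0 := by
  have h1 : N ∈ (Ideal.span (Set.range r)).radical := by
    rw [← vanishingIdeal_zeroLocus_eq_radical (K := F), mem_vanishingIdeal_iff]
    intro z hz
    exact h z fun j => hz _ (Ideal.subset_span ⟨j, rfl⟩)
  obtain ⟨k, hk⟩ := h1
  have h2 : Ideal.span (Set.range r) ≤ RingHom.ker (aeval y : MvPolynomial ι F →ₐ[F] K) := by
    rw [Ideal.span_le]
    rintro _ ⟨j, rfl⟩
    exact hy j
  have h3 := h2 hk
  rw [RingHom.mem_ker, map_pow] at h3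
  exact IsNilpotent.eq_zero ⟨k, h3⟩

theorem exists_zero {F σ κ : Type} [Field F] [IsAlgClosed F] [Fintype σ] [Fintype κ]
    (p : κ → MvPolynomial σ F) (h0 : ∀ j, eval 0 (p j) = 0)
    (hc : Fintype.card κ < Fintype.card σ) : ∃ y : σ → F, y ≠ 0 ∧ ∀ j, eval y (p j) = 0 := by
  classical
  by_contra! H
  have := RingHom.ker_isPrime (eval (0 : σ → F))
  have h1 : RingHom.ker (eval (0 : σ → F)) ∈
      (Ideal.span (Finset.univ.image p : Set (MvPolynomial σ F))).minimalPrimes := by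
    refine ⟨⟨this, Ideal.span_le.2 fun g hg => ?_⟩, fun P hP _ g hg => ?_⟩
    · obtain ⟨j, -, rfl⟩ := Finset.mem_image.1 hg
      exact h0 j
    · have := hP.1
      have h2 := null (K := MvPolynomial σ F ⧸ P) p g (fun y hy => ?_)
        (fun i => Ideal.Quotient.mkₐ F P (X i)) fun j => ?_
      · rwa [← comp_aeval_apply, aeval_X_left_apply, Ideal.Quotient.mkₐ_eq_mk,
          Ideal.Quotient.eq_zero_iff_mem] at h2
      · by_cases hy0 : y = 0
        · rw [hy0]; exact hg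
        · obtain ⟨j, hj⟩ := H y hy0
          exact absurd (hy j) hj
      · rw [← comp_aeval_apply, aeval_X_left_apply, Ideal.Quotient.mkₐ_eq_mk,
          Ideal.Quotient.eq_zero_iff_mem]
        exact hP.2 (Ideal.subset_span (by simp))
  have h2 := (ht_poly σ).trans (Ideal.height_le_card_of_mem_minimalPrimes_span_finset h1)
  have h3 : (Finset.univ.image p).card ≤ Fintype.card κ := Finset.card_image_le
  have h4 : Fintype.card σ ≤ (Finset.univ.image p).card := by exact_mod_cast h2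
  omega

open Polynomial in
theorem tsen (G : Fin 3 → Fin 3 → RatFunc ℂ) :
    ∃ c : Fin 3 → RatFunc ℂ, c ≠ 0 ∧ ∑ i, ∑ j, G i j * (c i * c j) = 0 := by
  obtain ⟨d, hd⟩ := IsLocalization.exist_integer_multiples_of_finite (nonZeroDivisors ℂ[X])
    fun ij : Fin 3 × Fin 3 => G ij.1 ij.2
  choose P hP using hd
  obtain ⟨m, hm⟩ : ∃ m, ∀ ij, (P ij).natDegree ≤ m :=
    ⟨Finset.univ.sup fun ij => (P ij).natDegree, fun ij =>
      Finset.le_sup (f := fun ij => (P ij).natDegree) (Finset.mem_univ ij)⟩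
  let c : ∀ {R : Type} [CommRing R], (Fin 3 × Fin (m + 1) → R) → Fin 3 → R[X] :=
    fun y i => ∑ j : Fin (m + 1), monomial j (y (i, j))
  let S : (MvPolynomial (Fin 3 × Fin (m + 1)) ℂ)[X] :=
    ∑ i, ∑ j, (P (i, j)).map MvPolynomial.C * (c MvPolynomial.X i * c MvPolynomial.X j)
  have hS : ∀ y : Fin 3 × Fin (m + 1) → ℂ, S.map (MvPolynomial.eval y) =
      ∑ i, ∑ j, P (i, j) * (c y i * c y j) := fun y => by
    have : (MvPolynomial.eval y).comp MvPolynomial.C = RingHom.id ℂ := by ext; simp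
    simp only [S, c, Polynomial.map_sum, Polynomial.map_mul, Polynomial.map_map, this,
      Polynomial.map_id, Polynomial.map_monomial, MvPolynomial.eval_X]
  obtain ⟨y, hy0, hy⟩ := exists_zero (fun k : Fin (3 * m + 1) => S.coeff k) (fun k => by
    rw [← Polynomial.coeff_map, hS]; simp [c]) (by simp; omega)
  have hc : ∀ i, (c y i).natDegree ≤ m := fun i =>
    natDegree_sum_le_of_forall_le _ _ fun j _ => (natDegree_monomial_le _).trans (by omega)
  have h0 : ∑ i, ∑ j, P (i, j) * (c y i * c y j) = 0 := by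
    have hdeg : (∑ i, ∑ j, P (i, j) * (c y i * c y j)).natDegree ≤ 3 * m :=
      natDegree_sum_le_of_forall_le _ _ fun i _ => natDegree_sum_le_of_forall_le _ _ fun j _ =>
        natDegree_mul_le.trans ((add_le_add (hm _) (natDegree_mul_le.trans
          (add_le_add (hc i) (hc j)))).trans (by omega))
    ext k
    by_cases hk : k < 3 * m + 1
    · rw [← hS, Polynomial.coeff_map]; exact hy ⟨k, hk⟩
    · exact coeff_eq_zero_of_natDegree_lt (by omega)
  refine ⟨fun i => algebraMap ℂ[X] _ (c y i), fun h => hy0 (funext fun ⟨i, j⟩ => ?_), ?_⟩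
  · have h1 : c y i = 0 := IsFractionRing.injective ℂ[X] (RatFunc ℂ) (by
      rw [map_zero]; exact congrFun h i)
    have h2 := congrArg (fun p => Polynomial.coeff p j) h1
    simpa [c, Polynomial.coeff_monomial, Fin.val_inj] using h2
  · have hd0 : algebraMap ℂ[X] (RatFunc ℂ) d ≠ 0 :=
      (map_ne_zero_iff _ (IsFractionRing.injective _ _)).2 (nonZeroDivisors.coe_ne_zero d)
    have h1 := congrArg (algebraMap ℂ[X] (RatFunc ℂ)) h0
    simp only [map_sum, map_mul, hP, map_zero, Algebra.smul_def, mul_assoc,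
      ← Finset.mul_sum] at h1
    exact (mul_eq_zero.1 h1).resolve_left hd0

open Topology TensorProduct in
theorem gen0 {A B : Type} [CommRing A] [IsDomain A] [IsNoetherianRing A] [CommRing B] [Algebra A B]
    [Algebra.FiniteType A B] (hi : Function.Injective (algebraMap A B)) :
    ∃ a : A, a ≠ 0 ∧ ∀ (Ω : Type) [Field Ω] [IsAlgClosed Ω] (φ : A →+* Ω), φ a ≠ 0 →
      ∃ ψ : B →+* Ω, ∀ x, ψ (algebraMap A B x) = φ x := by
  have hc := PrimeSpectrum.isConstructible_range_comap (f := algebraMap A B)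
    (RingHom.finitePresentation_algebraMap.2 (Algebra.FinitePresentation.of_finiteType.1 ‹_›))
  let η : PrimeSpectrum A := ⟨⊥, Ideal.isPrime_bot⟩
  have h1 : ∀ s : Set (PrimeSpectrum A), IsConstructible s → s ∈ 𝓝 η ∨ sᶜ ∈ 𝓝 η := by
    intro s hs
    induction hs using IsConstructible.empty_union_induction with
    | open_retrocompact U hU _ =>
      rcases U.eq_empty_or_nonempty with rfl | ⟨x, hx⟩
      · right; simp
      · exact .inl (hU.mem_nhds (((PrimeSpectrum.le_iff_specializes η x).1 bot_le).mem_open hU hx))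
    | union s _ t _ h h' =>
      rcases h with h | h
      · exact .inl (Filter.mem_of_superset h Set.subset_union_left)
      rcases h' with h' | h'
      · exact .inl (Filter.mem_of_superset h' Set.subset_union_right)
      · right; rw [Set.compl_union]; exact Filter.inter_mem h h'
    | compl s _ h => rw [compl_compl]; exact h.symm
  have h2 : η ∈ Set.range (PrimeSpectrum.comap (algebraMap A B)) := by
    obtain ⟨P, hP, -, hd⟩ := (⊥ : Ideal B).exists_le_prime_disjoint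
      ((nonZeroDivisors A).map (algebraMap A B)) (by
        rw [Set.disjoint_left]
        rintro _ (rfl : _ = (0 : B)) ⟨x, hx, hx0⟩
        exact nonZeroDivisors.ne_zero hx (hi (by rw [hx0, map_zero])))
    refine ⟨⟨P, hP⟩, PrimeSpectrum.ext (eq_bot_iff.2 fun x hx => ?_)⟩
    by_contra hx0
    exact Set.disjoint_left.1 hd hx ⟨x, mem_nonZeroDivisors_of_ne_zero hx0, rfl⟩
  have h3 := (h1 _ hc).resolve_right fun h => mem_of_mem_nhds h h2
  obtain ⟨_, ⟨a, rfl⟩, ha, hs⟩ := PrimeSpectrum.isTopologicalBasis_basic_opens.mem_nhds_iff.1 h3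
  refine ⟨a, fun h => ha (by rw [h]; exact zero_mem _), fun Ω _ _ φ hφ => ?_⟩
  have := RingHom.ker_isPrime φ
  have h4 := (PrimeSpectrum.nontrivial_iff_mem_rangeComap _).2
    (hs (a := ⟨RingHom.ker φ, this⟩) hφ)
  set k := (RingHom.ker φ).ResidueField
  let : Algebra k Ω := (Ideal.ResidueField.lift _ φ le_rfl fun x hx =>
    (Ne.isUnit hx : IsUnit (φ x))).toAlgebra
  obtain ⟨m, hm⟩ := Ideal.exists_maximal (k ⊗[A] B)
  let := Ideal.Quotient.field m
  have : Module.Finite k (k ⊗[A] B ⧸ m) := finite_of_finite_type_of_isJacobsonRing _ _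
  let l : (k ⊗[A] B ⧸ m) →ₐ[k] Ω := IsAlgClosed.lift
  refine ⟨(l.toRingHom.comp (Ideal.Quotient.mk m)).comp
    Algebra.TensorProduct.includeRight.toRingHom, fun x => ?_⟩
  have h5 : (Algebra.TensorProduct.includeRight (algebraMap A B x) : k ⊗[A] B) =
      algebraMap k _ (algebraMap A k x) := by
    rw [AlgHom.commutes, IsScalarTower.algebraMap_apply A k]
  change l (Ideal.Quotient.mk m (Algebra.TensorProduct.includeRight (algebraMap A B x))) = _
  rw [h5, Ideal.Quotient.mk_algebraMap, AlgHom.commutes]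
  exact Ideal.ResidueField.lift_algebraMap _ _ _ _ _

theorem gen {σ ι κ : Type} [Finite σ] [Finite ι] {f : MvPolynomial σ ℂ} (hf : Prime f)
    (r : κ → MvPolynomial ι ℂ) (o : σ → MvPolynomial ι ℂ)
    (H : ∀ h, (∀ y : ι → ℂ, (∀ j, eval y (r j) = 0) → eval y (aeval o h) = 0) ↔ f ∣ h) :
    ∃ Δ, ¬ f ∣ Δ ∧ ∀ (Ω : Type) [Field Ω] [IsAlgClosed Ω] [Algebra ℂ Ω] (ξ : σ → Ω),
      aeval ξ f = 0 → aeval ξ Δ ≠ 0 →
        ∃ y : ι → Ω, (∀ j, aeval y (r j) = 0) ∧ ∀ i, aeval y (o i) = ξ i := by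
  let J := (Ideal.span (Set.range r)).radical
  have hJ : ∀ h, aeval o h ∈ J ↔ f ∣ h := fun h => by
    rw [← H, show J = _ from (vanishingIdeal_zeroLocus_eq_radical (K := ℂ) _).symm,
      mem_vanishingIdeal_iff, zeroLocus_span]
    simp [aeval_eq_eval]
  let I : Ideal (MvPolynomial σ ℂ) := Ideal.span {f}
  have : I.IsPrime := (Ideal.span_singleton_prime hf.ne_zero).2 hf
  let g : (MvPolynomial σ ℂ ⧸ I) →ₐ[ℂ] MvPolynomial ι ℂ ⧸ J :=
    Ideal.Quotient.liftₐ I ((Ideal.Quotient.mkₐ ℂ J).comp (aeval o)) fun h hh =>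
      Ideal.Quotient.eq_zero_iff_mem.2 ((hJ h).2 (Ideal.mem_span_singleton.1 hh))
  have hg : ∀ h, g (Ideal.Quotient.mk I h) = Ideal.Quotient.mk J (aeval o h) := fun _ => rfl
  let := g.toRingHom.toAlgebra
  have : IsScalarTower ℂ (MvPolynomial σ ℂ ⧸ I) (MvPolynomial ι ℂ ⧸ J) :=
    IsScalarTower.of_algebraMap_eq fun c => (g.commutes c).symm
  have := Algebra.FiniteType.of_restrictScalars_finiteType ℂ (MvPolynomial σ ℂ ⧸ I)
    (MvPolynomial ι ℂ ⧸ J)
  obtain ⟨a, ha, H2⟩ := gen0 (A := MvPolynomial σ ℂ ⧸ I) (B := MvPolynomial ι ℂ ⧸ J) (by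
    rw [injective_iff_map_eq_zero]
    intro x hx
    obtain ⟨h, rfl⟩ := Ideal.Quotient.mk_surjective x
    exact Ideal.Quotient.eq_zero_iff_mem.2 (Ideal.mem_span_singleton.2
      ((hJ h).1 (Ideal.Quotient.eq_zero_iff_mem.1 ((hg h).symm.trans hx)))))
  obtain ⟨Δ, rfl⟩ := Ideal.Quotient.mk_surjective a
  refine ⟨Δ, fun h => ha (Ideal.Quotient.eq_zero_iff_mem.2 (Ideal.mem_span_singleton.2 h)),
    fun Ω _ _ _ ξ h1 h2 => ?_⟩
  obtain ⟨ψ, hψ⟩ := H2 Ω (Ideal.Quotient.lift I (aeval ξ : MvPolynomial σ ℂ →ₐ[ℂ] Ω).toRingHom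
    fun h hh => by
      obtain ⟨c, rfl⟩ := Ideal.mem_span_singleton.1 hh
      change aeval ξ (f * c) = 0
      rw [map_mul, h1, zero_mul]) h2
  have h3 : ∀ h, ψ (Ideal.Quotient.mk J (aeval o h)) = aeval ξ h := fun h => hψ (Ideal.Quotient.mk I h)
  have h4 : ∀ p, aeval (fun i => ψ (Ideal.Quotient.mk J (X i))) p = ψ (Ideal.Quotient.mk J p) := by
    intro p
    induction p using MvPolynomial.induction_on with
    | C c => have := h3 (C c); rwa [aeval_C, aeval_C, algebraMap_eq, ← aeval_C, eq_comm] at this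
    | add p q hp hq => simp only [map_add, hp, hq]
    | mul_X p i hp => simp only [map_mul, hp, aeval_X]
  refine ⟨fun i => ψ (Ideal.Quotient.mk J (X i)), fun j => ?_, fun i => ?_⟩
  · rw [h4, Ideal.Quotient.eq_zero_iff_mem.2 (Ideal.le_radical (Ideal.subset_span
      (Set.mem_range_self j))), map_zero]
  · rw [h4]; simpa using h3 (X i)

theorem aeval_comp_X {σ A : Type} [CommRing A] [Algebra ℂ A] (y : σ → A) :
    (aeval y : MvPolynomial σ ℂ →ₐ[ℂ] A) ∘ X = y := funext fun i => by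
  simp only [Function.comp, aeval_X]

theorem comp_single {σ A B F : Type} [DecidableEq σ] [CommRing A] [CommRing B] [FunLike F A B]
    [RingHomClass F A B] (φ : F) (l : σ) : φ ∘ Pi.single l 1 = Pi.single l 1 := funext fun i => by
  simp only [Function.comp, Pi.single_apply, apply_ite φ, map_one, map_zero]

namespace Q4

variable {σ : Type} [Fintype σ] (q : Q4 σ)

theorem Sm.ext {q : Q4 σ} (h : q.Sm ℂ) (K : Type) [Field K] [Algebra ℂ K] : q.Sm K := by
  classical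
  intro y hy h0
  by_contra! H
  refine hy (funext fun i => ?_)
  have := null (F := ℂ) (K := K) (fun l => q.T X X X (Pi.single l 1)) (X i) (fun z hz => ?_) y
    fun l => ?_
  · simpa using this
  · have h1 : ∀ w, q.T z z z w = 0 := fun w => by
      rw [T_eq_sum]
      refine Finset.sum_eq_zero fun l _ => ?_
      have := hz l
      rw [← aeval_eq_eval, map, aeval_comp_X, comp_single] at this
      rw [this, mul_zero]
    by_contra hz0
    obtain ⟨w, hw⟩ := h z (fun h => hz0 (by simp [h])) (h1 z)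
    exact hw (h1 w)
  · rw [map, aeval_comp_X, comp_single, H]

theorem Sm.of_pderiv {q : Q4 σ} (h : q.Sm ℂ) {y : σ → ℂ} (hy : y ≠ 0) :
    ¬ ∀ i, eval y (pderiv i q.f) = 0 := by
  classical
  intro H
  have h1 : ∀ w, q.T y y y w = 0 := fun w => by
    rw [T_eq_sum]
    refine Finset.sum_eq_zero fun l _ => ?_
    have := H l
    rw [pderiv_f, ← aeval_eq_eval, map_mul, map] at this
    rw [aeval_comp_X, comp_single, map_ofNat] at this
    rw [(mul_eq_zero.1 this).resolve_left (by norm_num), mul_zero]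
  obtain ⟨w, hw⟩ := h y hy (h1 y)
  exact hw (h1 w)

theorem Sm.prime {q : Q4 σ} (h : q.Sm ℂ) (hc : 2 < Fintype.card σ) : Prime q.f := by
  classical
  have hf0 : q.f ≠ 0 := fun h0 => by
    obtain ⟨i⟩ : Nonempty σ := Fintype.card_pos_iff.1 (by omega)
    exact h.of_pderiv (y := Pi.single i 1) (by simp) fun j => by simp [h0]
  have h00 : eval 0 q.f = 0 := by rw [eval_f, zero4]
  have key : ∀ a b, q.f = a * b → eval 0 b ≠ 0 → IsUnit b := by
    intro a b hab hb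
    let φ : MvPolynomial σ ℂ →ₐ[ℂ] Polynomial (MvPolynomial σ ℂ) :=
      aeval fun i => Polynomial.X * Polynomial.C (X i)
    have h1 : φ q.f = Polynomial.monomial 4 q.f := by
      have := q.map (Polynomial.CAlgHom (R := ℂ) (A := MvPolynomial σ ℂ)) X X X X
      have h2 : (fun i => Polynomial.X * Polynomial.C (X i)) = (Polynomial.X : Polynomial
        (MvPolynomial σ ℂ)) • ((Polynomial.CAlgHom (R := ℂ) (A := MvPolynomial σ ℂ)) ∘ X) := rfl
      rw [aeval_f, h2, smul1, smul2, smul3, smul4, ← this, ← Polynomial.C_mul_X_pow_eq_monomial]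
      change _ * (_ * (_ * (_ * Polynomial.C q.f))) = _
      ring
    have h2 : ∀ (t : ℂ) p, Polynomial.eval (C t) (φ p) = aeval (fun i => C t * X i) p := by
      intro t p
      induction p using MvPolynomial.induction_on with
      | C c => simp [φ]
      | add p q hp hq => simp only [map_add, Polynomial.eval_add, hp, hq]
      | mul_X p i hp =>
        rw [map_mul, Polynomial.eval_mul, hp]
        simp only [map_mul, Polynomial.eval_mul, φ, aeval_X, Polynomial.eval_X, Polynomial.eval_C]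
    have h3 : φ a * φ b ≠ 0 := by rw [← map_mul, ← hab, h1]; simpa using hf0
    have h4 := Polynomial.natDegree_mul (left_ne_zero_of_mul h3) (right_ne_zero_of_mul h3)
    have h5 := Polynomial.natTrailingDegree_mul (left_ne_zero_of_mul h3) (right_ne_zero_of_mul h3)
    rw [← map_mul, ← hab, h1] at h4 h5
    rw [Polynomial.natDegree_monomial_eq _ hf0] at h4
    rw [Polynomial.natTrailingDegree_monomial hf0] at h5
    have h6 : (φ b).coeff 0 = C (eval 0 b) := by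
      rw [Polynomial.coeff_zero_eq_eval_zero, ← C_0, h2]
      simp only [C_0, zero_mul, aeval_zero', algebraMap_eq, eval_zero]
    have h7 : (φ b).natTrailingDegree = 0 :=
      Polynomial.natTrailingDegree_eq_zero.2 (.inr (by rw [h6]; simpa using hb))
    have h8 := Polynomial.eq_C_of_natDegree_eq_zero (p := φ b) (by
      have := (φ a).natTrailingDegree_le_natDegree; omega)
    have h9 := h2 1 b
    rw [h8, h6, Polynomial.eval_C] at h9
    simp only [map_one, one_mul, aeval_X_left_apply] at h9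
    rw [← h9]
    exact (Ne.isUnit hb).map C
  refine UniqueFactorizationMonoid.irreducible_iff_prime.1 ⟨fun hu => ?_, fun a b hab => ?_⟩
  · exact (hu.map (eval 0)).ne_zero h00
  · by_contra! H
    obtain ⟨y, hy0, hy⟩ := exists_zero ![a, b] (fun j => by
      fin_cases j
      · by_contra h1; exact H.1 (key b a (by rw [hab, mul_comm]) h1)
      · by_contra h1; exact H.2 (key a b hab h1)) (by simpa using hc)
    refine h.of_pderiv hy0 fun i => ?_
    have h1 : eval y a = 0 := hy 0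
    have h2 : eval y b = 0 := hy 1
    simp [hab, h1, h2]

theorem expand {A : Type} [CommRing A] [Algebra ℂ A] (p v : σ → A) (s : A) :
    q.T (p + s • v) (p + s • v) (p + s • v) (p + s • v) = q.T p p p p + 4 * q.T p p p v * s
      + 6 * q.T p p v v * s ^ 2 + 4 * q.T p v v v * s ^ 3 + q.T v v v v * s ^ 4 := by
  simp only [add1, add2, add3, add4, smul1, smul2, smul3, smul4, q.T12 v p, q.T23 _ v p,
    q.T34 _ _ v p]
  ring

end Q4

theorem elim {n : ℕ} (q : Q4 (Fin (n + 1))) (hf : Prime q.f) (he : q.t 0 0 0 0 ≠ 0)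
    {h : MvPolynomial (Fin (n + 1)) ℂ} (hh : ¬ q.f ∣ h) :
    ∃ H : MvPolynomial (Fin n) ℂ, H ≠ 0 ∧ ∀ (A : Type) [CommRing A] [Algebra ℂ A]
      (y : Fin (n + 1) → A), q.T y y y y = 0 → aeval y h = 0 → aeval (Fin.tail y) H = 0 := by
  let I : Ideal (MvPolynomial (Fin (n + 1)) ℂ) := Ideal.span {q.f}
  have : I.IsPrime := (Ideal.span_singleton_prime hf.ne_zero).2 hf
  let g : MvPolynomial (Fin n) ℂ →ₐ[ℂ] MvPolynomial (Fin (n + 1)) ℂ ⧸ I :=
    (Ideal.Quotient.mkₐ ℂ I).comp (rename Fin.succ)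
  let := g.toRingHom.toAlgebra
  have hg : ∀ p, algebraMap _ (MvPolynomial (Fin (n + 1)) ℂ ⧸ I) p = g p := fun _ => rfl
  have h0 : IsIntegral (MvPolynomial (Fin n) ℂ) (Ideal.Quotient.mk I (X 0)) := by
    let p : Fin (n + 1) → MvPolynomial (Fin n) ℂ := Fin.cons 0 X
    let v : Fin (n + 1) → MvPolynomial (Fin n) ℂ := Pi.single 0 1
    let c : MvPolynomial (Fin n) ℂ := C (q.t 0 0 0 0)⁻¹
    refine ⟨Polynomial.X ^ 4 + Polynomial.C (c * (4 * q.T p v v v)) * Polynomial.X ^ 3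
      + Polynomial.C (c * (6 * q.T p p v v)) * Polynomial.X ^ 2
      + Polynomial.C (c * (4 * q.T p p p v)) * Polynomial.X + Polynomial.C (c * q.T p p p p),
      by monicity!, ?_⟩
    have h1 := q.expand (g ∘ p) (g ∘ v) (Ideal.Quotient.mk I (X 0))
    have h2 : g ∘ p + Ideal.Quotient.mk I (X 0) • g ∘ v = Ideal.Quotient.mkₐ ℂ I ∘ X := by
      funext i
      refine Fin.cases ?_ (fun i => ?_) i <;> simp [p, v, g]
    have h3 : c * q.T v v v v = 1 := by
      simp [c, v, Q4.T, Pi.single_apply, ← map_mul, he]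
    have h4 : Ideal.Quotient.mkₐ ℂ I (q.T X X X X) = 0 :=
      Ideal.Quotient.eq_zero_iff_mem.2 (Ideal.mem_span_singleton_self _)
    have h5 := congrArg g h3
    rw [h2, ← q.map, h4] at h1
    simp only [Polynomial.eval₂_add, Polynomial.eval₂_mul, Polynomial.eval₂_pow,
      Polynomial.eval₂_X, Polynomial.eval₂_C, hg]
    simp only [map_mul, map_ofNat, map_one, q.map g] at h5 ⊢
    linear_combination (-g c) * h1 - Ideal.Quotient.mk I (X 0) ^ 4 * h5
  have h1 : ∀ p, IsIntegral (MvPolynomial (Fin n) ℂ) (Ideal.Quotient.mk I p) := by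
    intro p
    induction p using MvPolynomial.induction_on with
    | C c =>
      rw [show Ideal.Quotient.mk I (C c) = g (C c) by simp [g]; rfl]
      exact isIntegral_algebraMap
    | add p q hp hq => rw [map_add]; exact hp.add hq
    | mul_X p i hp =>
      rw [map_mul]
      refine hp.mul (Fin.cases h0 (fun i => ?_) i)
      rw [show Ideal.Quotient.mk I (X i.succ) = g (X i) by simp [g]]
      exact isIntegral_algebraMap
  have h2 := Ideal.comap_ne_bot_of_integral_mem (R := MvPolynomial (Fin n) ℂ)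
    (I := Ideal.span {Ideal.Quotient.mk I h}) (fun h3 => hh (Ideal.mem_span_singleton.1
      (Ideal.Quotient.eq_zero_iff_mem.1 h3))) (Ideal.mem_span_singleton_self _) (h1 h)
  obtain ⟨H, hH, hH0⟩ := Submodule.exists_mem_ne_zero_of_ne_bot h2
  refine ⟨H, hH0, fun A _ _ y hy hyh => ?_⟩
  obtain ⟨a, ha⟩ := Ideal.mem_span_singleton.1 (Ideal.mem_comap.1 hH)
  obtain ⟨a, rfl⟩ := Ideal.Quotient.mk_surjective a
  obtain ⟨b, hb⟩ := Ideal.mem_span_singleton.1 (Ideal.Quotient.eq.1 (show Ideal.Quotient.mk I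
    (rename Fin.succ H) = Ideal.Quotient.mk I (h * a) from ha))
  have h3 := congrArg (aeval y) hb
  rwa [map_sub, map_mul, map_mul, q.aeval_f, hy, hyh, zero_mul, zero_mul, sub_zero,
    aeval_rename] at h3

end Pool.Agent.MP_e0214e_ag.H61

end

-- part MP_e0214e_ag.H61.Gen
section

/-! The generic point of a quartic and first order deformations. -/

set_option autoImplicit false

namespace Pool.Agent.MP_e0214e_ag.H61

open MvPolynomial Module

theorem lift_abs {A K B : Type} [CommRing A] [CommRing K] [CommRing B] [Algebra A K]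
    [Algebra.FormallySmooth A K] (π : B →+* K) (hπ : Function.Surjective π)
    (hn : IsNilpotent (RingHom.ker π)) (j : A →+* B) (hj : ∀ x, π (j x) = algebraMap A K x) :
    ∃ φ : K →+* B, (∀ a, π (φ a) = a) ∧ ∀ x, φ (algebraMap A K x) = j x := by
  let := j.toAlgebra
  let g : B →ₐ[A] K := { π with commutes' := hj }
  exact ⟨(Algebra.FormallySmooth.liftOfSurjective (AlgHom.id A K) g hπ hn).toRingHom,
    Algebra.FormallySmooth.liftOfSurjective_apply (AlgHom.id A K) g hπ hn,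
    (Algebra.FormallySmooth.liftOfSurjective (AlgHom.id A K) g hπ hn).commutes⟩

theorem exists_gen {σ : Type} [Fintype σ] (q : Q4 σ) (hf : Prime q.f) (hc : 1 < Fintype.card σ) :
    ∃ (K : Type) (_ : Field K) (_ : IsAlgClosed K) (_ : CharZero K) (_ : Algebra ℂ K) (ξ : σ → K),
      ξ ≠ 0 ∧ q.T ξ ξ ξ ξ = 0 ∧
        ∀ w, q.T ξ ξ ξ w = 0 → ∃ D : Derivation ℂ K K, D ∘ ξ = w := by
  classical
  let I : Ideal (MvPolynomial σ ℂ) := Ideal.span {q.f}
  have : I.IsPrime := (Ideal.span_singleton_prime hf.ne_zero).2 hf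
  let A := MvPolynomial σ ℂ ⧸ I
  let F := FractionRing A
  let K := AlgebraicClosure F
  have : CharZero F := algebraRat.charZero F
  have : CharZero K := algebraRat.charZero K
  have : Algebra.FormallySmooth A F := .of_isLocalization (nonZeroDivisors A)
  have : Algebra.FormallyEtale F K := .of_isSeparable F K
  have : Algebra.FormallySmooth A K := .comp A F K
  let g : MvPolynomial σ ℂ →ₐ[ℂ] K := (IsScalarTower.toAlgHom ℂ A K).comp (Ideal.Quotient.mkₐ ℂ I)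
  have hg : ∀ p, g p = algebraMap A K (Ideal.Quotient.mk I p) := fun _ => rfl
  have h0 : q.T (g ∘ X) (g ∘ X) (g ∘ X) (g ∘ X) = 0 := by
    rw [← q.map, hg, ← Q4.f, Ideal.Quotient.eq_zero_iff_mem.2 (Ideal.mem_span_singleton_self _),
      map_zero]
  refine ⟨K, inferInstance, inferInstance, inferInstance, inferInstance, g ∘ X, fun h => ?_, h0,
    fun w hw => ?_⟩
  · obtain ⟨i⟩ : Nonempty σ := Fintype.card_pos_iff.1 (by omega)
    have h1 : Ideal.Quotient.mk I (X i) = 0 := IsFractionRing.injective A F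
      ((algebraMap F K).injective (by
        rw [map_zero, map_zero, ← IsScalarTower.algebraMap_apply]; exact congrFun h i))
    have h2 := totalDegree_le_of_dvd_of_isDomain
      (Ideal.mem_span_singleton.1 (Ideal.Quotient.eq_zero_iff_mem.1 h1)) (X_ne_zero i)
    rw [q.isHomogeneous_f.totalDegree hf.ne_zero, totalDegree_X] at h2
    omega
  · let ε : TrivSqZeroExt K K := TrivSqZeroExt.inr 1
    let ι : K →ₐ[ℂ] TrivSqZeroExt K K := TrivSqZeroExt.inlAlgHom ℂ K K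
    have hε : ε ^ 2 = 0 := by rw [sq]; exact TrivSqZeroExt.inr_mul_inr _ _ _
    obtain ⟨φ, h1, h2⟩ := lift_abs (A := A) (TrivSqZeroExt.fstHom K K K).toRingHom
      (fun a => ⟨TrivSqZeroExt.inl a, rfl⟩) ⟨2, TrivSqZeroExt.kerIdeal_sq K K⟩
      (Ideal.Quotient.lift I (aeval (ι ∘ g ∘ X + ε • ι ∘ w) :
        MvPolynomial σ ℂ →ₐ[ℂ] _).toRingHom fun p hp => by
          obtain ⟨c, rfl⟩ := Ideal.mem_span_singleton.1 hp
          change aeval _ (q.f * c) = 0
          rw [map_mul, q.aeval_f, q.expand, ← q.map ι, ← q.map ι, h0, hw, map_zero]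
          rw [show ε ^ 3 = ε ^ 2 * ε by ring, show ε ^ 4 = ε ^ 2 * ε ^ 2 by ring, hε]
          simp) fun x => by
        obtain ⟨p, rfl⟩ := Ideal.Quotient.mk_surjective x
        change TrivSqZeroExt.fstHom ℂ K K (aeval _ p) = g p
        rw [← AlgHom.comp_apply]
        congr 1
        ext i
        simp [ι, ε]
    have h3 : ∀ c : ℂ, φ (algebraMap ℂ K c) = algebraMap ℂ _ c := fun c => by
      rw [IsScalarTower.algebraMap_apply ℂ A K, h2]
      exact aeval_C _ c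
    have h4 : ∀ a, (φ a).fst = a := h1
    refine ⟨Derivation.mk' ⟨⟨fun a => (φ a).snd, fun a b => by simp⟩, fun c a => ?_⟩
      fun a b => ?_, funext fun i => ?_⟩
    · simp only [Algebra.smul_def, map_mul, h3, TrivSqZeroExt.snd_mul, RingHom.id_apply]
      simp [TrivSqZeroExt.algebraMap_eq_inl']
    · simp [h4, mul_comm]
    · change (φ (algebraMap A K (Ideal.Quotient.mk I (X i)))).snd = _
      rw [h2]
      change (aeval (ι ∘ g ∘ X + ε • ι ∘ w) (X i : MvPolynomial σ ℂ)).snd = _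
      simp [ι, ε]

variable {K V : Type} [Field K] [AddCommGroup V] [Module K V]

theorem exists_root3 [IsAlgClosed K] (a b c d : K) (h : c ≠ 0 ∨ d ≠ 0) :
    ∃ τ, a + b * τ + c * τ ^ 2 + d * τ ^ 3 = 0 := by
  let p : Polynomial K := Polynomial.C a + Polynomial.C b * Polynomial.X +
    Polynomial.C c * Polynomial.X ^ 2 + Polynomial.C d * Polynomial.X ^ 3
  obtain ⟨τ, hτ⟩ := IsAlgClosed.exists_root p fun h0 => by
    have h2 := Polynomial.coeff_eq_zero_of_degree_lt (p := p) (n := 2) (by rw [h0]; norm_num)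
    have h3 := Polynomial.coeff_eq_zero_of_degree_lt (p := p) (n := 3) (by rw [h0]; norm_num)
    simp [p] at h2 h3
    tauto
  exact ⟨τ, by simpa [p] using hτ⟩

theorem forms [IsAlgClosed K] [CharZero K] (A0 A1 A2 A3 : V →ₗ[K] K)
    (hd : ∀ w, A0 w = 0 → ∃ w', 3 * A1 w + A0 w' = 0 ∧ A2 w + A1 w' = 0 ∧
      A3 w + 3 * A2 w' = 0 ∧ A3 w' = 0)
    (hb : ∀ τ : K, ∃ z, A0 z + 3 * A1 z * τ + 3 * A2 z * τ ^ 2 + A3 z * τ ^ 3 ≠ 0)
    (h3 : ∃ z, A3 z ≠ 0) : LinearIndependent K ![A0, A1, A2, A3] := by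
  obtain ⟨z3, h3⟩ := h3
  obtain ⟨e, he⟩ : ∃ e, A0 e ≠ 0 := by simpa using hb 0
  by_cases c3 : ∃ w, A0 w = 0 ∧ A1 w = 0 ∧ A2 w = 0 ∧ A3 w ≠ 0
  · obtain ⟨w, a0, a1, a2, a3⟩ := c3
    obtain ⟨w', b0, b1, b2, b3⟩ := hd w a0
    simp only [a1, a2, mul_zero, zero_add] at b0 b1
    obtain ⟨w'', c0, c1, -⟩ := hd w' b0
    simp only [b1, mul_zero, zero_add] at c0
    have b4 : A2 w' ≠ 0 := fun h => a3 (by rw [h] at b2; simpa using b2)
    have c4 : A1 w'' ≠ 0 := fun h => b4 (by rw [h] at c1; simpa using c1)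
    rw [Fintype.linearIndependent_iff]
    intro g hg
    have h := fun z => LinearMap.congr_fun hg z
    simp only [Fin.sum_univ_four, LinearMap.add_apply, LinearMap.smul_apply, smul_eq_mul,
      Matrix.cons_val, LinearMap.zero_apply] at h
    have g3 : g 3 = 0 := by simpa [a0, a1, a2, a3] using h w
    have g2 : g 2 = 0 := by simpa [b0, b1, b4, g3] using h w'
    have g1 : g 1 = 0 := by simpa [c0, c4, g2, g3] using h w''
    have g0 : g 0 = 0 := by simpa [he, g1, g2, g3] using h e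
    intro i
    fin_cases i <;> assumption
  exfalso
  push Not at c3
  by_cases c2 : ∃ w, A0 w = 0 ∧ A1 w = 0 ∧ A2 w ≠ 0
  · obtain ⟨w, a0, a1, a2⟩ := c2
    obtain ⟨w', b0, b1, b2, b3⟩ := hd w a0
    simp only [a1, mul_zero, zero_add] at b0
    obtain ⟨w'', c0, c1, c2, c4⟩ := hd w' b0
    have key : ∀ z, ∃ x0 x1 x2, A0 z = x0 * (3 * A2 w) ∧ A1 z = x0 * A3 w / 3 - x1 * A2 w ∧
        A2 z = -x1 * A3 w / 3 + x2 * A2 w ∧ A3 z = x2 * A3 w := fun z => by
      obtain ⟨x0, h0⟩ : ∃ x0, A0 z = x0 * (3 * A2 w) := ⟨A0 z / (3 * A2 w), by field_simp⟩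
      obtain ⟨x1, h1⟩ : ∃ x1, A1 z = x0 * A3 w / 3 - x1 * A2 w :=
        ⟨(x0 * A3 w / 3 - A1 z) / A2 w, by field_simp; ring⟩
      obtain ⟨x2, h2⟩ : ∃ x2, A2 z = -x1 * A3 w / 3 + x2 * A2 w :=
        ⟨(A2 z + x1 * A3 w / 3) / A2 w, by field_simp; ring⟩
      have := c3 (z - x0 • w'' - x1 • w' - x2 • w)
      simp only [map_sub, map_smul, smul_eq_mul] at this
      refine ⟨x0, x1, x2, h0, h1, h2, ?_⟩
      linear_combination this (by linear_combination h0 - x0 * c0 + 3 * x0 * b1 - x1 * b0 - x2 * a0)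
        (by linear_combination h1 - x0 * c1 + x0 / 3 * b2 - x1 * b1 - x2 * a1)
        (by linear_combination h2 - x0 / 3 * c2 + x0 / 3 * b3 - x1 / 3 * b2) + x0 * c4 + x1 * b3
    obtain ⟨-, -, x, -, -, -, hx⟩ := key z3
    have hβ : A3 w ≠ 0 := fun h => h3 (by rw [hx, h, mul_zero])
    obtain ⟨z, hz⟩ := hb (-3 * A2 w / A3 w)
    obtain ⟨x0, x1, x2, k0, k1, k2, k3⟩ := key z
    rw [k0, k1, k2, k3] at hz
    exact hz (by field_simp; ring)
  push Not at c2
  by_cases c1 : ∃ w, A0 w = 0 ∧ A1 w ≠ 0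
  · obtain ⟨w, a0, a1⟩ := c1
    obtain ⟨w', b0, b1, b2, b3⟩ := hd w a0
    have key : ∀ z, ∃ x0 x1, A0 z = -x0 * (3 * A1 w) ∧ A1 z = -x0 * A2 w + x1 * A1 w ∧
        A2 z = -x0 * A3 w / 3 + x1 * A2 w ∧ A3 z = x1 * A3 w := fun z => by
      obtain ⟨x0, h0⟩ : ∃ x0, A0 z = -x0 * (3 * A1 w) := ⟨-A0 z / (3 * A1 w), by field_simp⟩
      obtain ⟨x1, h1⟩ : ∃ x1, A1 z = -x0 * A2 w + x1 * A1 w :=
        ⟨(A1 z + x0 * A2 w) / A1 w, by field_simp; ring⟩
      have t2 := c2 (z - x0 • w' - x1 • w)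
      have t3 := c3 (z - x0 • w' - x1 • w)
      simp only [map_sub, map_smul, smul_eq_mul] at t2 t3
      have e0 : A0 z - x0 * A0 w' - x1 * A0 w = 0 := by linear_combination h0 - x0 * b0 - x1 * a0
      have e1 : A1 z - x0 * A1 w' - x1 * A1 w = 0 := by linear_combination h1 - x0 * b1
      exact ⟨x0, x1, h0, h1, by linear_combination t2 e0 e1 + x0 / 3 * b2,
        by linear_combination t3 e0 e1 (t2 e0 e1) + x0 * b3⟩
    obtain ⟨-, x, -, -, -, hx⟩ := key z3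
    have hβ : A3 w ≠ 0 := fun h => h3 (by rw [hx, h, mul_zero])
    obtain ⟨τ, hτ⟩ := exists_root3 (3 * A1 w) (3 * A2 w) (A3 w) 0 (.inl hβ)
    obtain ⟨z, hz⟩ := hb τ
    obtain ⟨x0, x1, k0, k1, k2, k3⟩ := key z
    rw [k0, k1, k2, k3] at hz
    exact hz (by linear_combination (-x0 + x1 * τ) * hτ)
  push Not at c1
  have key : ∀ z, ∃ x, A0 z = x * A0 e ∧ A1 z = x * A1 e ∧ A2 z = x * A2 e ∧ A3 z = x * A3 e :=
    fun z => by
      obtain ⟨x, h0⟩ : ∃ x, A0 z = x * A0 e := ⟨A0 z / A0 e, by field_simp⟩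
      have t1 := c1 (z - x • e)
      have t2 := c2 (z - x • e)
      have t3 := c3 (z - x • e)
      simp only [map_sub, map_smul, smul_eq_mul, sub_eq_zero] at t1 t2 t3
      exact ⟨x, h0, t1 h0, t2 h0 (t1 h0), t3 h0 (t1 h0) (t2 h0 (t1 h0))⟩
  obtain ⟨x, -, -, -, hx⟩ := key z3
  have hβ : A3 e ≠ 0 := fun h => h3 (by rw [hx, h, mul_zero])
  obtain ⟨τ, hτ⟩ := exists_root3 (A0 e) (3 * A1 e) (3 * A2 e) (A3 e) (.inr hβ)
  obtain ⟨z, hz⟩ := hb τ
  obtain ⟨x0, k0, k1, k2, k3⟩ := key z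
  rw [k0, k1, k2, k3] at hz
  exact hz (by linear_combination x0 * hτ)

theorem dim_count [FiniteDimensional K V] {k m : ℕ} {A : Fin k → V →ₗ[K] K}
    (hA : LinearIndependent K A) {c : Fin m → V} (hc : LinearIndependent K c)
    (h : ∀ i j, A i (c j) = 0) : k + m ≤ finrank K V ∧ (k + m = finrank K V →
      ∀ z, (∀ i, A i z = 0) → ∃ x : Fin m → K, ∑ j, x j • c j = z) := by
  have h1 := Subspace.finrank_add_finrank_dualCoannihilator_eq (Submodule.span K (Set.range A))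
  have h2 : ∀ z, (∀ i, A i z = 0) → z ∈ (Submodule.span K (Set.range A)).dualCoannihilator := by
    intro z hz
    rw [Submodule.mem_dualCoannihilator]
    intro φ hφ
    obtain ⟨x, rfl⟩ := (Submodule.mem_span_range_iff_exists_fun K).1 hφ
    simp [hz]
  have h3 : Submodule.span K (Set.range c) ≤ (Submodule.span K (Set.range A)).dualCoannihilator :=
    Submodule.span_le.2 (by rintro _ ⟨j, rfl⟩; exact h2 _ fun i => h i j)
  have h4 := finrank_span_eq_card hc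
  rw [finrank_span_eq_card hA] at h1
  simp only [Fintype.card_fin] at h1 h4
  have h5 := Submodule.finrank_mono h3
  refine ⟨by omega, fun h6 z hz => (Submodule.mem_span_range_iff_exists_fun K).1 ?_⟩
  rw [Submodule.eq_of_le_of_finrank_eq h3 (by omega)]
  exact h2 z hz

end Pool.Agent.MP_e0214e_ag.H61

end

-- part MP_e0214e_ag.H61.Good
section

/-! Every smooth quartic threefold has a good point. -/

set_option autoImplicit false

namespace Pool.Agent.MP_e0214e_ag.H61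

open MvPolynomial Module

variable {K : Type} [Field K] [Algebra ℂ K]

/-- A simple line of contact four at `p`, with auxiliary tangent vectors. -/
structure Root {σ : Type} [Fintype σ] (q : Q4 σ) (p v w u : σ → K) : Prop where
  v1 : q.T p p p v = 0
  v2 : q.T p p v v = 0
  v3 : q.T p v v v = 0
  v4 : q.T v v v v ≠ 0
  w1 : q.T p p p w = 0
  w2 : q.T p p v w = 0
  w3 : q.T p v v w ≠ 0
  w4 : q.T p p w w ≠ 0
  u1 : q.T p p p u = 0
  u2 : q.T p p v u ≠ 0

theorem exists_root5 {K : Type} [Field K] [IsAlgClosed K] (b0 b1 b2 b3 b4 b5 : K)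
    (hb : b4 ≠ 0 ∨ b5 ≠ 0) :
    ∃ z, b0 + b1 * z + b2 * z ^ 2 + b3 * z ^ 3 + b4 * z ^ 4 + b5 * z ^ 5 = 0 := by
  let p : Polynomial K := Polynomial.C b0 + Polynomial.C b1 * Polynomial.X +
    Polynomial.C b2 * Polynomial.X ^ 2 + Polynomial.C b3 * Polynomial.X ^ 3 +
    Polynomial.C b4 * Polynomial.X ^ 4 + Polynomial.C b5 * Polynomial.X ^ 5
  obtain ⟨τ, hτ⟩ := IsAlgClosed.exists_root p fun h0 => by
    have h2 := Polynomial.coeff_eq_zero_of_degree_lt (p := p) (n := 4) (by rw [h0]; norm_num)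
    have h3 := Polynomial.coeff_eq_zero_of_degree_lt (p := p) (n := 5) (by rw [h0]; norm_num)
    simp [p] at h2 h3
    tauto
  exact ⟨τ, by simpa [p] using hτ⟩

theorem two_roots {K : Type} [Field K] [IsAlgClosed K] (a0 a1 a2 a3 a4 a5 : K) (h5 : a5 ≠ 0)
    (φ ψ : K → K)
    (h1 : ∀ z, φ z = a0 + a1 * z + a2 * z ^ 2 + a3 * z ^ 3 + a4 * z ^ 4 + a5 * z ^ 5)
    (h2 : ∀ z, ψ z = a1 + 2 * a2 * z + 3 * a3 * z ^ 2 + 4 * a4 * z ^ 3 + 5 * a5 * z ^ 4)
    (h : ∀ z, φ z = 0 → ψ z ≠ 0) : ∃ z1 z2, z1 ≠ z2 ∧ φ z1 = 0 ∧ φ z2 = 0 := by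
  obtain ⟨z, hz⟩ := exists_root5 a0 a1 a2 a3 a4 a5 (.inr h5)
  obtain ⟨y, hy⟩ := exists_root5 (a1 + a2 * z + a3 * z ^ 2 + a4 * z ^ 3 + a5 * z ^ 4)
    (a2 + a3 * z + a4 * z ^ 2 + a5 * z ^ 3) (a3 + a4 * z + a5 * z ^ 2) (a4 + a5 * z) a5 0 (.inl h5)
  refine ⟨z, y, fun hzy => h z (by rw [h1, hz]) ?_, by rw [h1, hz], ?_⟩
  · rw [h2, ← hy, ← hzy]; ring
  · rw [h1]; linear_combination hz + (y - z) * hy

/-- Properties of the generic point. -/
structure Gp (q : Q4 (Fin 5)) (ξ : Fin 5 → K) : Prop where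
  sm : q.Sm K
  ne : ξ ≠ 0
  z : q.T ξ ξ ξ ξ = 0
  de : ∀ w, q.T ξ ξ ξ w = 0 → ∃ D : Derivation ℂ K K, D ∘ ξ = w

namespace Gp

variable {q : Q4 (Fin 5)} {ξ : Fin 5 → K} (h : Gp q ξ) [IsAlgClosed K] [CharZero K]
include h

omit [IsAlgClosed K] in
theorem d (v w : Fin 5 → K) (hw : q.T ξ ξ ξ w = 0) : ∃ v',
    (q.T ξ ξ ξ v = 0 → 3 * q.T ξ ξ v w + q.T ξ ξ ξ v' = 0) ∧
    (q.T ξ ξ v v = 0 → q.T ξ v v w + q.T ξ ξ v v' = 0) ∧
    (q.T ξ v v v = 0 → q.T v v v w + 3 * q.T ξ v v v' = 0) ∧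
    (q.T v v v v = 0 → q.T v v v v' = 0) := by
  obtain ⟨D, hD⟩ := h.de w hw
  refine ⟨D ∘ v, fun h1 => ?_, fun h1 => ?_, fun h1 => ?_, fun h1 => ?_⟩ <;>
    have h2 := congrArg D h1 <;> rw [q.der, map_zero] at h2
  · rw [hD, q.T12 w, q.T23 _ w, q.T34 _ _ w] at h2
    linear_combination h2
  · rw [hD, q.T12 w, q.T23 _ w, q.T34 _ _ w, q.T34 _ _ (D ∘ v)] at h2
    linear_combination h2 / 2
  · rw [hD, q.T12 w, q.T23 _ w, q.T34 _ _ w, q.T23 _ (D ∘ v), q.T34 _ _ (D ∘ v)] at h2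
    linear_combination h2
  · rw [q.T12 (D ∘ v), q.T23 _ (D ∘ v), q.T34 _ _ (D ∘ v)] at h2
    linear_combination h2 / 4

theorem noline {v : Fin 5 → K} (v1 : q.T ξ ξ ξ v = 0) (v2 : q.T ξ ξ v v = 0)
    (v3 : q.T ξ v v v = 0) (v4 : q.T v v v v = 0) : ∃ c : K, v = c • ξ := by
  by_contra! hv
  have hi : LinearIndependent K ![ξ, v] := (LinearIndependent.pair_iff' h.ne).2
    fun c hc => hv c hc.symm
  have h1 := forms (q.L ξ ξ ξ) (q.L ξ ξ v) (q.L ξ v v) (q.L v v v) (fun w hw => by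
    obtain ⟨v', a, b, c, d⟩ := h.d v w hw
    exact ⟨v', a v1, b v2, c v3, d v4⟩) (fun τ => by
    obtain ⟨z, hz⟩ := h.sm (ξ + τ • v) (fun h0 => by
      simpa using (LinearIndependent.pair_iff.1 hi 1 τ (by rwa [one_smul])).1)
      (by rw [q.expand, h.z, v1, v2, v3, v4]; ring)
    refine ⟨z, fun h0 => hz ?_⟩
    simp only [Q4.L_apply] at h0
    simp only [q.add1, q.add2, q.add3, q.smul1, q.smul2, q.smul3, q.T12 v ξ, q.T23 _ v ξ]
    linear_combination h0) (h.sm v (fun h0 => hv 0 (by simp [h0])) v4)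
  have h2 := (dim_count h1 hi fun i j => by
    fin_cases i <;> fin_cases j <;>
      simp [Q4.L_apply, h.z, v1, v2, v3, v4, q.T34 _ _ v ξ, q.T23 _ v ξ, q.T12 v ξ]).1
  simp at h2

theorem exu {v : Fin 5 → K} (v1 : q.T ξ ξ ξ v = 0) (v2 : q.T ξ ξ v v = 0)
    (hv : ∀ c : K, v ≠ c • ξ) : ∃ u, q.T ξ ξ ξ u = 0 ∧ q.T ξ ξ v u ≠ 0 := by
  obtain ⟨w, a, b, c, -⟩ := h.d v v v1
  have w1 : q.T ξ ξ ξ w = 0 := by linear_combination a v1 - 3 * v2
  by_cases v3 : q.T ξ v v v = 0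
  · have w2 : q.T ξ ξ v w = 0 := by linear_combination b v2 - v3
    obtain ⟨u, a', b', -⟩ := h.d v w w1
    refine ⟨u, by linear_combination a' v1 - 3 * w2, fun h0 => ?_⟩
    obtain ⟨x, hx⟩ := h.noline v1 v2 v3 (by linear_combination c v3 - 3 * b' v2 + 3 * h0)
    exact hv x hx
  · exact ⟨w, w1, fun h0 => v3 (by linear_combination b v2 - h0)⟩

theorem nondeg {y : Fin 5 → K} (hy : ∀ z, q.T ξ ξ y z = 0) : y = 0 := by
  by_contra h0
  obtain ⟨u, -, hu⟩ := h.exu (v := y) (by rw [q.T34, hy]) (hy y) fun c hc => by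
    obtain ⟨w, hw⟩ := h.sm ξ h.ne h.z
    have := hy w
    rw [hc, q.smul3] at this
    exact h0 (by rw [hc, (mul_eq_zero.1 this).resolve_right hw, zero_smul])
  exact hu (hy u)

theorem indep {k : ℕ} {b : Fin k → Fin 5 → K} (hb : LinearIndependent K b) :
    LinearIndependent K fun i => q.L ξ ξ (b i) := by
  let B : (Fin 5 → K) →ₗ[K] (Fin 5 → K) →ₗ[K] K :=
    { toFun := q.L ξ ξ
      map_add' := fun a b => LinearMap.ext fun z => q.add3 _ _ _ _ _
      map_smul' := fun a b => LinearMap.ext fun z => q.smul3 _ _ _ _ _ }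
  exact hb.map' B (LinearMap.ker_eq_bot'.2 fun y hy => h.nondeg fun z => LinearMap.congr_fun hy z)

theorem root {v : Fin 5 → K} (v1 : q.T ξ ξ ξ v = 0) (v2 : q.T ξ ξ v v = 0)
    (v3 : q.T ξ v v v = 0) (hv : ∀ c : K, v ≠ c • ξ) : ∃ w u, Root q ξ v w u := by
  obtain ⟨u, u1, u2⟩ := h.exu v1 v2 hv
  obtain ⟨w, a, b, c, -⟩ := h.d v v v1
  have v4 : q.T v v v v ≠ 0 := fun v4 => (h.noline v1 v2 v3 v4).elim hv
  have w1 : q.T ξ ξ ξ w = 0 := by linear_combination a v1 - 3 * v2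
  have w2 : q.T ξ ξ v w = 0 := by linear_combination b v2 - v3
  have w3 : q.T ξ v v w ≠ 0 := fun h0 => v4 (by linear_combination c v3 - 3 * h0)
  refine ⟨w, u, v1, v2, v3, v4, w1, w2, w3, fun w4 => ?_, u1, u2⟩
  have hi : LinearIndependent K ![ξ, v, w] := by
    rw [Fintype.linearIndependent_iff]
    intro g hg
    simp only [Fin.sum_univ_three, Matrix.cons_val] at hg
    have g2 : g 2 = 0 := by
      have := congrArg (q.T ξ v v) hg
      rw [q.add4, q.add4, q.smul4, q.smul4, q.smul4, q.zero4, q.T34 _ _ v ξ, q.T23 _ v ξ, v2,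
        v3] at this
      simpa [w3] using this
    have g1 : g 1 = 0 := by
      have := congrArg (q.T ξ ξ u) hg
      rw [q.add4, q.add4, q.smul4, q.smul4, q.smul4, q.zero4, q.T34 _ _ u ξ, q.T34 _ _ u v, u1,
        g2] at this
      simpa [u2] using this
    have g0 : g 0 = 0 := by simpa [g1, g2, h.ne] using hg
    intro i
    fin_cases i <;> assumption
  have h2 := (dim_count (h.indep hi) hi fun i j => by
    fin_cases i <;> fin_cases j <;>
      simp [Q4.L_apply, h.z, v1, v2, w1, w2, w4, q.T34 _ _ v ξ, q.T34 _ _ w ξ, q.T34 _ _ w v]).1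
  simp at h2

theorem three : ∃ v : Fin 3 → Fin 5 → K, (∀ i, ∃ w u, Root q ξ (v i) w u) ∧
    LinearIndependent K ![ξ, v 0, v 1, v 2] := by
  obtain ⟨e, he⟩ := h.sm ξ h.ne h.z
  obtain ⟨v, hv0, hv⟩ : ∃ v : Fin 5 → K, v ≠ 0 ∧ q.T ξ ξ ξ v = 0 ∧ q.T ξ ξ e v = 0 ∧
      q.T ξ ξ v v = 0 ∧ q.T ξ v v v = 0 := by
    have e1 : ∀ (y : Fin 5 → K) a b c d, eval y (q.T a b c d) =
        q.T (eval y ∘ a) (eval y ∘ b) (eval y ∘ c) (eval y ∘ d) :=
      fun y a b c d => by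
        simp only [Q4.T, map_sum, map_mul, Function.comp, MvPolynomial.algebraMap_apply, eval_C]
    have e2 : ∀ y a : Fin 5 → K, eval y ∘ C ∘ a = a := fun y a => funext fun i => eval_C _
    have e3 : ∀ y : Fin 5 → K, eval y ∘ X = y := fun y => funext fun i => eval_X _
    obtain ⟨v, hv0, hv⟩ := exists_zero (F := K) ![q.T (C ∘ ξ) (C ∘ ξ) (C ∘ ξ) X,
      q.T (C ∘ ξ) (C ∘ ξ) (C ∘ e) X, q.T (C ∘ ξ) (C ∘ ξ) X X, q.T (C ∘ ξ) X X X] (fun j => by
        fin_cases j <;> simp [-eval_zero, e1, e3, q.zero4]) (by simp)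
    exact ⟨v, hv0, by simpa [e1, e2, e3] using hv 0, by simpa [e1, e2, e3] using hv 1,
      by simpa [e1, e2, e3] using hv 2, by simpa [e1, e2, e3] using hv 3⟩
  obtain ⟨v1, ve, v2, v3⟩ := hv
  obtain ⟨w, u0, R⟩ := h.root v1 v2 v3 fun c hc => by
    rw [hc, q.smul4, q.T34] at ve
    exact hv0 (by rw [hc, (mul_eq_zero.1 ve).resolve_right he, zero_smul])
  obtain ⟨u, u1, u2, u3, u4⟩ : ∃ u, q.T ξ ξ ξ u = 0 ∧ q.T ξ ξ v u ≠ 0 ∧ q.T ξ ξ w u = 0 ∧
      q.T ξ ξ u u = 0 := by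
    obtain ⟨u, u1, u2, u3⟩ : ∃ u, q.T ξ ξ ξ u = 0 ∧ q.T ξ ξ v u ≠ 0 ∧ q.T ξ ξ w u = 0 := by
      refine ⟨u0 - (q.T ξ ξ w u0 / q.T ξ ξ w w) • w, ?_, ?_, ?_⟩ <;> rw [q.sub4, q.smul4]
      · rw [R.u1, R.w1]; ring
      · rw [R.w2]; simpa using R.u2
      · field_simp [R.w4]; ring
    refine ⟨u - (q.T ξ ξ u u / (2 * q.T ξ ξ v u)) • v, ?_, ?_, ?_, ?_⟩
    · rw [q.sub4, q.smul4, u1, v1]; ring
    · rw [q.sub4, q.smul4, v2]; simpa using u2
    · rw [q.sub4, q.smul4, u3, q.T34 _ _ w v, R.w2]; ring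
    · simp only [q.sub3, q.sub4, q.smul3, q.smul4, v2, q.T34 _ _ u v]
      field_simp; ring
  obtain ⟨κ, hκ⟩ : ∃ κ, q.T ξ ξ w w = 2 * κ * q.T ξ ξ v u :=
    ⟨q.T ξ ξ w w / (2 * q.T ξ ξ v u), by field_simp⟩
  have hκ0 : κ ≠ 0 := fun h0 => R.w4 (by rw [hκ, h0]; ring)
  let c : K → Fin 5 → K := fun z => u + z • w - (κ * z ^ 2) • v
  have c1 : ∀ z, q.T ξ ξ ξ (c z) = 0 := fun z => by
    simp only [c, q.add4, q.sub4, q.smul4, u1, v1, R.w1]; ring
  have cv : ∀ z, q.T ξ ξ v (c z) = q.T ξ ξ v u := fun z => by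
    simp only [c, q.add4, q.sub4, q.smul4, v2, R.w2]; ring
  have cw : ∀ z, q.T ξ ξ w (c z) = z * q.T ξ ξ w w := fun z => by
    simp only [c, q.add4, q.sub4, q.smul4, u3, q.T34 _ _ w v, R.w2]; ring
  have cu : ∀ z, q.T ξ ξ u (c z) = -(κ * z ^ 2) * q.T ξ ξ v u := fun z => by
    simp only [c, q.add4, q.sub4, q.smul4, u4, q.T34 _ _ u v, q.T34 _ _ u w, u3]; ring
  have c2 : ∀ z, q.T ξ ξ (c z) (c z) = 0 := fun z => by
    conv_lhs => enter [4]; simp only [c]
    rw [q.sub3, q.add3, q.smul3, q.smul3, cu, cw, cv, hκ]; ring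
  have c0 : ∀ z (x : K), c z ≠ x • ξ := fun z x hx => u2 (by
    rw [← cv z, hx, q.smul4, q.T34, v1, mul_zero])
  have hi : LinearIndependent K ![ξ, v, w, u] := by
    rw [Fintype.linearIndependent_iff]
    intro g hg
    simp only [Fin.sum_univ_four, Matrix.cons_val] at hg
    have e := fun y => congrArg (q.T ξ ξ y) hg
    simp only [q.add4, q.smul4, q.zero4, q.T34 _ _ _ ξ] at e
    have g3 : g 3 = 0 := by simpa [v1, v2, R.w2, u2] using e v
    have g1 : g 1 = 0 := by simpa [u1, q.T34 _ _ u v, q.T34 _ _ u w, u3, u4, u2] using e u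
    have g2 : g 2 = 0 := by simpa [R.w1, g1, g3, R.w4] using e w
    have g0 : g 0 = 0 := by simpa [g1, g2, g3, h.ne] using hg
    intro i
    fin_cases i <;> assumption
  have simple : ∀ z, q.T ξ (c z) (c z) (c z) = 0 →
      q.T ξ (c z) (c z) (w - (2 * κ * z) • v) ≠ 0 := fun z hz h0 => by
    obtain ⟨w', u', R'⟩ := h.root (c1 z) (c2 z) hz (c0 z)
    obtain ⟨x, hx⟩ := (dim_count (h.indep (b := ![ξ]) (by simp [h.ne])) hi fun i j => by
      fin_cases i; fin_cases j <;> simp [Q4.L_apply, h.z, v1, R.w1, u1]).2 (by simp) w' fun i => by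
        fin_cases i; exact R'.w1
    simp only [Fin.sum_univ_four, Matrix.cons_val] at hx
    have h1 := R'.w2
    rw [q.T34, ← hx, q.add3, q.add3, q.add3, q.smul3, q.smul3, q.smul3, q.smul3, c1, cv, cw, cu,
      hκ] at h1
    have h2 : x 1 = x 3 * κ * z ^ 2 - 2 * κ * z * x 2 :=
      mul_right_cancel₀ u2 (by linear_combination h1)
    have h3 : w' = x 0 • ξ + x 3 • c z + (x 2 - x 3 * z) • (w - (2 * κ * z) • v) := by
      rw [← hx, h2]; simp only [c]; module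
    apply R'.w3
    rw [h3, q.add4, q.add4, q.smul4, q.smul4, q.smul4, h0, hz, q.T34 _ _ _ ξ, q.T23 _ _ ξ, c2]
    ring
  obtain ⟨z1, z2, hne, hz1, hz2⟩ : ∃ z1 z2, z1 ≠ z2 ∧ q.T ξ (c z1) (c z1) (c z1) = 0 ∧
      q.T ξ (c z2) (c z2) (c z2) = 0 := by
    refine two_roots (q.T ξ u u u) (3 * q.T ξ w u u) (3 * q.T ξ w w u - 3 * κ * q.T ξ v u u)
      (q.T ξ w w w - 6 * κ * q.T ξ v w u) (3 * κ ^ 2 * q.T ξ v v u - 3 * κ * q.T ξ v w w)
      (3 * κ ^ 2 * q.T ξ v v w) (mul_ne_zero (by simpa using hκ0) R.w3) _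
      (fun z => 3 * q.T ξ (c z) (c z) (w - (2 * κ * z) • v)) (fun z => ?_) (fun z => ?_)
      fun z hz => mul_ne_zero three_ne_zero (simple z hz) <;>
    simp only [c, q.add2, q.add3, q.add4, q.sub2, q.sub3, q.sub4, q.smul2, q.smul3, q.smul4,
      q.T23 _ w v, q.T23 _ u v, q.T23 _ u w, q.T34 _ _ w v, q.T34 _ _ u v, q.T34 _ _ u w, v3] <;>
    ring
  refine ⟨![v, c z1, c z2], fun i => ?_, ?_⟩
  · fin_cases i
    · exact ⟨w, u0, R⟩
    · exact h.root (c1 z1) (c2 z1) hz1 (c0 z1)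
    · exact h.root (c1 z2) (c2 z2) hz2 (c0 z2)
  · rw [Fintype.linearIndependent_iff]
    intro g hg
    simp only [Fin.sum_univ_four, Matrix.cons_val] at hg
    have e := fun y => congrArg (q.T ξ ξ y) hg
    simp only [q.add4, q.smul4, q.zero4, q.T34 _ _ _ ξ] at e
    have e1 := e v
    have e2 := e w
    have e3 := e u
    rw [v1, v2, cv, cv] at e1
    rw [R.w1, q.T34 _ _ w v, R.w2, cw, cw] at e2
    rw [u1, q.T34 _ _ u v] at e3
    have g3 : g 3 = -g 2 := mul_right_cancel₀ u2 (by linear_combination e1)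
    have g2 : g 2 = 0 := mul_right_cancel₀ (mul_ne_zero (sub_ne_zero.2 hne) R.w4)
      (by rw [g3] at e2; linear_combination e2)
    have g1 : g 1 = 0 := by simpa [g3, g2, u2] using e3
    have g0 : g 0 = 0 := by simpa [g1, g2, g3, h.ne] using hg
    intro i
    fin_cases i
    exacts [g0, g1, g2, by simpa [g2] using g3]

end Gp

/-- A good frame: `b 1` is the point, `b 2, b 3, b 4` are simple directions of contact four. -/
structure Frame (q : Q4 (Fin 5)) (b : Fin 5 → Fin 5 → K) (w u : Fin 3 → Fin 5 → K) : Prop where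
  det : (Matrix.of b).det ≠ 0
  z : q.T (b 1) (b 1) (b 1) (b 1) = 0
  e1 : q.T (b 1) (b 1) (b 1) (b 0) ≠ 0
  e4 : q.T (b 0) (b 0) (b 0) (b 0) ≠ 0
  root : ∀ i, Root q (b 1) (b i.succ.succ) (w i) (u i)

theorem Gp.frame {q : Q4 (Fin 5)} {ξ : Fin 5 → K} (h : Gp q ξ) [IsAlgClosed K] [CharZero K] :
    ∃ (b : Fin 5 → Fin 5 → K) (w u : Fin 3 → Fin 5 → K), Frame q b w u := by
  obtain ⟨v, hv, hi⟩ := h.three
  choose w u R using hv
  obtain ⟨e, he⟩ := h.sm ξ h.ne h.z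
  obtain ⟨s, hs⟩ := exists_root5 (q.T e e e e - 1) (4 * q.T e e e (v 0))
    (6 * q.T e e (v 0) (v 0)) (4 * q.T e (v 0) (v 0) (v 0)) _ 0 (.inl (R 0).v4)
  have h1 : q.T ξ ξ ξ (e + s • v 0) ≠ 0 := by rw [q.add4, q.smul4, (R 0).v1]; simpa using he
  refine ⟨![e + s • v 0, ξ, v 0, v 1, v 2], w, u, ?_, h.z, h1, ?_, fun i => ?_⟩
  · rw [← isUnit_iff_ne_zero, ← Matrix.isUnit_iff_isUnit_det,
      ← Matrix.linearIndependent_rows_iff_isUnit]
    refine linearIndependent_finCons.2 ⟨hi, fun h0 => h1 ?_⟩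
    obtain ⟨x, hx⟩ := (Submodule.mem_span_range_iff_exists_fun K).1 h0
    rw [← hx]
    simp [Fin.sum_univ_four, q.add4, q.smul4, h.z, (R _).v1]
  · change q.T (e + s • v 0) (e + s • v 0) (e + s • v 0) (e + s • v 0) ≠ 0
    rw [q.expand]
    exact fun h0 => one_ne_zero (by linear_combination h0 - hs : (1 : K) = 0)
  · fin_cases i <;> exact R _

section
variable {A : Type} [CommRing A] [Algebra ℂ A] (q : Q4 (Fin 5))
  (y : (Fin 5 ⊕ Fin 3 ⊕ Fin 3) × Fin 5 → A)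

/-- The vectors of a frame. -/
def vec (a : Fin 5 ⊕ Fin 3 ⊕ Fin 3) : Fin 5 → A := fun s => y (a, s)

/-- The equations of a frame. -/
def feq : Option (Fin 3 × Fin 5) → A
  | none => q.T (vec y (.inl 1)) (vec y (.inl 1)) (vec y (.inl 1)) (vec y (.inl 1))
  | some (i, j) =>
    let p := vec y (.inl 1)
    let v := vec y (.inl i.succ.succ)
    let w := vec y (.inr (.inl i))
    ![q.T p p p v, q.T p p v v, q.T p v v v, q.T p p p w, q.T p p v w] j

/-- The equations for the third vectors. -/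
def feq' (i : Fin 3) : A :=
  q.T (vec y (.inl 1)) (vec y (.inl 1)) (vec y (.inl 1)) (vec y (.inr (.inr i)))

/-- The inequations of a frame. -/
def fnd : A :=
  let p := vec y (.inl 1)
  let e := vec y (.inl 0)
  (Matrix.of fun i => vec y (.inl i)).det * q.T p p p e * q.T e e e e * ∏ i : Fin 3,
    let v := vec y (.inl i.succ.succ)
    let w := vec y (.inr (.inl i))
    q.T v v v v * q.T p v v w * q.T p p w w * q.T p p v (vec y (.inr (.inr i)))

theorem aeval_vec (a : Fin 5 ⊕ Fin 3 ⊕ Fin 3) :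
    (aeval y : MvPolynomial _ ℂ →ₐ[ℂ] A) ∘ vec X a = vec y a := funext fun _ => by
  simp only [Function.comp, vec, aeval_X]

theorem aeval_feq (j : Option (Fin 3 × Fin 5) ⊕ Fin 3) :
    aeval y (Sum.elim (feq q X) (feq' q X) j : MvPolynomial _ ℂ) =
      Sum.elim (feq q y) (feq' q y) j := by
  rcases j with (_ | ⟨i, j⟩) | i
  · simp only [Sum.elim_inl, feq, q.map, aeval_vec]
  · fin_cases j <;> simp [feq, q.map, aeval_vec]
  · simp only [Sum.elim_inr, feq', q.map, aeval_vec]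

theorem aeval_fnd : aeval y (fnd q X : MvPolynomial _ ℂ) = fnd q y := by
  simp only [fnd, map_mul, map_prod, q.map, aeval_vec, AlgHom.map_det]
  congr 4
  ext i j
  simp [vec]

end

theorem frame_iff (q : Q4 (Fin 5)) (y : (Fin 5 ⊕ Fin 3 ⊕ Fin 3) × Fin 5 → K) :
    Frame q (fun i => vec y (.inl i)) (fun i => vec y (.inr (.inl i)))
      (fun i => vec y (.inr (.inr i))) ↔
    (∀ j, Sum.elim (feq q y) (feq' q y) j = 0) ∧ fnd q y ≠ 0 := by
  simp only [fnd, mul_ne_zero_iff, Finset.prod_ne_zero_iff, Finset.mem_univ, forall_const]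
  constructor
  · rintro ⟨h1, h2, h3, h4, R⟩
    refine ⟨?_, ⟨⟨h1, h3⟩, h4⟩, fun i => ⟨⟨⟨(R i).v4, (R i).w3⟩, (R i).w4⟩, (R i).u2⟩⟩
    rintro ((_ | ⟨i, j⟩) | i)
    · exact h2
    · fin_cases j
      exacts [(R i).v1, (R i).v2, (R i).v3, (R i).w1, (R i).w2]
    · exact (R i).u1
  · rintro ⟨h, ⟨⟨h1, h3⟩, h4⟩, h5⟩
    exact ⟨h1, h (.inl none), h3, h4, fun i => ⟨h (.inl (some (i, 0))), h (.inl (some (i, 1))),
      h (.inl (some (i, 2))), (h5 i).1.1.1, h (.inl (some (i, 3))), h (.inl (some (i, 4))),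
      (h5 i).1.1.2, (h5 i).1.2, h (.inr i), (h5 i).2⟩⟩

theorem exists_frame {q : Q4 (Fin 5)} (h : q.Sm ℂ) :
    ∃ (b : Fin 5 → Fin 5 → ℂ) (w u : Fin 3 → Fin 5 → ℂ), Frame q b w u := by
  obtain ⟨K, _, _, _, _, ξ, h1, h2, h3⟩ := exists_gen q (h.prime (by simp)) (by simp)
  obtain ⟨b, w, u, F⟩ := Gp.frame ⟨h.ext K, h1, h2, h3⟩
  obtain ⟨h4, h5⟩ := (frame_iff q fun x => Sum.elim b (Sum.elim w u) x.1 x.2).1 F
  by_contra! H
  refine h5 ?_
  rw [← aeval_fnd]
  refine null (F := ℂ) (Sum.elim (feq q X) (feq' q X)) _ (fun y hy => ?_) _ fun j => ?_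
  · by_contra h6
    rw [← aeval_eq_eval, aeval_fnd] at h6
    exact H _ _ _ ((frame_iff q y).2 ⟨fun j => by rw [← aeval_feq, aeval_eq_eval, hy], h6⟩)
  · rw [aeval_feq, h4]

theorem lin_single {σ τ : Type} [Fintype τ] [DecidableEq τ] (m : τ → σ → ℂ) (i : τ) :
    lin m (Pi.single i (1 : ℂ)) = m i := by
  funext s
  simp [lin, Pi.single_apply]

theorem exists_std {q : Q4 (Fin 5)} (h : q.Sm ℂ) : ∃ (b : Fin 5 → Fin 5 → ℂ)
    (w u : Fin 3 → Fin 5 → ℂ), Function.Bijective (lin (A := ℂ) b) ∧ (q.pull b).Sm ℂ ∧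
      Frame (q.pull b) (fun i => Pi.single i 1) w u := by
  obtain ⟨b, w, u, F⟩ := exists_frame h
  have h1 : lin (A := ℂ) b = (Matrix.of b).vecMul := by
    funext a s
    simp [lin, Matrix.vecMul, dotProduct, mul_comm]
  have h2 : IsUnit (Matrix.of b) := (Matrix.isUnit_iff_isUnit_det _).2 F.det.isUnit
  have h3 : Function.Bijective (lin (A := ℂ) b) := h1 ▸
    ⟨Matrix.vecMul_injective_iff_isUnit.2 h2, Matrix.vecMul_surjective_iff_isUnit.2 h2⟩
  choose w' hw using fun i => h3.2 (w i)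
  choose u' hu using fun i => h3.2 (u i)
  refine ⟨b, w', u', h3, fun y hy h0 => ?_, ?_, ?_, ?_, ?_, fun i => ?_⟩
  · rw [q.pull_T] at h0
    obtain ⟨z, hz⟩ := h _ (fun h4 => hy (h3.1 (by rw [h4, h1]; simp))) h0
    obtain ⟨z, rfl⟩ := h3.2 z
    exact ⟨z, by rwa [q.pull_T]⟩
  · rw [show Matrix.of (fun i : Fin 5 => (Pi.single i 1 : Fin 5 → ℂ)) = 1 by
      ext i j; simp [Pi.single_apply, Matrix.one_apply, eq_comm]]
    simp
  · simpa only [q.pull_T, lin_single] using F.z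
  · simpa only [q.pull_T, lin_single] using F.e1
  · simpa only [q.pull_T, lin_single] using F.e4
  · obtain ⟨a1, a2, a3, a4, a5, a6, a7, a8, a9, a10⟩ := F.root i
    constructor <;> simp only [q.pull_T, lin_single, hw, hu]
    exacts [a1, a2, a3, a4, a5, a6, a7, a8, a9, a10]

end Pool.Agent.MP_e0214e_ag.H61

end

-- part MP_e0214e_ag.H61.Dom
section

/-! Chains of three residual points dominate the threefold. -/

set_option autoImplicit false

namespace Pool.Agent.MP_e0214e_ag.H61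

open MvPolynomial Filter Topology

theorem hd_fst {E F : Type} [NormedAddCommGroup E] [NormedSpace ℂ E] [NormedAddCommGroup F]
    [NormedSpace ℂ F] {f : ℂ → E × F} {f' : E × F} {x : ℂ} (h : HasDerivAt f f' x) :
    HasDerivAt (fun t => (f t).1) f'.1 x :=
  (ContinuousLinearMap.fst ℂ E F).hasFDerivAt.comp_hasDerivAt x h

theorem hd_snd {E F : Type} [NormedAddCommGroup E] [NormedSpace ℂ E] [NormedAddCommGroup F]
    [NormedSpace ℂ F] {f : ℂ → E × F} {f' : E × F} {x : ℂ} (h : HasDerivAt f f' x) :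
    HasDerivAt (fun t => (f t).2) f'.2 x :=
  (ContinuousLinearMap.snd ℂ E F).hasFDerivAt.comp_hasDerivAt x h

namespace Q4

section
variable {σ : Type} [Fintype σ] (q : Q4 σ) {A : Type} [CommRing A] [Algebra ℂ A]

/-- Projection to the tangent space. -/
def pr (e p z : σ → A) : σ → A := q.T p p p e • z - q.T p p p z • e

/-- The discriminant of the conic of directions. -/
def disc (p v a b : σ → A) : A := q.T p p v a ^ 2 * q.T p p b b
  - 2 * q.T p p v a * q.T p p v b * q.T p p a b + q.T p p v b ^ 2 * q.T p p a a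

/-- The inequation of a step. -/
def nd (e w u p v : σ → A) : A :=
  q.T p p p e * q.disc p v (q.pr e p w) (q.pr e p u) * q.T v v v v

/-- One step: from `p` to the residual point `p + μ • v` of a line of contact three. -/
structure Step (e w u p v : σ → A) (μ : A) : Prop where
  h1 : q.T p p p v = 0
  h2 : q.T p p v v = 0
  h3 : 4 * q.T p v v v + μ * q.T v v v v = 0
  h4 : q.nd e w u p v * μ ≠ 0

theorem Step.z {q : Q4 σ} {e w u p v : σ → A} {μ : A} (h : q.Step e w u p v μ)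
    (hp : q.T p p p p = 0) : q.T (p + μ • v) (p + μ • v) (p + μ • v) (p + μ • v) = 0 := by
  rw [q.expand, hp, h.h1, h.h2]
  linear_combination μ ^ 3 * h.h3

@[fun_prop]
theorem cont_nd {Y : Type} [TopologicalSpace Y] [TopologicalSpace A] [IsTopologicalRing A]
    {e w u p v : Y → σ → A} (he : Continuous e) (hw : Continuous w) (hu : Continuous u)
    (hp : Continuous p) (hv : Continuous v) :
    Continuous fun y => q.nd (e y) (w y) (u y) (p y) (v y) := by
  unfold nd disc pr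
  fun_prop

theorem hasDerivAt_T {a b c d : ℂ → σ → ℂ} {a' b' c' d' : σ → ℂ} {x : ℂ} (ha : HasDerivAt a a' x)
    (hb : HasDerivAt b b' x) (hc : HasDerivAt c c' x) (hd : HasDerivAt d d' x) :
    HasDerivAt (fun t => q.T (a t) (b t) (c t) (d t)) (q.T a' (b x) (c x) (d x) +
      q.T (a x) b' (c x) (d x) + q.T (a x) (b x) c' (d x) + q.T (a x) (b x) (c x) d') x := by
  unfold T
  simp only [← Finset.sum_add_distrib]
  refine HasDerivAt.fun_sum fun i _ => HasDerivAt.fun_sum fun j _ => HasDerivAt.fun_sum fun k _ =>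
    HasDerivAt.fun_sum fun l _ => ?_
  refine (((((hasDerivAt_pi.1 ha i).fun_mul (hasDerivAt_pi.1 hb j)).fun_mul
    (hasDerivAt_pi.1 hc k)).fun_mul (hasDerivAt_pi.1 hd l)).const_mul _).congr_deriv ?_
  ring

@[fun_prop]
theorem contDiff_T {Y : Type} [NormedAddCommGroup Y] [NormedSpace ℂ Y] {a b c d : Y → σ → ℂ}
    (ha : ContDiff ℂ 1 a) (hb : ContDiff ℂ 1 b) (hc : ContDiff ℂ 1 c) (hd : ContDiff ℂ 1 d) :
    ContDiff ℂ 1 fun y => q.T (a y) (b y) (c y) (d y) := by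
  unfold T
  fun_prop

theorem ift {e w u p v : σ → ℂ} (R : Root q p v w u) (he : q.T p p p e ≠ 0) :
    ∃ V : (σ → ℂ) × ℂ → σ → ℂ, Tendsto V (𝓝 (p, 0)) (𝓝 v) ∧
      ∀ᶠ x in 𝓝 (p, (0 : ℂ)), x.2 ≠ 0 → q.Step e w u x.1 (V x) x.2 := by
  let W : ((σ → ℂ) × ℂ) × ℂ × ℂ × ℂ → σ → ℂ := fun x => v + (x.2.1 • e + x.2.2.1 • u + x.2.2.2 • w)
  let Φ : ((σ → ℂ) × ℂ) × ℂ × ℂ × ℂ → ((σ → ℂ) × ℂ) × ℂ × ℂ × ℂ := fun x =>
    (x.1, q.T x.1.1 x.1.1 x.1.1 (W x), q.T x.1.1 x.1.1 (W x) (W x),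
      4 * q.T x.1.1 (W x) (W x) (W x) + x.1.2 * q.T (W x) (W x) (W x) (W x))
  have hW : W ((p, 0), 0) = v := by simp [W]
  have h1 : HasStrictFDerivAt Φ (fderiv ℂ Φ ((p, 0), 0)) ((p, 0), 0) :=
    (by fun_prop : ContDiff ℂ 1 Φ).contDiffAt.hasStrictFDerivAt one_ne_zero
  have h2 : (fderiv ℂ Φ ((p, 0), 0)).ker = ⊥ := by
    rw [LinearMap.ker_eq_bot']
    rintro ⟨h, α, β, γ⟩ hh
    have l0 : HasDerivAt (fun t : ℂ => (((p, 0), 0) : ((σ → ℂ) × ℂ) × ℂ × ℂ × ℂ) +
        t • (h, α, β, γ)) (h, α, β, γ) 0 := by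
      simpa using ((hasDerivAt_id (0 : ℂ)).smul_const (h, α, β, γ)).const_add ((p, 0), 0)
    have l1 : HasDerivAt (fun t : ℂ => Φ (((p, 0), 0) + t • (h, α, β, γ))) 0 0 := by
      have := h1.hasFDerivAt.comp_hasDerivAt_of_eq 0 l0 (by simp)
      rwa [show fderiv ℂ Φ ((p, 0), 0) (h, α, β, γ) = 0 from hh] at this
    have l4 := hd_fst l1
    obtain rfl : h = 0 := (hd_fst l0).unique l4
    have l2 : HasDerivAt (fun t : ℂ => W (((p, 0), 0) + t • (0, α, β, γ)))
        (α • e + β • u + γ • w) 0 := by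
      refine (((hasDerivAt_id (0 : ℂ)).smul_const (α • e + β • u + γ • w)).const_add v
        |>.congr_deriv (one_smul _ _)).congr_of_eventuallyEq (.of_forall fun t => ?_)
      simp [W, smul_smul]
    have l3 := hasDerivAt_const (0 : ℂ) p
    have z1 : ∀ a b c : σ → ℂ, q.T 0 a b c = 0 := fun a b c => by simp [T]
    have z2 : ∀ a b c : σ → ℂ, q.T a 0 b c = 0 := fun a b c => by simp [T]
    have z3 : ∀ a b c : σ → ℂ, q.T a b 0 c = 0 := fun a b c => by simp [T]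
    have l5 : ∀ t : ℂ, (((p, 0), 0) + t • ((0, α, β, γ) : ((σ → ℂ) × ℂ) × ℂ × ℂ × ℂ)).1 = (p, 0) :=
      fun t => by simp
    have hW' : W (((p, 0), 0) + (0 : ℂ) • (0, α, β, γ)) = v := by simp [W]
    have m1 := (hd_fst (hd_snd l1)).unique (by
      simpa only [Φ, l5] using q.hasDerivAt_T l3 l3 l3 l2)
    have m2 := (hd_fst (hd_snd (hd_snd l1))).unique (by
      simpa only [Φ, l5] using q.hasDerivAt_T l3 l3 l2 l2)
    have m3 := (hd_snd (hd_snd (hd_snd l1))).unique (by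
      simpa only [Φ, l5, zero_mul, add_zero] using (q.hasDerivAt_T l3 l2 l2 l2).const_mul 4)
    rw [hW'] at m1 m2 m3
    rw [q.T34 p p (α • e + β • u + γ • w) v] at m2
    rw [q.T23 p _ v v, q.T34 p v _ v] at m3
    simp only [z1, z2, z3, add4, smul4, R.u1, R.w1, R.w2, Prod.fst_zero, Prod.snd_zero] at m1 m2 m3
    obtain rfl : α = 0 := (mul_eq_zero.1 (by linear_combination -m1)).resolve_right he
    obtain rfl : β = 0 := (mul_eq_zero.1 (by linear_combination -m2 / 2)).resolve_right R.u2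
    obtain rfl : γ = 0 := (mul_eq_zero.1 (by linear_combination -m3 / 12)).resolve_right R.w3
    rfl
  obtain ⟨L, hL⟩ : ∃ L : (((σ → ℂ) × ℂ) × ℂ × ℂ × ℂ) ≃L[ℂ] ((σ → ℂ) × ℂ) × ℂ × ℂ × ℂ,
      HasStrictFDerivAt Φ (L : _ →L[ℂ] _) ((p, 0), 0) :=
    ⟨.ofBijective _ h2 (LinearMap.ker_eq_bot_iff_range_eq_top.1 h2), h1⟩
  have h3 : Φ ((p, 0), 0) = ((p, 0), 0) := by simp [Φ, hW, R.v1, R.v2, R.v3]
  have h4 : Tendsto (fun x : (σ → ℂ) × ℂ => (x, (0 : ℂ × ℂ × ℂ))) (𝓝 (p, 0))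
      (𝓝 (Φ ((p, 0), 0))) := h3.symm ▸ (by fun_prop : Continuous _).tendsto _
  have h5 := hL.localInverse_tendsto.comp h4
  have h6 : Tendsto (fun x => W (hL.localInverse Φ L _ (x, 0))) (𝓝 (p, 0)) (𝓝 v) :=
    hW ▸ ((by fun_prop : Continuous W).tendsto _).comp h5
  have h7 : q.nd e w u p v ≠ 0 := by
    simp only [nd, disc, pr, R.w1, R.u1, zero_smul, sub_zero, smul3, smul4, R.w2]
    simp [he, R.v4, R.u2, R.w4]
  have h8 := ((by fun_prop : Continuous fun x : (σ → ℂ) × (σ → ℂ) => q.nd e w u x.1 x.2).tendsto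
    (p, v)).comp ((continuous_fst.tendsto (p, (0 : ℂ))).prodMk_nhds h6)
  refine ⟨_, h6, ?_⟩
  filter_upwards [h4.eventually hL.eventually_right_inverse, h8.eventually_ne h7] with x h h' hx
  simp only [Φ, Prod.ext_iff] at h
  obtain ⟨⟨a, b⟩, c, d, f⟩ := h
  rw [a] at c d f
  rw [b] at f
  exact ⟨c, d, f, mul_ne_zero h' hx⟩

end

end Q4

theorem low {n : ℕ} (G : MvPolynomial (Fin n) ℂ) (h : ∀ a : Fin n → ℂ, (∀ i, a i ≠ 0) →
    ∃ b : ℂ → Fin n → ℂ, Tendsto b (𝓝[≠] 0) (𝓝 a) ∧ ∀ᶠ t in 𝓝[≠] (0 : ℂ), eval (t • b t) G = 0) :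
    G = 0 := by
  let φ : MvPolynomial (Fin n) ℂ →ₐ[ℂ] Polynomial (MvPolynomial (Fin n) ℂ) :=
    aeval fun i => Polynomial.X * Polynomial.C (X i)
  have h2 : ∀ (t : ℂ) (b : Fin n → ℂ) p, (φ p).eval₂ (eval b) t = eval (t • b) p := by
    intro t b p
    induction p using MvPolynomial.induction_on with
    | C c => simp [φ]
    | add p q hp hq => simp only [map_add, Polynomial.eval₂_add, hp, hq]
    | mul_X p i hp =>
      rw [map_mul, Polynomial.eval₂_mul, hp]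
      simp only [φ, aeval_X, Polynomial.eval₂_mul, Polynomial.eval₂_X, Polynomial.eval₂_C, eval_X,
        map_mul, Pi.smul_apply, smul_eq_mul]
  by_contra h0
  have h3 : φ G ≠ 0 := fun h3 => h0 (MvPolynomial.funext fun y => by
    simpa [h3] using (h2 1 y G).symm)
  obtain ⟨Ψ, h4, h5⟩ := Polynomial.exists_eq_pow_rootMultiplicity_mul_and_not_dvd _ h3 0
  rw [Polynomial.dvd_iff_isRoot] at h5
  obtain ⟨a, ha⟩ : ∃ a, eval a (Ψ.eval 0 * ∏ i, X i) ≠ 0 := by
    by_contra! H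
    exact mul_ne_zero h5 (Finset.prod_ne_zero_iff.2 fun i _ => X_ne_zero i)
      (MvPolynomial.funext fun y => by rw [H, map_zero])
  rw [map_mul, mul_ne_zero_iff, map_prod, Finset.prod_ne_zero_iff] at ha
  obtain ⟨b, hb, hb'⟩ := h a fun i => by simpa using ha.2 i (Finset.mem_univ _)
  have h6 : Continuous fun x : ℂ × (Fin n → ℂ) => Ψ.eval₂ (eval x.2) x.1 := by
    simp only [Polynomial.eval₂_eq_sum_range]
    refine continuous_finsetSum _ fun i _ => .mul ?_ (by fun_prop)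
    exact (MvPolynomial.continuous_eval _).comp continuous_snd
  have h7 := ((h6.tendsto (0, a)).comp ((tendsto_id.mono_left nhdsWithin_le_nhds).prodMk_nhds
    hb)).eventually_ne (b₂ := 0) (by
      rw [Polynomial.eval₂_at_zero, Polynomial.coeff_zero_eq_eval_zero]; exact ha.1)
  obtain ⟨t, h8, h9, h10⟩ := (h7.and (hb'.and self_mem_nhdsWithin)).exists
  rw [← h2, h4, Polynomial.eval₂_mul, Polynomial.eval₂_pow] at h9
  refine mul_ne_zero (pow_ne_zero _ ?_) h8 h9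
  simpa using h10

/-- The points of a chain. -/
def pt {A : Type} [CommRing A] (v : Fin 3 → Fin 5 → A) (μ : Fin 3 → A) : Fin 4 → Fin 5 → A :=
  ![Pi.single 1 1, Pi.single 1 1 + μ 0 • v 0, Pi.single 1 1 + μ 0 • v 0 + μ 1 • v 1,
    Pi.single 1 1 + μ 0 • v 0 + μ 1 • v 1 + μ 2 • v 2]

/-- A chain of three steps. -/
def Chain (q : Q4 (Fin 5)) (w u : Fin 3 → Fin 5 → ℂ) {A : Type} [CommRing A] [Algebra ℂ A]
    (v : Fin 3 → Fin 5 → A) (μ : Fin 3 → A) : Prop :=
  ∀ i, q.Step (Pi.single 0 1) (algebraMap ℂ A ∘ w i) (algebraMap ℂ A ∘ u i) (pt v μ i.castSucc)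
    (v i) (μ i)

theorem dom {q : Q4 (Fin 5)} {w u : Fin 3 → Fin 5 → ℂ} (F : Frame q (fun i => Pi.single i 1) w u)
    (H : MvPolynomial (Fin 4) ℂ) (h : ∀ v μ, Chain q w u v μ → ∀ s : ℂ,
      eval (fun i : Fin 4 => (s • pt v μ 3) i.succ) H = 0) : H = 0 := by
  choose V h1 h2 using fun i => q.ift (F.root i) F.e1
  have key : ∀ s : ℂ, aeval (Fin.cons (C s) fun i => C s * X i : Fin 4 → MvPolynomial (Fin 3) ℂ) H
      = 0 := fun s => low _ fun a ha => by
    have t0 : Tendsto (fun t : ℂ => t) (𝓝[≠] 0) (𝓝 0) := tendsto_id.mono_left nhdsWithin_le_nhds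
    have tμ : ∀ i, Tendsto (fun t : ℂ => t * a i) (𝓝[≠] 0) (𝓝 0) := fun i => by
      simpa using t0.mul_const (a i)
    have st : ∀ (i : Fin 3) (P : ℂ → Fin 5 → ℂ), Tendsto P (𝓝[≠] 0) (𝓝 (Pi.single 1 1)) →
        ∃ v : ℂ → Fin 5 → ℂ, Tendsto v (𝓝[≠] 0) (𝓝 (Pi.single i.succ.succ 1)) ∧
          Tendsto (fun t => P t + (t * a i) • v t) (𝓝[≠] 0) (𝓝 (Pi.single 1 1)) ∧
          ∀ᶠ t in 𝓝[≠] (0 : ℂ), q.Step (Pi.single 0 1) (w i) (u i) (P t) (v t) (t * a i) := by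
      intro i P hP
      have a0 := hP.prodMk_nhds (tμ i)
      refine ⟨_, (h1 i).comp a0, by simpa using hP.add ((tμ i).smul ((h1 i).comp a0)), ?_⟩
      filter_upwards [a0.eventually (h2 i), self_mem_nhdsWithin] with t c ht
      exact c (mul_ne_zero ht (ha i))
    obtain ⟨v0, a0, b0, c0⟩ := st 0 _ tendsto_const_nhds
    obtain ⟨v1, a1, b1, c1⟩ := st 1 _ b0
    obtain ⟨v2, a2, -, c2⟩ := st 2 _ b1
    obtain ⟨v, hv, hc⟩ : ∃ v : ℂ → Fin 3 → Fin 5 → ℂ,
        (∀ i, Tendsto (fun t => v t i) (𝓝[≠] 0) (𝓝 (Pi.single i.succ.succ 1))) ∧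
        ∀ᶠ t in 𝓝[≠] (0 : ℂ), Chain q w u (v t) fun i => t * a i := by
      refine ⟨fun t => ![v0 t, v1 t, v2 t], fun i => ?_, ?_⟩
      · fin_cases i
        exacts [a0, a1, a2]
      · filter_upwards [c0, c1, c2] with t c0 c1 c2 i
        fin_cases i
        exacts [c0, c1, c2]
    let B : ℂ → Fin 5 → ℂ := fun t => a 0 • v t 0 + a 1 • v t 1 + a 2 • v t 2
    have hB := (((hv 0).const_smul (a 0)).add ((hv 1).const_smul (a 1))).add
      ((hv 2).const_smul (a 2))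
    have hB1 : Tendsto (fun t => 1 + t * B t 1) (𝓝[≠] 0) (𝓝 1) := by
      simpa [B] using (t0.mul (tendsto_pi_nhds.1 hB 1)).const_add 1
    refine ⟨fun t i => B t i.succ.succ / (1 + t * B t 1), tendsto_pi_nhds.2 fun i => ?_, ?_⟩
    · refine ((tendsto_pi_nhds.1 hB i.succ.succ).div hB1 one_ne_zero).congr' (.of_forall fun _ => rfl)
        |>.trans (le_of_eq ?_)
      fin_cases i <;> simp
    · filter_upwards [hc, hB1.eventually_ne one_ne_zero] with t ht ht'
      rw [← h _ _ ht (s / (1 + t * B t 1)), ← aeval_eq_eval, comp_aeval_apply, aeval_eq_eval]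
      congr 2
      funext i
      have : pt (v t) (fun i => t * a i) 3 = Pi.single 1 1 + t • B t := by
        simp only [pt, B, Matrix.cons_val]; module
      rw [this]
      refine Fin.cases ?_ (fun i => ?_) i
      · simp; field_simp
      · have : i.succ.succ ≠ (1 : Fin 5) := (Fin.succ_injective _).ne (Fin.succ_ne_zero i)
        simp [this]; field_simp
  refine (mul_eq_zero.1 (MvPolynomial.funext fun y => ?_ : H * X 0 = 0)).resolve_right (X_ne_zero 0)
  by_cases hy : y 0 = 0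
  · simp [hy]
  have := congrArg (eval fun i : Fin 3 => y i.succ / y 0) (key (y 0))
  rw [map_zero, ← aeval_eq_eval, comp_aeval_apply, aeval_eq_eval] at this
  rw [map_mul, map_zero, mul_eq_zero]
  left
  rw [← this]
  congr 2
  funext i
  refine Fin.cases ?_ (fun i => ?_) i
  · simp
  · simp; field_simp

end Pool.Agent.MP_e0214e_ag.H61

end

-- part MP_e0214e_ag.H61.Chain
section

/-! A general point of the threefold is the end of a chain. -/

set_option autoImplicit false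

namespace Pool.Agent.MP_e0214e_ag.H61

open MvPolynomial

section
variable {A B : Type} [CommRing A] [Algebra ℂ A] [CommRing B] [Algebra ℂ B] (φ : A →ₐ[ℂ] B)

theorem Q4.map_nd {σ : Type} [Fintype σ] (q : Q4 σ) (e w u p v : σ → A) :
    φ (q.nd e w u p v) = q.nd (φ ∘ e) (φ ∘ w) (φ ∘ u) (φ ∘ p) (φ ∘ v) := by
  have : ∀ z, φ ∘ q.pr e p z = q.pr (φ ∘ e) (φ ∘ p) (φ ∘ z) := fun z => funext fun i => by
    simp only [Q4.pr, Function.comp, Pi.sub_apply, Pi.smul_apply, smul_eq_mul, map_sub, map_mul,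
      q.map φ]
  simp only [Q4.nd, Q4.disc, map_mul, map_add, map_sub, map_pow, map_ofNat, q.map φ, this]

theorem map_pt (v : Fin 3 → Fin 5 → A) (μ : Fin 3 → A) (k : Fin 4) :
    φ ∘ pt v μ k = pt (fun i => φ ∘ v i) (φ ∘ μ) k := by
  funext s
  fin_cases k <;> simp [pt, Pi.single_apply, apply_ite φ]

theorem map_const {σ : Type} (w : σ → ℂ) : φ ∘ algebraMap ℂ A ∘ w = algebraMap ℂ B ∘ w :=
  funext fun i => φ.commutes (w i)

theorem Chain.comap (hφ : Function.Injective φ) {q : Q4 (Fin 5)} {w u : Fin 3 → Fin 5 → ℂ}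
    {v : Fin 3 → Fin 5 → A} {μ : Fin 3 → A} (h : Chain q w u (fun i => φ ∘ v i) (φ ∘ μ)) :
    Chain q w u v μ := fun i => by
  obtain ⟨h1, h2, h3, h4⟩ := h i
  rw [← map_pt] at h1 h2 h3 h4
  refine ⟨hφ ?_, hφ ?_, hφ ?_, fun h0 => h4 ?_⟩
  · rw [q.map, h1, map_zero]
  · rw [q.map, h2, map_zero]
  · rw [map_add, map_mul, map_mul, q.map, q.map, map_zero, map_ofNat]; exact h3
  · have := congrArg φ h0
    rwa [map_mul, map_zero, q.map_nd, comp_single, map_const, map_const] at this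

variable (q : Q4 (Fin 5)) (w u : Fin 3 → Fin 5 → ℂ) (y : Option (Fin 3 × (Fin 5 ⊕ Bool)) → A)

/-- The directions. -/
def cv (i : Fin 3) (s : Fin 5) : A := y (some (i, .inl s))

/-- The multipliers. -/
def cm (i : Fin 3) : A := y (some (i, .inr true))

/-- The equations of a chain. -/
def crel (j : Fin 3 × Fin 4) : A :=
  let p := pt (cv y) (cm y) j.1.castSucc
  let v := cv y j.1
  ![q.T p p p v, q.T p p v v, 4 * q.T p v v v + cm y j.1 * q.T v v v v,
    q.nd (Pi.single 0 1) (algebraMap ℂ A ∘ w j.1) (algebraMap ℂ A ∘ u j.1) p v * cm y j.1 *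
      y (some (j.1, .inr false)) - 1] j.2

theorem map_crel (j : Fin 3 × Fin 4) : φ (crel q w u y j) = crel q w u (φ ∘ y) j := by
  obtain ⟨i, j⟩ := j
  fin_cases j <;> simp only [crel, Fin.zero_eta, Fin.mk_one, Fin.reduceFinMk, Matrix.cons_val,
    map_add, map_mul, map_sub, map_one, map_ofNat, q.map φ, q.map_nd, map_pt, comp_single,
    map_const] <;> rfl

/-- The end of a chain. -/
def cout : Fin 5 → A := y none • pt (cv y) (cm y) 3

theorem map_cout (i : Fin 5) : φ (cout y i) = cout (φ ∘ y) i := by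
  rw [cout, Pi.smul_apply, smul_eq_mul, map_mul]
  exact congrArg _ (congrFun (map_pt φ _ _ 3) i)

theorem chain_of_crel [Nontrivial A] (h : ∀ j, crel q w u y j = 0) : Chain q w u (cv y) (cm y) :=
  fun i => ⟨h (i, 0), h (i, 1), h (i, 2), left_ne_zero_of_mul_eq_one (sub_eq_zero.1 (h (i, 3)))⟩

end

theorem Chain.z {A : Type} [CommRing A] [Algebra ℂ A] {q : Q4 (Fin 5)} {w u : Fin 3 → Fin 5 → ℂ}
    (F : Frame q (fun i => Pi.single i 1) w u) {v : Fin 3 → Fin 5 → A} {μ : Fin 3 → A}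
    (h : Chain q w u v μ) : q.T (pt v μ 3) (pt v μ 3) (pt v μ 3) (pt v μ 3) = 0 := by
  refine (h 2).z ((h 1).z ((h 0).z ?_))
  have := congrArg (Algebra.ofId ℂ A) F.z
  rwa [q.map, map_zero, comp_single] at this

theorem chain_gen {q : Q4 (Fin 5)} {w u : Fin 3 → Fin 5 → ℂ} (hs : q.Sm ℂ)
    (F : Frame q (fun i => Pi.single i 1) w u) : ∃ H : MvPolynomial (Fin 4) ℂ, H ≠ 0 ∧
      ∀ (Ω : Type) [Field Ω] [IsAlgClosed Ω] [Algebra ℂ Ω] (ξ : Fin 5 → Ω), q.T ξ ξ ξ ξ = 0 →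
        aeval (Fin.tail ξ) H ≠ 0 → ∃ v μ, ∃ s : Ω, Chain q w u v μ ∧ s • pt v μ 3 = ξ := by
  have hf := hs.prime (by simp)
  have he : q.t 0 0 0 0 ≠ 0 := by simpa [Q4.T, Pi.single_apply] using F.e4
  obtain ⟨Δ, h1, h2⟩ := gen hf (crel q w u X) (cout X) fun h => by
    simp only [← aeval_eq_eval, map_crel, aeval_comp_X, comp_aeval_apply, map_cout]
    refine ⟨fun H => ?_, ?_⟩
    · by_contra h0
      obtain ⟨G, hG, hG'⟩ := elim q hf he h0
      refine hG (dom F G fun v μ hc s => ?_)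
      have h3 : q.T (s • pt v μ 3) (s • pt v μ 3) (s • pt v μ 3) (s • pt v μ 3) = 0 := by
        rw [q.smul1, q.smul2, q.smul3, q.smul4, hc.z F]; ring
      have h4 : ∀ y : Fin 5 → ℂ, q.T y y y y = 0 → aeval y h = 0 →
          eval (fun i : Fin 4 => y i.succ) G = 0 := fun y a b => hG' ℂ y a b
      refine h4 _ h3 ?_
      obtain ⟨y, rfl, rfl, rfl, hy⟩ : ∃ y : Option (Fin 3 × (Fin 5 ⊕ Bool)) → ℂ, cv y = v ∧
          cm y = μ ∧ y none = s ∧ ∀ i, y (some (i, .inr false)) =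
            (q.nd (Pi.single 0 1) (w i) (u i) (pt v μ i.castSucc) (v i) * μ i)⁻¹ :=
        ⟨fun a => a.elim s fun a => a.2.elim (v a.1) fun b => if b then μ a.1 else
          (q.nd (Pi.single 0 1) (w a.1) (u a.1) (pt v μ a.1.castSucc) (v a.1) * μ a.1)⁻¹,
          rfl, rfl, rfl, fun _ => rfl⟩
      rw [show y none • pt (cv y) (cm y) 3 = fun i => cout y i from rfl]
      refine H y ?_
      rintro ⟨i, j⟩
      fin_cases j
      exacts [(hc i).h1, (hc i).h2, (hc i).h3,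
        sub_eq_zero.2 ((congrArg _ (hy i)).trans (mul_inv_cancel₀ (hc i).h4))]
    · rintro ⟨c, rfl⟩ y hy
      have := (chain_of_crel q w u y hy).z F
      rw [map_mul, q.aeval_f]
      change q.T (_ • _) (_ • _) (_ • _) (_ • _) * _ = 0
      rw [q.smul1, q.smul2, q.smul3, q.smul4, this]
      ring
  obtain ⟨H, h3, h4⟩ := elim q hf he h1
  refine ⟨H, h3, fun Ω _ _ _ ξ h5 h6 => ?_⟩
  obtain ⟨y, h7, h8⟩ := h2 Ω ξ (by rw [q.aeval_f, h5]) fun h => h6 (h4 Ω ξ h5 h)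
  simp only [map_crel, aeval_comp_X, map_cout] at h7 h8
  exact ⟨_, _, _, chain_of_crel q w u y h7, funext h8⟩

end Pool.Agent.MP_e0214e_ag.H61

end

-- part MP_e0214e_ag.H61.Approx
section

/-! Approximation of chains by chains over a dense subfield of dimension one. -/

set_option autoImplicit false

namespace Pool.Agent.MP_e0214e_ag.H61

open Filter Topology

variable {E : Type} [NormedField E] [Algebra ℂ E]

theorem tern {ι : Type} (l : Ultrafilter ι) (S : IntermediateField ℂ E) {ε α γ D x y z : ι → E}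
    {α0 γ0 D0 : E} (hε : Tendsto ε l (𝓝 0)) (hα : Tendsto α l (𝓝 α0)) (hγ : Tendsto γ l (𝓝 γ0))
    (hD : Tendsto D l (𝓝 D0)) (h1 : α0 ≠ 0) (h2 : D0 ≠ 0)
    (h : ∀ᶠ n in l, (ε n ∈ S ∧ α n ∈ S ∧ x n ∈ S ∧ y n ∈ S ∧ z n ∈ S) ∧
      (x n ≠ 0 ∨ y n ≠ 0 ∨ z n ≠ 0) ∧
        ε n * x n ^ 2 + 2 * α n * x n * y n + γ n * y n ^ 2 + D n * z n ^ 2 = 0) :
    ∃ X Y Z : ι → E, (∀ᶠ n in l, (X n ∈ S ∧ Y n ∈ S ∧ Z n ∈ S) ∧
      ε n * X n ^ 2 + 2 * α n * X n * Y n + γ n * Y n ^ 2 + D n * Z n ^ 2 = 0) ∧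
      Tendsto X l (𝓝 1) ∧ Tendsto Y l (𝓝 0) ∧ Tendsto Z l (𝓝 0) := by
  have : CharZero E := charZero_of_injective_algebraMap (algebraMap ℂ E).injective
  suffices ∃ X Y Z : ι → E, (∀ᶠ n in l, (X n ∈ S ∧ Y n ∈ S ∧ Z n ∈ S) ∧
      ε n * X n ^ 2 + 2 * α n * X n * Y n + γ n * Y n ^ 2 + D n * Z n ^ 2 = 0) ∧
      Tendsto X l (𝓝 1) ∧ Tendsto Y l (𝓝 0) by
    obtain ⟨X, Y, Z, a, b, c⟩ := this
    refine ⟨X, Y, Z, a, b, c, ?_⟩
    have h3 : Tendsto (fun n => Z n ^ 2) l (𝓝 0) := by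
      refine Tendsto.congr' ?_ (by simpa [Pi.div_def] using ((((hε.mul (b.pow 2)).add (((hα.const_mul
        2).mul b).mul c)).add (hγ.mul (c.pow 2))).neg.div hD h2))
      filter_upwards [a, hD.eventually_ne h2] with n a d
      field_simp
      linear_combination -a.2
    have h4 := (Real.continuous_sqrt.tendsto _).comp h3.norm
    rw [tendsto_zero_iff_norm_tendsto_zero]
    simpa [Function.comp_def] using h4
  by_cases hc : ∃ δ > (0 : ℝ), ∀ᶠ n in l, δ * ‖x n‖ < ‖y n‖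
  · obtain ⟨δ, hδ, hc⟩ := hc
    have h3 : Tendsto (fun n => ε n * (x n / y n)) l (𝓝 0) := by
      refine hε.zero_mul_isBoundedUnder_le (isBoundedUnder_of_eventually_le (a := δ⁻¹) ?_)
      filter_upwards [hc] with n hn
      have : 0 < ‖y n‖ := lt_of_le_of_lt (by positivity) hn
      rw [Function.comp, norm_div, div_le_iff₀ this, le_inv_mul_iff₀ hδ]
      exact hn.le
    have h4 := (h3.add hα).const_mul 2
    have h5 : 2 * (0 + α0) ≠ 0 := by simpa using h1
    refine ⟨fun n => 1 - ε n * (x n / y n) / (2 * (ε n * (x n / y n) + α n)),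
      fun n => -ε n / (2 * (ε n * (x n / y n) + α n)),
      fun n => -ε n / (2 * (ε n * (x n / y n) + α n)) * (z n / y n), ?_,
      by simpa using (h3.div h4 h5).const_sub 1, by simpa [Pi.div_def] using hε.neg.div h4 h5⟩
    filter_upwards [h, hc, h4.eventually_ne h5] with n ⟨⟨a1, a2, a3, a4, a5⟩, _, b⟩ c d
    have hy : y n ≠ 0 := norm_pos_iff.1 (lt_of_le_of_lt (by positivity) c)
    have hs := S.mul_mem (ofNat_mem S 2) (S.add_mem (S.mul_mem a1 (S.div_mem a3 a4)) a2)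
    refine ⟨⟨S.sub_mem S.one_mem (S.div_mem (S.mul_mem a1 (S.div_mem a3 a4)) hs),
      S.div_mem (S.neg_mem a1) hs, S.mul_mem (S.div_mem (S.neg_mem a1) hs) (S.div_mem a5 a4)⟩, ?_⟩
    obtain ⟨a, ha⟩ : ∃ a, x n = a * y n := ⟨x n / y n, by field_simp⟩
    obtain ⟨c, hc⟩ : ∃ a, z n = a * y n := ⟨z n / y n, by field_simp⟩
    rw [ha, hc] at b
    rw [ha, mul_div_cancel_right₀ _ hy] at d
    rw [ha, hc, mul_div_cancel_right₀ _ hy, mul_div_cancel_right₀ _ hy]
    have b' : ε n * a ^ 2 + 2 * α n * a + γ n + D n * c ^ 2 = 0 :=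
      mul_right_cancel₀ (pow_ne_zero 2 hy) (by linear_combination b)
    obtain ⟨s, hs⟩ : ∃ s, ε n = s * (2 * (ε n * a + α n)) := ⟨_, (div_mul_cancel₀ _ d).symm⟩
    have e1 : ε n * a / (2 * (ε n * a + α n)) = s * a := by
      rw [div_eq_iff d]; linear_combination a * hs
    have e2 : -ε n / (2 * (ε n * a + α n)) = -s := by rw [div_eq_iff d]; linear_combination -hs
    rw [e1, e2]
    linear_combination hs + s ^ 2 * b'
  · have h3 : ∀ δ > (0 : ℝ), ∀ᶠ n in l, x n ≠ 0 ∧ ‖y n / x n‖ ≤ δ := fun δ hδ => by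
      filter_upwards [Ultrafilter.eventually_not.2 fun h => hc ⟨δ, hδ, h⟩, h,
        hD.eventually_ne h2] with n a ⟨_, b, c⟩ d
      have hx : x n ≠ 0 := fun hx => by
        have hy : y n = 0 := by simpa [hx] using a
        simp [hx, hy, d] at b c
        exact b c
      exact ⟨hx, by rw [norm_div, div_le_iff₀ (norm_pos_iff.2 hx)]; exact not_lt.1 a⟩
    refine ⟨fun _ => 1, fun n => y n / x n, fun n => z n / x n, ?_, tendsto_const_nhds, ?_⟩
    · filter_upwards [h, h3 1 one_pos] with n ⟨⟨_, _, a3, a4, a5⟩, _, b⟩ ⟨c, _⟩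
      refine ⟨⟨S.one_mem, S.div_mem a4 a3, S.div_mem a5 a3⟩, ?_⟩
      field_simp
      linear_combination b
    · refine NormedAddGroup.tendsto_nhds_zero.2 fun δ hδ => ?_
      filter_upwards [h3 (δ / 2) (by positivity)] with n a
      linarith [a.2]

/-- Vectors with coordinates in a subfield. -/
def In {σ : Type} (S : IntermediateField ℂ E) (a : σ → E) : Prop := ∀ i, a i ∈ S

/-- A dense subfield over which conics have points. -/
structure Ap (S : IntermediateField ℂ E) : Prop where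
  dense : Dense (S : Set E)
  tsen : ∀ ε ∈ S, ∀ α ∈ S, ∀ γ ∈ S, ∀ D ∈ S, ∃ x y z, (x ∈ S ∧ y ∈ S ∧ z ∈ S) ∧
    (x ≠ 0 ∨ y ≠ 0 ∨ z ≠ 0) ∧ ε * x ^ 2 + 2 * α * x * y + γ * y ^ 2 + D * z ^ 2 = 0
  disc : ∀ c : ℂ, ‖algebraMap ℂ E c‖ < 1 → c = 0
  nb : (𝓝[{z | z ∈ S ∧ z ≠ 0}] (0 : E)).NeBot

variable {σ : Type} {S : IntermediateField ℂ E}

theorem In.add {a b : σ → E} (ha : In S a) (hb : In S b) : In S (a + b) :=
  fun i => S.add_mem (ha i) (hb i)

theorem In.sub {a b : σ → E} (ha : In S a) (hb : In S b) : In S (a - b) :=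
  fun i => S.sub_mem (ha i) (hb i)

theorem In.smul {a : σ → E} (ha : In S a) {r : E} (hr : r ∈ S) : In S (r • a) :=
  fun i => S.mul_mem hr (ha i)

variable [Fintype σ] {q : Q4 σ}

theorem In.T {a b c d : σ → E} (ha : In S a) (hb : In S b) (hc : In S c) (hd : In S d) :
    q.T a b c d ∈ S :=
  sum_mem fun i _ => sum_mem fun j _ => sum_mem fun k _ => sum_mem fun l _ =>
    S.mul_mem (S.algebraMap_mem _)
      (S.mul_mem (S.mul_mem (S.mul_mem (ha i) (hb j)) (hc k)) (hd l))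

theorem In.pr {e p z : σ → E} (he : In S e) (hp : In S p) (hz : In S z) : In S (q.pr e p z) :=
  (hz.smul (hp.T hp hp he)).sub (he.smul (hp.T hp hp hz))

theorem Q4.pr_tan {A : Type} [CommRing A] [Algebra ℂ A] (q : Q4 σ) (e p z : σ → A) :
    q.T p p p (q.pr e p z) = 0 := by
  rw [Q4.pr, q.sub4, q.smul4, q.smul4]; ring

theorem Q4.tend {ι : Type} {l : Filter ι} (q : Q4 σ) {a b c d : ι → σ → E} {a' b' c' d' : σ → E}
    (ha : Tendsto a l (𝓝 a')) (hb : Tendsto b l (𝓝 b')) (hc : Tendsto c l (𝓝 c'))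
    (hd : Tendsto d l (𝓝 d')) :
    Tendsto (fun n => q.T (a n) (b n) (c n) (d n)) l (𝓝 (q.T a' b' c' d')) :=
  tendsto_finsetSum _ fun i _ => tendsto_finsetSum _ fun j _ => tendsto_finsetSum _ fun k _ =>
    tendsto_finsetSum _ fun l _ => ((((tendsto_pi_nhds.1 ha i).mul (tendsto_pi_nhds.1 hb j)).mul
      (tendsto_pi_nhds.1 hc k)).mul (tendsto_pi_nhds.1 hd l)).const_mul _

theorem Q4.disc_eq {A : Type} [CommRing A] [Algebra ℂ A] (q : Q4 σ) (p v a b : σ → A) :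
    q.T p p (q.T p p v a • b - q.T p p v b • a) (q.T p p v a • b - q.T p p v b • a) =
      q.disc p v a b := by
  simp only [q.sub3, q.sub4, q.smul3, q.smul4, Q4.disc, q.T34 p p b a]
  ring

theorem Q4.exz {K : Type} [Field K] [Algebra ℂ K] {p v a b : σ → K} (h : q.disc p v a b ≠ 0) :
    q.T p p v a ≠ 0 ∨ q.T p p v b ≠ 0 := by
  by_contra! H
  exact h (by simp [Q4.disc, H.1, H.2])

theorem stepA (hS : Ap S) {e w u p v : σ → E} (he : In S e) (hw : In S w) (hu : In S u)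
    (h1 : q.T p p p v = 0) (h2 : q.T p p v v = 0) (h3 : q.nd e w u p v ≠ 0) {P : Set (σ → E)}
    (hP : ∀ η ∈ P, In S η) (hp : p ∈ closure P) :
    (p, v) ∈ closure {x : (σ → E) × (σ → E) | x.1 ∈ P ∧ In S x.2 ∧ q.T x.1 x.1 x.1 x.2 = 0 ∧
      q.T x.1 x.1 x.2 x.2 = 0} := by
  have h4 : (p, v) ∈ closure (P ×ˢ Set.univ.pi fun _ => (S : Set E)) := by
    rw [closure_prod_eq]; exact ⟨hp, dense_pi _ (fun _ _ => hS.dense) v⟩
  have := mem_closure_iff_nhdsWithin_neBot.1 h4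
  obtain ⟨l, hl⟩ := Ultrafilter.exists_le (𝓝[P ×ˢ Set.univ.pi fun _ => (S : Set E)] (p, v))
  have t0 : Tendsto id l (𝓝 (p, v)) := hl.trans nhdsWithin_le_nhds
  have t1 : Tendsto (fun x : (σ → E) × (σ → E) => x.1) l (𝓝 p) :=
    (continuous_fst.tendsto _).comp t0
  have t2 : Tendsto (fun x : (σ → E) × (σ → E) => x.2) l (𝓝 v) :=
    (continuous_snd.tendsto _).comp t0
  have m0 : ∀ᶠ x : (σ → E) × (σ → E) in l, x.1 ∈ P ∧ In S x.2 :=
    mem_of_superset (hl self_mem_nhdsWithin) fun x hx => ⟨hx.1, fun i => hx.2 i trivial⟩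
  have tp : ∀ {z : (σ → E) × (σ → E) → σ → E} {z0}, Tendsto z l (𝓝 z0) →
      Tendsto (fun x => q.pr e x.1 (z x)) l (𝓝 (q.pr e p z0)) := fun hz =>
    ((q.tend t1 t1 t1 tendsto_const_nhds).smul hz).sub ((q.tend t1 t1 t1 hz).smul_const e)
  simp only [Q4.nd, mul_ne_zero_iff] at h3
  obtain ⟨⟨h3, h5⟩, -⟩ := h3
  obtain ⟨z, hz, hz'⟩ : ∃ z, In S z ∧ q.T p p v (q.pr e p z) ≠ 0 :=
    (Q4.exz h5).elim (fun h => ⟨_, hw, h⟩) fun h => ⟨_, hu, h⟩
  obtain ⟨b, tb, mb⟩ : ∃ b : (σ → E) × (σ → E) → σ → E, Tendsto b l (𝓝 v) ∧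
      ∀ᶠ x : (σ → E) × (σ → E) in l, In S (b x) ∧ q.T x.1 x.1 x.1 (b x) = 0 := by
    refine ⟨fun x => (q.T x.1 x.1 x.1 e)⁻¹ • q.pr e x.1 x.2, ?_, m0.mono fun x hx => ⟨?_, ?_⟩⟩
    · simpa [Q4.pr, h1, smul_smul, h3] using
        ((q.tend t1 t1 t1 tendsto_const_nhds).inv₀ h3).smul (tp t2)
    · have := hP _ hx.1
      exact (he.pr this hx.2).smul (S.inv_mem (this.T this this he))
    · rw [q.smul4, q.pr_tan, mul_zero]
  obtain ⟨y, y0, ty, hy, my⟩ : ∃ (y : (σ → E) × (σ → E) → σ → E) (y0 : σ → E),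
      Tendsto y l (𝓝 y0) ∧ q.T p p y0 y0 ≠ 0 ∧
      ∀ᶠ x : (σ → E) × (σ → E) in l, In S (y x) ∧ q.T x.1 x.1 x.1 (y x) = 0 ∧ q.T x.1 x.1 (b x) (y x) = 0 := by
    refine ⟨_, _, ((q.tend t1 t1 tb (tp (z0 := w) tendsto_const_nhds)).smul
      (tp (z0 := u) tendsto_const_nhds)).sub ((q.tend t1 t1 tb (tp (z0 := u)
        tendsto_const_nhds)).smul (tp (z0 := w) tendsto_const_nhds)), by rwa [q.disc_eq], ?_⟩
    filter_upwards [m0, mb] with x hx hb
    have := hP _ hx.1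
    refine ⟨((he.pr this hu).smul (this.T this hb.1 (he.pr this hw))).sub
      ((he.pr this hw).smul (this.T this hb.1 (he.pr this hu))), ?_, ?_⟩
    · rw [q.sub4, q.smul4, q.smul4, q.pr_tan, q.pr_tan]; ring
    · rw [q.sub4, q.smul4, q.smul4]; ring
  have tD := q.tend t1 t1 ty ty
  obtain ⟨c, c0, tc, hc, mc⟩ : ∃ (c : (σ → E) × (σ → E) → σ → E) (c0 : σ → E),
      Tendsto c l (𝓝 c0) ∧ q.T p p v c0 ≠ 0 ∧
      ∀ᶠ x : (σ → E) × (σ → E) in l, In S (c x) ∧ q.T x.1 x.1 x.1 (c x) = 0 ∧ q.T x.1 x.1 (y x) (c x) = 0 := by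
    have tz := tp (z0 := z) tendsto_const_nhds
    refine ⟨_, _, tz.sub (((q.tend t1 t1 ty tz).div tD hy).smul ty), ?_, ?_⟩
    · rwa [q.sub4, q.smul4, tendsto_nhds_unique (q.tend t1 t1 tb ty)
        (tendsto_const_nhds.congr' (my.mono fun x hx => hx.2.2.symm)), mul_zero, sub_zero]
    filter_upwards [m0, my, tD.eventually_ne hy] with x hx hb hD
    have := hP _ hx.1
    refine ⟨(he.pr this hz).sub (hb.1.smul (S.div_mem (this.T this hb.1 (he.pr this hz))
      (this.T this hb.1 hb.1))), ?_, ?_⟩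
    · rw [q.sub4, q.smul4, q.pr_tan, hb.2.1]; ring
    · rw [q.sub4, q.smul4, Pi.div_apply, div_mul_cancel₀ _ hD, sub_self]
  choose! X Y Z hX using hS.tsen
  obtain ⟨X, Y, Z, a, tX, tY, tZ⟩ := tern l S (h2 ▸ q.tend t1 t1 tb tb) (q.tend t1 t1 tb tc)
    (q.tend t1 t1 tc tc) tD hc hy (by
      filter_upwards [m0, mb, my, mc] with x hx hb hy hc
      have := hP _ hx.1
      obtain ⟨a, b⟩ := hX _ (this.T (q := q) this hb.1 hb.1) _ (this.T (q := q) this hb.1 hc.1) _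
        (this.T (q := q) this hc.1 hc.1) _ (this.T (q := q) this hy.1 hy.1)
      exact ⟨⟨this.T this hb.1 hb.1, this.T this hb.1 hc.1, a⟩, b⟩)
  refine mem_closure_of_tendsto (t1.prodMk_nhds (by
    simpa using ((tX.smul tb).add (tY.smul tc)).add (tZ.smul ty) :
      Tendsto (fun x => X x • b x + Y x • c x + Z x • y x) l (𝓝 v))) ?_
  filter_upwards [m0, mb, my, mc, a] with x hx hb hy hc ⟨⟨a1, a2, a3⟩, a⟩
  refine ⟨hx.1, ((hb.1.smul a1).add (hc.1.smul a2)).add (hy.1.smul a3), ?_, ?_⟩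
  · simp only [q.add4, q.smul4, hb.2, hy.2.1, hc.2.1]; ring
  · simp only [q.add3, q.add4, q.smul3, q.smul4, q.T34 x.1 x.1 (y x) (b x),
      q.T34 x.1 x.1 (c x) (b x), q.T34 x.1 x.1 (c x) (y x), hy.2.2, hc.2.2]
    linear_combination a

/-- A point with a parametrised conic of directions. -/
structure Par {A : Type} [CommRing A] [Algebra ℂ A] (q : Q4 σ) (e η c a b : σ → A) : Prop where
  z : q.T η η η η = 0
  c1 : q.T η η η c = 0
  c2 : q.T η η c c = 0
  c3 : q.T η c c c ≠ 0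
  a1 : q.T η η η a = 0
  a2 : q.T η η c a = 0
  a3 : q.T η η a a ≠ 0
  b1 : q.T η η η b = 0
  b2 : q.T η η c b ≠ 0
  e1 : q.T η η η e ≠ 0

section
variable {A : Type} [CommRing A] [Algebra ℂ A]

/-- The parametrisation of the conic. -/
def Q4.dir (q : Q4 σ) (η c a b : σ → A) (z : A) : σ → A :=
  q.T η η (a + z • b) (a + z • b) • c - (2 * z * q.T η η c b) • (a + z • b)

variable {η c a b : σ → A}

theorem dir1 (c1 : q.T η η η c = 0) (a1 : q.T η η η a = 0) (b1 : q.T η η η b = 0) (z : A) :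
    q.T η η η (q.dir η c a b z) = 0 := by
  simp only [Q4.dir, q.sub4, q.smul4, q.add4, c1, a1, b1]; ring

theorem dirc (c2 : q.T η η c c = 0) (a2 : q.T η η c a = 0) (z : A) :
    q.T η η c (q.dir η c a b z) = -2 * z ^ 2 * q.T η η c b ^ 2 := by
  simp only [Q4.dir, q.sub4, q.smul4, q.add4, c2, a2]; ring

theorem dir2 (c2 : q.T η η c c = 0) (a2 : q.T η η c a = 0) (z : A) :
    q.T η η (q.dir η c a b z) (q.dir η c a b z) = 0 := by
  have h : q.T η η c (a + z • b) = z * q.T η η c b := by rw [q.add4, q.smul4, a2, zero_add]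
  rw [Q4.dir]
  generalize a + z • b = y at h ⊢
  simp only [q.sub3, q.sub4, q.smul3, q.smul4, c2, q.T34 η η y c, h]
  ring

end

/-- The residual point. -/
noncomputable def Q4.res (q : Q4 σ) (p v : σ → E) : σ → E :=
  p - (4 * q.T p v v v / q.T v v v v) • v

theorem Q4.tend_res {ι : Type} {l : Filter ι} (q : Q4 σ) {a b : ι → σ → E} {p v : σ → E}
    (ha : Tendsto a l (𝓝 p)) (hb : Tendsto b l (𝓝 v)) (h : q.T v v v v ≠ 0) :
    Tendsto (fun n => q.res (a n) (b n)) l (𝓝 (q.res p v)) :=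
  ha.sub ((((q.tend ha hb hb hb).const_mul 4).div (q.tend hb hb hb hb) h).smul hb)

theorem stepP (hS : Ap S) {e w u p v : σ → E} {μ : E} (he : In S e) (hw : In S w) (hu : In S u)
    (h : q.Step e w u p v μ) {P : Set (σ → E)} (hP : ∀ η ∈ P, In S η ∧ q.T η η η η = 0)
    (hp : p ∈ closure P) {U : Set (σ → E)} (hU : U ∈ 𝓝 (p + μ • v)) :
    ∃ η ∈ P, ∃ c a b, In S c ∧ In S a ∧ In S b ∧ Par q e η c a b ∧ q.T c c c c ≠ 0 ∧
      q.res η c ∈ U := by
  have : CharZero E := charZero_of_injective_algebraMap (algebraMap ℂ E).injective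
  obtain ⟨h1, h2⟩ := mul_ne_zero_iff.1 h.h4
  have h3 := right_ne_zero_of_mul h1
  have h4 : q.T p v v v ≠ 0 := fun h0 => mul_ne_zero h2 h3 (by linear_combination h.h3 - 4 * h0)
  have h5 : q.res p v = p + μ • v := by
    rw [Q4.res, show 4 * q.T p v v v / q.T v v v v = -μ by
      rw [div_eq_iff h3]; linear_combination h.h3, neg_smul, sub_neg_eq_add]
  have t1 := continuous_fst.tendsto (p, v)
  have t2 := continuous_snd.tendsto (p, v)
  obtain ⟨⟨η, c⟩, ⟨a1, a2, a3, a4⟩, a5, a6, a7⟩ := ((mem_closure_iff_frequently.1 (stepA hS he hw hu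
    h.h1 h.h2 h1 (fun η h => (hP η h).1) hp)).and_eventually (((q.tend t1 t2 t2 t2).eventually_ne
      h4).and (((q.tend_res t1 t2 h3).eventually (h5 ▸ hU)).and (((by fun_prop :
        Continuous fun x : (σ → E) × (σ → E) => q.nd e w u x.1 x.2).tendsto
          (p, v)).eventually_ne h1)))).exists
  simp only [Q4.nd, mul_ne_zero_iff] at a7
  obtain ⟨⟨b1, b2⟩, b3⟩ := a7
  obtain ⟨b4, b5⟩ := hP η a1
  obtain ⟨z, hz, hz'⟩ : ∃ z, In S z ∧ q.T η η c (q.pr e η z) ≠ 0 :=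
    (Q4.exz b2).elim (fun h => ⟨_, hw, h⟩) fun h => ⟨_, hu, h⟩
  refine ⟨η, a1, c, _, _, a2, ((he.pr b4 hu).smul (b4.T b4 a2 (he.pr b4 hw))).sub
    ((he.pr b4 hw).smul (b4.T b4 a2 (he.pr b4 hu))), he.pr b4 hz, ⟨b5, a3, a4, a5, ?_, ?_,
      by rwa [q.disc_eq], q.pr_tan _ _ _, hz', b1⟩, b3, a6⟩
  · rw [q.sub4, q.smul4, q.smul4, q.pr_tan, q.pr_tan]; ring
  · rw [q.sub4, q.smul4, q.smul4]; ring

/-- Multiples of constant vectors. -/
def Const (a : σ → E) : Prop := ∃ (t : E) (c : σ → ℂ), a = t • algebraMap ℂ E ∘ c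

theorem const_nhds (hS : Ap S) {p : σ → E} (hp : p ≠ 0) :
    ∃ U ∈ 𝓝 p, ∀ a ∈ U, ∀ b ∈ U, Const a → Const b → ∃ t : E, b = t • a := by
  obtain ⟨i, hi⟩ := Function.ne_iff.1 hp
  have t1 : Tendsto (fun a : σ → E => a i) (𝓝 p) (𝓝 (p i)) := (continuous_apply i).tendsto p
  refine ⟨_, (t1.eventually_ne hi).and (((t1.inv₀ hi).smul tendsto_id).eventually
    (Metric.ball_mem_nhds _ one_half_pos)), ?_⟩
  rintro _ ⟨a1, a2⟩ _ ⟨b1, b2⟩ ⟨t, c, rfl⟩ ⟨s, d, rfl⟩
  have h1 := (dist_triangle_right _ _ _).trans_lt ((add_lt_add a2 b2).trans_eq (add_halves 1))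
  simp only [Pi.smul_apply, Function.comp, smul_eq_mul, Pi.zero_apply, mul_ne_zero_iff] at a1 b1
  refine ⟨s * algebraMap ℂ E (d i) / (t * algebraMap ℂ E (c i)), funext fun j => ?_⟩
  have h2 := hS.disc (c j / c i - d j / d i) (lt_of_eq_of_lt ?_ ((dist_le_pi_dist _ _ j).trans_lt h1))
  · have h3 := congrArg (algebraMap ℂ E) (sub_eq_zero.1 h2)
    rw [map_div₀, map_div₀, div_eq_div_iff a1.2 b1.2] at h3
    simp only [Pi.smul_apply, Function.comp, smul_eq_mul]
    field_simp [a1.1, a1.2]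
    linear_combination -s * h3
  · simp only [dist_eq_norm, id, Pi.smul_apply, Function.comp, smul_eq_mul, map_sub, map_div₀]
    congr 1
    field_simp [a1.1, b1.1]

theorem res_mem {η c : σ → E} (h1 : In S η) (h2 : In S c) (z : q.T η η η η = 0)
    (c1 : q.T η η η c = 0) (c2 : q.T η η c c = 0) (c4 : q.T c c c c ≠ 0) :
    In S (q.res η c) ∧ q.T (q.res η c) (q.res η c) (q.res η c) (q.res η c) = 0 := by
  refine ⟨h1.sub (h2.smul (S.div_mem (S.mul_mem (ofNat_mem S 4) (h1.T h2 h2 h2))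
    (h2.T h2 h2 h2))), ?_⟩
  rw [Q4.res, sub_eq_add_neg, ← neg_smul, q.expand, z, c1, c2]
  field_simp
  ring

theorem stepB (hS : Ap S) {e w u p v : σ → E} {μ : E} (he : In S e) (hw : In S w) (hu : In S u)
    (h : q.Step e w u p v μ) {P : Set (σ → E)} (hP : ∀ η ∈ P, In S η ∧ q.T η η η η = 0)
    (hp : p ∈ closure P) :
    p + μ • v ∈ closure {η | (In S η ∧ q.T η η η η = 0) ∧ ¬ Const η} := by
  have : CharZero E := charZero_of_injective_algebraMap (algebraMap ℂ E).injective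
  obtain ⟨U0, h1, h2⟩ := const_nhds hS (p := p + μ • v) fun h0 => by
    have h1 := h.h4
    simp only [Q4.nd, mul_ne_zero_iff] at h1
    have h2 : ∀ z, q.T p p v (q.pr e p z) = 0 := fun z => by
      have := congrArg (q.T p p (q.pr e p z)) h0
      rw [q.add4, q.smul4, q.zero4, q.T34, q.pr_tan, zero_add, q.T34] at this
      exact (mul_eq_zero.1 this).resolve_left h1.2
    exact (Q4.exz h1.1.1.2).elim (fun h => h (h2 _)) fun h => h (h2 _)
  refine mem_closure_iff_nhds.2 fun U hU => ?_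
  obtain ⟨η, a1, c, a, b, a2, a3, a4, R, a5, a6⟩ := stepP hS he hw hu h hP hp
    (interior_mem_nhds.2 (inter_mem hU h1))
  have a7 := (hP η a1).1
  have t0 : Tendsto (q.dir η c a b) (𝓝[{z | z ∈ S ∧ z ≠ 0}] 0) (𝓝 (q.T η η a a • c)) := by
    refine Tendsto.mono_left ?_ nhdsWithin_le_nhds
    simpa [Q4.dir] using (by unfold Q4.dir; fun_prop : Continuous (q.dir η c a b)).tendsto 0
  have b1 : q.T (q.T η η a a • c) (q.T η η a a • c) (q.T η η a a • c) (q.T η η a a • c) ≠ 0 := by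
    simp [q.smul1, q.smul2, q.smul3, q.smul4, R.a3, a5]
  have b2 : q.T η (q.T η η a a • c) (q.T η η a a • c) (q.T η η a a • c) ≠ 0 := by
    simp [q.smul2, q.smul3, q.smul4, R.a3, R.c3]
  have b3 : q.res η (q.T η η a a • c) = q.res η c := by
    simp only [Q4.res, q.smul1, q.smul2, q.smul3, q.smul4, smul_smul]
    congr 2
    field_simp [R.a3]
  have := hS.nb
  obtain ⟨z, c1, c2, c3, c4, c5⟩ := (((q.tend t0 t0 t0 t0).eventually_ne b1).and
    (((q.tend tendsto_const_nhds t0 t0 t0).eventually_ne b2).and (((q.tend_res tendsto_const_nhds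
      t0 b1).eventually (b3 ▸ isOpen_interior.mem_nhds a6)).and self_mem_nhdsWithin))).exists
  have d1 := a3.add (a4.smul c4)
  by_cases h3 : Const (q.res η c)
  · refine ⟨_, (interior_subset c3).1, res_mem a7 ((a2.smul (a7.T a7 d1 d1)).sub (d1.smul (S.mul_mem
      (S.mul_mem (ofNat_mem S 2) c4) (a7.T a7 a2 a4)))) R.z (dir1 R.c1 R.a1 R.b1 z)
        (dir2 R.c2 R.a2 z) c1, fun h4 => ?_⟩
    obtain ⟨t, ht⟩ := h2 _ (interior_subset a6).2 _ (interior_subset c3).2 h3 h4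
    have h5 := congrArg (q.T η η c) ht
    simp only [Q4.res, q.sub4, q.smul4, q.T34 η η c η, R.c1, R.c2, dirc R.c2 R.a2] at h5
    simp [c1, c2, c5, R.b2] at h5
  · exact ⟨_, (interior_subset a6).1, res_mem a7 a2 R.z R.c1 R.c2 a5, h3⟩

theorem chain_par (hS : Ap S) {q : Q4 (Fin 5)} {w u : Fin 3 → Fin 5 → ℂ}
    (F : Frame q (fun i => Pi.single i 1) w u) {v : Fin 3 → Fin 5 → E} {μ : Fin 3 → E}
    (h : Chain q w u v μ) {U : Set (Fin 5 → E)} (hU : U ∈ 𝓝 (pt v μ 3)) :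
    ∃ η c a b, In S η ∧ In S c ∧ In S a ∧ In S b ∧ Par q (Pi.single 0 1) η c a b ∧ ¬ Const η ∧
      q.T c c c c ≠ 0 ∧ q.res η c ∈ U := by
  have h1 : ∀ i : Fin 5, In S (Pi.single i 1) := fun i j => by
    rw [Pi.single_apply]
    split_ifs
    exacts [S.one_mem, S.zero_mem]
  have h2 : ∀ w : Fin 5 → ℂ, In S (algebraMap ℂ E ∘ w) := fun w i => S.algebraMap_mem _
  have h3 := stepB hS (h1 0) (h2 _) (h2 _) (h 0) (P := {Pi.single 1 1}) (by
    rintro _ rfl
    have := congrArg (Algebra.ofId ℂ E) F.z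
    rw [q.map, map_zero, comp_single] at this
    exact ⟨h1 1, this⟩) (subset_closure rfl)
  have h4 := stepB hS (h1 0) (h2 _) (h2 _) (h 1) (fun _ h => h.1) h3
  obtain ⟨η, a1, c, a, b, a2, a3, a4, R, a5⟩ :=
    stepP hS (h1 0) (h2 _) (h2 _) (h 2) (fun _ h => h.1) h4 hU
  exact ⟨η, c, a, b, a1.1.1, a2, a3, a4, R, a1.2, a5⟩

end Pool.Agent.MP_e0214e_ag.H61

end
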