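import Mathlib

-- part MP_e0214e_ag.Jac
section

set_option autoImplicit false

namespace Pool.Agent.MP_e0214e_ag

open MvPolynomial

/-- A proper ideal of a polynomial ring over `ℂ` closed under all derivatives is zero. -/
theorem eq_zero_of_pderiv_closed {σ : Type*} (I : Ideal (MvPolynomial σ ℂ)) (hI : I ≠ ⊤)
    (hd : ∀ i, ∀ H ∈ I, pderiv i H ∈ I) : ∀ H ∈ I, H = 0 := by
  classical
  have h0 : ∀ H ∈ I, (∀ s : σ →₀ ℕ, s ≠ 0 → coeff s H = 0) → H = 0 := by
    intro H hH hs
    have hC : H = C (coeff 0 H) := by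
      ext s
      by_cases h : s = 0
      · simp [h]
      · rw [hs s h, coeff_C, if_neg (Ne.symm h)]
    by_cases hc : coeff 0 H = 0
    · rw [hC, hc, map_zero]
    · exfalso
      apply hI
      rw [hC] at hH
      exact Ideal.eq_top_of_isUnit_mem I hH ((Ne.isUnit hc).map C)
  have key : ∀ n : ℕ, ∀ H ∈ I, (∀ s : σ →₀ ℕ, n < s.degree → coeff s H = 0) → H = 0 := by
    intro n
    induction n with
    | zero =>
      intro H hH hs
      refine h0 H hH fun s h => hs s ?_
      rcases Nat.eq_zero_or_pos s.degree with h1 | h1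
      · exact absurd ((Finsupp.degree_eq_zero_iff s).1 h1) h
      · exact h1
    | succ n ih =>
      intro H hH hs
      have hp : ∀ i, pderiv i H = 0 := by
        intro i
        refine ih _ (hd i H hH) fun s h => ?_
        rw [coeff_pderiv, hs _ (by rw [map_add, Finsupp.degree_single]; omega), zero_mul]
      refine h0 H hH fun s h => ?_
      obtain ⟨i, hi⟩ : ∃ i, s i ≠ 0 := by
        by_contra hcon
        push Not at hcon
        exact h (Finsupp.ext hcon)
      have e : s = (s - Finsupp.single i 1) + Finsupp.single i 1 := by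
        rw [tsub_add_cancel_of_le]
        rw [Finsupp.single_le_iff]
        omega
      have := coeff_pderiv (i := i) H (s - Finsupp.single i 1)
      rw [hp i, coeff_zero, ← e] at this
      rcases mul_eq_zero.1 this.symm with h2 | h2
      · exact h2
      · exact absurd h2 (Nat.cast_add_one_ne_zero _)
  intro H hH
  refine key H.totalDegree H hH fun s hs => ?_
  apply coeff_eq_zero_of_totalDegree_lt
  exact hs

theorem pderiv_aeval {σ τ : Type*} [Fintype σ] (y : σ → MvPolynomial τ ℂ) (k : τ)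
    (H : MvPolynomial σ ℂ) :
    pderiv k (aeval y H) = ∑ l, aeval y (pderiv l H) * pderiv k (y l) := by
  classical
  induction H using MvPolynomial.induction_on with
  | C a => simp
  | add p q hp hq => simp only [map_add, hp, hq, add_mul, Finset.sum_add_distrib]
  | mul_X p j h =>
    simp only [map_mul, aeval_X, Derivation.leibniz, smul_eq_mul, h, pderiv_X, map_add,
      Pi.single_apply, add_mul, Finset.sum_add_distrib, Finset.mul_sum]
    congr 1
    · rw [Finset.sum_eq_single j]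
      · simp
      · intro b _ hb
        simp [Ne.symm hb]
      · simp
    · refine Finset.sum_congr rfl fun l _ => by ring

/-- The weighted power sums `∑ w_k X_k^(l+1)`, `l < m`, in `m` variables. -/
noncomputable def wps {m : ℕ} (w : Fin m → ℂ) (l : Fin m) : MvPolynomial (Fin m) ℂ :=
  ∑ k, C (w k) * X k ^ ((l : ℕ) + 1)

theorem wps_injective {m : ℕ} (w : Fin m → ℂ) (hw : ∀ k, w k ≠ 0) :
    Function.Injective (aeval (wps w) : MvPolynomial (Fin m) ℂ →ₐ[ℂ] MvPolynomial (Fin m) ℂ) := by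
  classical
  rw [injective_iff_map_eq_zero]
  intro H hH
  refine eq_zero_of_pderiv_closed (RingHom.ker (aeval (wps w) :
    MvPolynomial (Fin m) ℂ →ₐ[ℂ] MvPolynomial (Fin m) ℂ)) (RingHom.ker_ne_top _) ?_ H hH
  intro i G hG
  rw [RingHom.mem_ker] at hG ⊢
  have hd : ∀ k l : Fin m, pderiv k (wps w l) =
      C (w k) * ((((l : ℕ) + 1 : ℕ) : MvPolynomial (Fin m) ℂ) * X k ^ (l : ℕ)) := by
    intro k l
    rw [wps, map_sum, Finset.sum_eq_single k]
    · rw [pderiv_C_mul, pderiv_pow]; simp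
    · intro b _ hb
      rw [pderiv_C_mul, pderiv_pow, pderiv_X_of_ne hb]; simp
    · simp
  have h1 : ∀ k : Fin m, ∑ l : Fin m, (aeval (wps w) (pderiv l G) * (((l : ℕ) + 1 : ℕ) :
      MvPolynomial (Fin m) ℂ)) * X k ^ (l : ℕ) = 0 := by
    intro k
    have h2 := pderiv_aeval (wps w) k G
    rw [hG, map_zero] at h2
    have h3 : C (w k) * ∑ l : Fin m, (aeval (wps w) (pderiv l G) * (((l : ℕ) + 1 : ℕ) :
      MvPolynomial (Fin m) ℂ)) * X k ^ (l : ℕ) = 0 := by
      rw [h2, Finset.mul_sum]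
      refine Finset.sum_congr rfl fun l _ => ?_
      rw [hd]; ring
    rcases mul_eq_zero.1 h3 with h4 | h4
    · exact absurd (C_eq_zero.1 h4) (hw k)
    · exact h4
  have h5 := Matrix.eq_zero_of_forall_index_sum_mul_pow_eq_zero
    (f := fun k : Fin m => (X k : MvPolynomial (Fin m) ℂ)) (X_injective) h1
  have h6 := congrFun h5 i
  simp only [Pi.zero_apply] at h6
  rcases mul_eq_zero.1 h6 with h7 | h7
  · exact h7
  · exact absurd h7 (Nat.cast_ne_zero.2 (Nat.succ_ne_zero _))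

end Pool.Agent.MP_e0214e_ag

end

-- part MP_e0214e_ag.Surface
section

set_option autoImplicit false

namespace Pool.Agent.MP_e0214e_ag

open MvPolynomial Finset

variable {σ : Type*}

/-- The conclusion: `v` lies in the closure of the image of a generically finite rational map
from the plane to the hypersurface `f = 0`. -/
def Concl (f : MvPolynomial σ ℂ) (v : σ → ℂ) : Prop :=
  ∃ (e : ℕ) (g : σ → MvPolynomial (Fin 3) ℂ), (∀ i, (g i).IsHomogeneous e) ∧
    (∃ a b c : σ, AlgebraicIndependent ℂ ![g a, g b, g c]) ∧ aeval g f = 0 ∧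
    ∀ h : MvPolynomial σ ℂ, aeval g h = 0 → eval v h = 0

theorem aeval_congr_vars {S : Type*} [CommRing S] [Algebra ℂ S] {G : MvPolynomial σ ℂ}
    {g g' : σ → S} (h : ∀ i ∈ G.vars, g i = g' i) : aeval g G = aeval g' G :=
  eval₂Hom_congr' rfl (fun i hi _ => h i hi) rfl

theorem aeval_mul_homog {S : Type*} [CommRing S] [Algebra ℂ S] {G : MvPolynomial σ ℂ} {d : ℕ}
    (hG : G.IsHomogeneous d) (s : S) (g : σ → S) :
    aeval (fun i => s * g i) G = s ^ d * aeval g G := by
  rw [aeval_def, aeval_def, eval₂_eq, eval₂_eq, mul_sum]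
  refine sum_congr rfl fun a ha => ?_
  rw [hG.degree_eq_sum_deg_support ha, ← prod_pow_eq_pow_sum]
  simp only [mul_pow, prod_mul_distrib]
  ring

theorem eval_aeval' {τ : Type*} (p : τ → ℂ) (g : σ → MvPolynomial τ ℂ) (h : MvPolynomial σ ℂ) :
    eval p (aeval g h) = eval (fun i => eval p (g i)) h := by
  induction h using MvPolynomial.induction_on with
  | C a => simp
  | add a b ha hb => simp only [map_add, ha, hb]
  | mul_X a i ha => simp only [map_mul, ha, aeval_X, eval_X]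

theorem closure_of_point {g : σ → MvPolynomial (Fin 3) ℂ} {v : σ → ℂ} (p : Fin 3 → ℂ)
    (hp : ∀ i, eval p (g i) = v i) (h : MvPolynomial σ ℂ) (hh : aeval g h = 0) : eval v h = 0 := by
  have := eval_aeval' p g h
  rw [hh, map_zero, funext hp] at this
  exact this.symm

theorem indep_of_dense (P : Fin 3 → MvPolynomial (Fin 3) ℂ) (q : MvPolynomial (Fin 3) ℂ)
    (hq : q ≠ 0) (hs : ∀ y, eval y q ≠ 0 → ∃ x, ∀ i, eval x (P i) = y i) :
    AlgebraicIndependent ℂ P := by
  rw [algebraicIndependent_iff]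
  intro p hp
  have : p * q = 0 := by
    apply MvPolynomial.funext
    intro y
    rw [map_mul, map_zero]
    by_cases h : eval y q = 0
    · rw [h, mul_zero]
    · obtain ⟨x, hx⟩ := hs y h
      rw [closure_of_point x hx p hp, zero_mul]
  exact (mul_eq_zero.1 this).resolve_right hq

theorem exists_T {d : ℕ} (hd : 2 ≤ d) (α A b : ℂ) (hA : A ≠ 0) (h : b ≠ 0 ∨ (b = 0 ∧ α ≠ 0)) :
    ∃ T : ℂ, T ≠ 0 ∧ α * T ^ d - A * T ^ (d - 1) - b = 0 := by
  obtain ⟨n, rfl⟩ : ∃ n, d = n + 2 := ⟨d - 2, by omega⟩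
  rcases h with h | ⟨rfl, h⟩
  · let p : Polynomial ℂ := Polynomial.C α * Polynomial.X ^ (n + 2) -
      Polynomial.C A * Polynomial.X ^ (n + 1) - Polynomial.C b
    have hp : p.degree ≠ 0 := by
      intro h0
      have := Polynomial.coeff_eq_zero_of_degree_lt (p := p) (n := n + 1)
        (by rw [h0]; exact_mod_cast Nat.succ_pos n)
      simp [p, Polynomial.coeff_X_pow, hA] at this
    obtain ⟨T, hT⟩ := IsAlgClosed.exists_root p hp
    have hT' : α * T ^ (n + 2) - A * T ^ (n + 1) - b = 0 := by simpa [p] using hT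
    refine ⟨T, ?_, hT'⟩
    rintro rfl
    simp [h] at hT'
  · refine ⟨A / α, div_ne_zero hA h, ?_⟩
    simp only [show n + 2 - 1 = n + 1 from rfl, pow_succ]
    field_simp
    ring

theorem indep_monoid {d : ℕ} (hd : 2 ≤ d) (α β : ℂ) (hβ : β ≠ 0) (H : MvPolynomial (Fin 3) ℂ)
    (hH : H.IsHomogeneous d) (hH0 : ∀ x y : Fin 3 → ℂ, x 1 = y 1 → x 2 = y 2 → eval x H = eval y H)
    (hα : H = 0 → α ≠ 0) :
    AlgebraicIndependent ℂ ![C α * X 0 ^ d - C β * H, X 0 ^ (d - 1) * X 1, X 0 ^ (d - 1) * X 2] := by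
  classical
  refine indep_of_dense _ (X 0 * if H = 0 then 1 else H) ?_ fun y hy => ?_
  · refine mul_ne_zero (X_ne_zero _) ?_
    split_ifs with h
    · exact one_ne_zero
    · exact h
  rw [map_mul, eval_X] at hy
  obtain ⟨T, hT, hT'⟩ := exists_T hd α (y 0) (β * eval y H) (left_ne_zero_of_mul hy) (by
    by_cases h : H = 0
    · exact Or.inr ⟨by simp [h], hα h⟩
    · rw [if_neg h] at hy
      exact Or.inl (mul_ne_zero hβ (right_ne_zero_of_mul hy)))
  obtain ⟨t, rfl⟩ := IsAlgClosed.exists_pow_nat_eq T (n := d) (by omega)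
  have ht : t ≠ 0 := by
    rintro rfl
    exact hT (zero_pow (by omega))
  have ht' : t ^ (d - 1) ≠ 0 := pow_ne_zero _ ht
  refine ⟨![t, (t ^ (d - 1))⁻¹ * y 1, (t ^ (d - 1))⁻¹ * y 2], fun i => ?_⟩
  fin_cases i
  · have e1 : eval ![t, (t ^ (d - 1))⁻¹ * y 1, (t ^ (d - 1))⁻¹ * y 2] H =
        ((t ^ (d - 1))⁻¹) ^ d * eval y H := by
      rw [hH0 _ (fun i => (t ^ (d - 1))⁻¹ * y i) rfl rfl]
      exact aeval_mul_homog hH _ y
    have e2 : ((t ^ (d - 1))⁻¹) ^ d = ((t ^ d) ^ (d - 1))⁻¹ := by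
      rw [inv_pow, ← pow_mul, ← pow_mul, mul_comm]
    have e3 : (t ^ d) ^ d = (t ^ d) ^ (d - 1) * t ^ d := by
      rw [← pow_succ]; congr 1; omega
    have e4 : (t ^ d) ^ (d - 1) ≠ 0 := pow_ne_zero _ hT
    simp only [Fin.zero_eta, Fin.isValue, Matrix.cons_val_zero, map_sub, map_mul, eval_C, map_pow,
      eval_X, e1, e2]
    rw [e3] at hT'
    field_simp
    linear_combination hT'
  · simp [ht']
  · simp [ht']

theorem sum_binomial {S : Type*} [CommRing S] [Algebra ℂ S] {d : ℕ} (hd : 1 ≤ d) (B : Finset σ)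
    (v ξ : σ → ℂ) (h1 : (d : ℂ) * ∑ k ∈ B, v k ^ (d - 1) * ξ k = 1)
    (h2 : ∀ l, 2 ≤ l → l ≤ d → ∑ k ∈ B, v k ^ (d - l) * ξ k ^ l = 0) (s τ : S) :
    ∑ k ∈ B, (algebraMap ℂ S (ξ k) * s + algebraMap ℂ S (v k) * τ) ^ d =
      algebraMap ℂ S (∑ k ∈ B, v k ^ d) * τ ^ d + s * τ ^ (d - 1) := by
  have : ∀ k, (algebraMap ℂ S (ξ k) * s + algebraMap ℂ S (v k) * τ) ^ d =
      ∑ l ∈ range (d + 1), algebraMap ℂ S (v k ^ (d - l) * ξ k ^ l) *
        (s ^ l * τ ^ (d - l) * (d.choose l : S)) := by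
    intro k
    rw [add_pow]
    refine sum_congr rfl fun l _ => ?_
    simp only [mul_pow, map_mul, map_pow]
    ring
  simp only [this]
  rw [sum_comm]
  simp only [← sum_mul, ← map_sum]
  obtain ⟨n, rfl⟩ : ∃ n, d = n + 1 := ⟨d - 1, by omega⟩
  rw [sum_range_succ', sum_range_succ', sum_eq_zero, zero_add, add_comm]
  · congr 1
    · simp
    · have h3 := congrArg (algebraMap ℂ S) h1
      simp only [zero_add, pow_one, Nat.choose_one_right, map_mul, map_natCast, map_one] at h3 ⊢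
      linear_combination (s * τ ^ (n + 1 - 1)) * h3
  · intro l hl
    have := mem_range.1 hl
    rw [h2 _ (by omega) (by omega), map_zero, zero_mul]

theorem concl_monoid {d : ℕ} (hd : 2 ≤ d) (B : Finset σ) (G : MvPolynomial σ ℂ)
    (hG : G.IsHomogeneous d) (hGB : ∀ i ∈ G.vars, i ∉ B) (v ξ : σ → ℂ)
    (h1 : (d : ℂ) * ∑ k ∈ B, v k ^ (d - 1) * ξ k = 1)
    (h2 : ∀ l, 2 ≤ l → l ≤ d → ∑ k ∈ B, v k ^ (d - l) * ξ k ^ l = 0)
    (hC : ∃ i j, i ∉ B ∧ j ∉ B ∧ i ≠ j) (hv : eval v (∑ k ∈ B, X k ^ d + G) = 0) :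
    Concl (∑ k ∈ B, X k ^ d + G) v := by
  classical
  obtain ⟨i, j, hi, hj, hij, hvi⟩ : ∃ i j, i ∉ B ∧ j ∉ B ∧ i ≠ j ∧
      (v i ≠ 0 ∨ ∀ c ∉ B, v c = 0) := by
    obtain ⟨i, j, hi, hj, hij⟩ := hC
    by_cases h : ∀ c ∉ B, v c = 0
    · exact ⟨i, j, hi, hj, hij, Or.inr h⟩
    · push Not at h
      obtain ⟨c, hc, hvc⟩ := h
      by_cases hci : c = i
      · exact ⟨c, j, hc, hj, hci ▸ hij, Or.inl hvc⟩
      · exact ⟨c, i, hc, hi, hci, Or.inl hvc⟩
  obtain ⟨k, hk, hvk⟩ : ∃ k ∈ B, v k ^ (d - 1) * ξ k ≠ 0 := by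
    apply exists_ne_zero_of_sum_ne_zero
    intro h
    rw [h, mul_zero] at h1
    exact zero_ne_one h1
  have hξk : ξ k ≠ 0 := right_ne_zero_of_mul hvk
  have hvk' : v k ≠ 0 := fun h => by
    rw [h, zero_pow (by omega), zero_mul] at hvk
    exact hvk rfl
  let ℓ : σ → MvPolynomial (Fin 3) ℂ := fun c =>
    if c = i then X 1 else if c = j then X 2 else C (v c / v i) * X 1
  have hℓ : ∀ c, (ℓ c).IsHomogeneous 1 := by
    intro c
    simp only [ℓ]
    split_ifs
    · exact isHomogeneous_X _ _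
    · exact isHomogeneous_X _ _
    · exact isHomogeneous_C_mul_X _ _
  set H := aeval ℓ G with hHdef
  have hH : H.IsHomogeneous d := by
    have := hG.aeval ℓ hℓ
    rwa [one_mul] at this
  set μ := ∑ k ∈ B, v k ^ d with hμ
  let p : Fin 3 → ℂ := ![1, v i, v j]
  have hpℓ : ∀ c ∉ B, eval p (ℓ c) = v c := by
    intro c hc
    simp only [ℓ]
    split_ifs with e1 e2
    · simp [p, e1]
    · simp [p, e2]
    · rcases hvi with h | h
      · simp [p, h]
      · simp [h c hc]
  have hpH : eval p H = -μ := by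
    rw [hHdef, eval_aeval']
    have e1 : eval (fun c => eval p (ℓ c)) G = eval v G :=
      aeval_congr_vars (S := ℂ) fun c hc => hpℓ c (hGB c hc)
    rw [e1]
    simp only [map_add, map_sum, map_pow, eval_X] at hv
    linear_combination hv
  let g : σ → MvPolynomial (Fin 3) ℂ := fun c =>
    if c ∈ B then C (ξ c) * (-(C μ * X 0 ^ d + H)) + C (v c) * X 0 ^ d else X 0 ^ (d - 1) * ℓ c
  refine ⟨d, g, fun c => ?_, ⟨k, i, j, ?_⟩, ?_, closure_of_point p fun c => ?_⟩
  · simp only [g]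
    split_ifs
    · exact (((isHomogeneous_C_mul_X_pow _ _ _).add hH).neg.C_mul _).add
        (isHomogeneous_C_mul_X_pow _ _ _)
    · have := (isHomogeneous_X_pow (R := ℂ) (0 : Fin 3) (d - 1)).mul (hℓ c)
      rwa [Nat.sub_add_cancel (by omega)] at this
  · have e1 : g k = C (v k - ξ k * μ) * X 0 ^ d - C (ξ k) * H := by
      simp only [g, if_pos hk, map_sub, map_mul]; ring
    have e2 : g i = X 0 ^ (d - 1) * X 1 := by simp [g, hi, ℓ]
    have e3 : g j = X 0 ^ (d - 1) * X 2 := by simp [g, hj, ℓ, hij.symm]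
    rw [e1, e2, e3]
    refine indep_monoid hd _ _ hξk H hH (fun x y e1 e2 => ?_) fun h => ?_
    · rw [hHdef, eval_aeval', eval_aeval']
      congr 2
      funext c
      simp only [ℓ]
      split_ifs <;> simp [e1, e2]
    · rw [h, map_zero] at hpH
      rw [neg_eq_zero.1 hpH.symm]
      simpa using hvk'
  · have e1 : aeval g G = (X 0 ^ (d - 1)) ^ d * H := by
      rw [hHdef, ← aeval_mul_homog hG]
      exact aeval_congr_vars fun c hc => by simp only [g, if_neg (hGB c hc)]
    have e2 : aeval g (∑ k ∈ B, X k ^ d : MvPolynomial σ ℂ) =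
        C μ * (X 0 ^ d) ^ d + (-(C μ * X 0 ^ d + H)) * (X 0 ^ d) ^ (d - 1) := by
      rw [map_sum]
      refine Eq.trans (sum_congr rfl fun c hc => ?_)
        (sum_binomial (by omega) B v ξ h1 h2 (-(C μ * X 0 ^ d + H)) (X 0 ^ d))
      rw [map_pow, aeval_X]
      simp only [g, if_pos hc, algebraMap_eq]
    have e3 : ((X 0 : MvPolynomial (Fin 3) ℂ) ^ d) ^ d = (X 0 ^ d) ^ (d - 1) * X 0 ^ d := by
      rw [← pow_succ]; congr 1; omega
    rw [map_add, e1, e2, e3, ← pow_mul _ (d - 1) d, mul_comm (d - 1) d, pow_mul]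
    ring
  · simp only [g]
    split_ifs with hc
    · simp [p, hpH]
    · simp [p, hpℓ c hc]

theorem concl_plane {d : ℕ} (hd : 1 ≤ d) [DecidableEq σ] {a b c e : σ} (hab : a ≠ b) (hac : a ≠ c)
    (hae : a ≠ e) (hbc : b ≠ c) (hbe : b ≠ e) (hce : c ≠ e) (G : MvPolynomial σ ℂ)
    (hG : G.IsHomogeneous d) (hGB : ∀ i ∈ G.vars, i ∉ ({a, b, c, e} : Finset σ)) (v : σ → ℂ)
    (hv0 : v ≠ 0) (hz : ∀ i ∈ ({a, b, c, e} : Finset σ), v i = 0)
    (hv : eval v (∑ k ∈ ({a, b, c, e} : Finset σ), X k ^ d + G) = 0) :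
    Concl (∑ k ∈ ({a, b, c, e} : Finset σ), X k ^ d + G) v := by
  obtain ⟨ζ, hζ⟩ := IsAlgClosed.exists_pow_nat_eq (-1 : ℂ) (n := d) (by omega)
  obtain ⟨k, hk⟩ : ∃ k, v k ≠ 0 := Function.ne_iff.1 hv0
  have hkB : k ∉ ({a, b, c, e} : Finset σ) := fun h => hk (hz k h)
  let g : σ → MvPolynomial (Fin 3) ℂ := fun i =>
    if i = a then X 1 else if i = b then C ζ * X 1 else if i = c then X 2 else
      if i = e then C ζ * X 2 else X 0 * C (v i)
  have hg : ∀ i ∉ ({a, b, c, e} : Finset σ), g i = X 0 * C (v i) := by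
    intro i hi
    simp only [mem_insert, mem_singleton, not_or] at hi
    simp [g, hi]
  have hga : g a = X 1 := by simp [g]
  have hgb : g b = C ζ * X 1 := by simp [g, hab.symm]
  have hgc : g c = X 2 := by simp [g, hac.symm, hbc.symm]
  have hge : g e = C ζ * X 2 := by simp [g, hae.symm, hbe.symm, hce.symm]
  have hsum : ∀ {M : Type} [AddCommMonoid M] (F : σ → M),
      ∑ k ∈ ({a, b, c, e} : Finset σ), F k = F a + (F b + (F c + F e)) := by
    intro M _ F
    rw [sum_insert (by simp [hab, hac, hae]), sum_insert (by simp [hbc, hbe]),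
      sum_insert (by simp [hce]), sum_singleton]
  refine ⟨1, g, fun i => ?_, ⟨k, a, c, ?_⟩, ?_, closure_of_point ![1, 0, 0] fun i => ?_⟩
  · simp only [g]
    split_ifs
    · exact isHomogeneous_X _ _
    · exact isHomogeneous_C_mul_X _ _
    · exact isHomogeneous_X _ _
    · exact isHomogeneous_C_mul_X _ _
    · rw [mul_comm]; exact isHomogeneous_C_mul_X _ _
  · rw [hg k hkB, hga, hgc]
    refine indep_of_dense _ 1 one_ne_zero fun y _ => ⟨![y 0 / v k, y 1, y 2], fun i => ?_⟩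
    fin_cases i <;> simp [hk]
  · have e0 : eval v G = 0 := by
      rw [map_add, map_sum, sum_eq_zero, zero_add] at hv
      · exact hv
      · intro i hi
        rw [map_pow, eval_X, hz i hi, zero_pow (by omega)]
    have e1 : aeval g G = 0 := by
      rw [aeval_congr_vars (g' := fun i => X 0 * C (v i)) fun i hi => hg i (hGB i hi),
        aeval_mul_homog hG]
      have : aeval (fun i => (C (v i) : MvPolynomial (Fin 3) ℂ)) G = C (eval v G) :=
        aeval_algebraMap_apply (MvPolynomial (Fin 3) ℂ) v G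
      rw [this, e0, map_zero, mul_zero]
    rw [map_add, e1, add_zero, map_sum, hsum]
    simp only [map_pow, aeval_X, hga, hgb, hgc, hge, mul_pow, ← C_pow, hζ, map_neg, map_one]
    ring
  · by_cases hi : i ∈ ({a, b, c, e} : Finset σ)
    · rw [hz i hi]
      simp only [mem_insert, mem_singleton] at hi
      rcases hi with rfl | rfl | rfl | rfl <;> simp [hga, hgb, hgc, hge]
    · simp [hg i hi]

end Pool.Agent.MP_e0214e_ag

end
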