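import Pool.Agent.MP_e0214e_ag.Mg.H61_Approx
import Pool.Agent.MP_e0214e_ag.Mg.Surface

-- part MP_e0214e_ag.H61.Loc
section

/-! Discretely valued fields with residue field the complex numbers. -/

set_option autoImplicit false

namespace Pool.Agent.MP_e0214e_ag.H61

open Filter Topology Polynomial

variable {E : Type} [NormedField E] [Algebra ℂ E]

/-- A uniformiser of a valued field with residue field the complex numbers. -/
structure Loc (π : E) : Prop where
  na : ∀ a b : E, ‖a + b‖ ≤ max ‖a‖ ‖b‖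
  c1 : ∀ c : ℂ, ‖algebraMap ℂ E c‖ ≤ 1
  π0 : π ≠ 0
  π1 : ‖π‖ < 1
  res : ∀ a : E, ‖a‖ ≤ 1 → ∃ c : ℂ, ‖a - algebraMap ℂ E c‖ ≤ ‖π‖

namespace Loc

variable {π : E} (L : Loc π)
include L

theorem disc (c : ℂ) (h : ‖algebraMap ℂ E c‖ < 1) : c = 0 := by
  by_contra h0
  have := mul_lt_one_of_nonneg_of_lt_one_left (norm_nonneg _) h (L.c1 c⁻¹)
  rw [← norm_mul, ← map_mul, mul_inv_cancel₀ h0, map_one, norm_one] at this
  exact lt_irrefl _ this

theorem inj : Function.Injective (aeval π : ℂ[X] →ₐ[ℂ] E) := by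
  rw [← transcendental_iff_injective]
  intro h
  obtain ⟨c, rfl⟩ := minpoly.mem_range_of_degree_eq_one ℂ π
    (IsAlgClosed.degree_eq_one_of_irreducible ℂ (minpoly.irreducible h.isIntegral))
  exact L.π0 (by rw [L.disc c L.π1, map_zero])

theorem near {σ : Type} [Fintype σ] {y : σ → E} {x : σ → ℂ} (h : ‖y - algebraMap ℂ E ∘ x‖ < 1)
    (p : MvPolynomial σ ℂ) (hp : MvPolynomial.aeval y p = 0) : MvPolynomial.eval x p = 0 := by
  have h1 : ∀ p, ‖MvPolynomial.aeval y p - algebraMap ℂ E (MvPolynomial.eval x p)‖ < 1 := by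
    intro p
    induction p using MvPolynomial.induction_on with
    | C c => simp
    | add p q hp hq =>
      rw [map_add, map_add, map_add, add_sub_add_comm]
      exact (L.na _ _).trans_lt (max_lt hp hq)
    | mul_X p i hp =>
      have h2 : ‖y i - algebraMap ℂ E (x i)‖ < 1 := (norm_le_pi_norm _ i).trans_lt h
      have h3 : ‖y i‖ ≤ 1 := by
        rw [← sub_add_cancel (y i) (algebraMap ℂ E (x i))]
        exact (L.na _ _).trans (max_le h2.le (L.c1 _))
      rw [map_mul, map_mul, map_mul, MvPolynomial.aeval_X, MvPolynomial.eval_X]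
      generalize MvPolynomial.aeval y p = a at hp ⊢
      rw [show a * y i - algebraMap ℂ E (MvPolynomial.eval x p) * algebraMap ℂ E (x i) =
        (a - algebraMap ℂ E (MvPolynomial.eval x p)) * y i + (y i - algebraMap ℂ E (x i)) *
          algebraMap ℂ E (MvPolynomial.eval x p) by ring]
      refine (L.na _ _).trans_lt (max_lt ?_ ?_) <;> rw [norm_mul]
      exacts [mul_lt_one_of_nonneg_of_lt_one_left (norm_nonneg _) hp h3,
        mul_lt_one_of_nonneg_of_lt_one_left (norm_nonneg _) h2 (L.c1 _)]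
  exact L.disc _ (by simpa [hp] using h1 p)

theorem ap : ∃ S : IntermediateField ℂ E, Ap S ∧ ∀ a : Fin 5 → E, In S a →
    ∃ d ≠ (0 : E), ∃ a' : Fin 5 → ℂ[X], aeval π ∘ a' = d • a := by
  let φ : RatFunc ℂ →ₐ[ℂ] E := RatFunc.liftAlgHom (aeval π)
    (nonZeroDivisors_le_comap_nonZeroDivisors_of_injective _ L.inj)
  have h1 : ∀ p, φ (algebraMap ℂ[X] _ p) = aeval π p := fun p => RatFunc.liftRingHom_algebraMap _ _ p
  have h2 : π ∈ φ.fieldRange := ⟨_, (h1 X).trans (aeval_X π)⟩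
  have h3 := tendsto_pow_atTop_nhds_zero_of_norm_lt_one L.π1
  refine ⟨φ.fieldRange, ⟨fun a => ?_, ?_, L.disc, ?_⟩, fun a ha => ?_⟩
  · have h4 : ∀ (n : ℕ) (a : E), ‖a‖ ≤ 1 → ∃ s ∈ φ.fieldRange, ‖a - s‖ ≤ ‖π ^ n‖ := by
      intro n
      induction n with
      | zero => exact fun a ha => ⟨0, zero_mem _, by simpa using ha⟩
      | succ n ih =>
        intro a ha
        obtain ⟨c, hc⟩ := L.res a ha
        obtain ⟨s, h5, h6⟩ := ih ((a - algebraMap ℂ E c) / π) (by
          rwa [norm_div, div_le_one (norm_pos_iff.2 L.π0)])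
        refine ⟨algebraMap ℂ E c + π * s, add_mem (algebraMap_mem _ _) (mul_mem h2 h5), ?_⟩
        rw [show a - (algebraMap ℂ E c + π * s) = ((a - algebraMap ℂ E c) / π - s) * π by
          field_simp [L.π0]; ring, pow_succ, norm_mul, norm_mul]
        gcongr
    obtain ⟨N, hN⟩ := ((h3.mul_const a).norm.eventually (ge_mem_nhds (by simp : _ < (1 : ℝ)))).exists
    choose s h5 h6 using fun n => h4 n _ hN
    have h7 : Tendsto (fun n => π ^ N * a - s n) atTop (𝓝 0) :=
      squeeze_zero_norm h6 (by simpa using h3.norm)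
    refine mem_closure_of_tendsto (f := fun n => s n / π ^ N) (b := atTop) ?_
      (.of_forall fun n => div_mem (h5 n) (pow_mem h2 N))
    simpa [pow_ne_zero N L.π0] using (h7.const_sub (π ^ N * a)).div_const (π ^ N)
  · rintro _ ⟨ε, rfl⟩ _ ⟨α, rfl⟩ _ ⟨γ, rfl⟩ _ ⟨D, rfl⟩
    obtain ⟨c, h4, h5⟩ := tsen ![![ε, α, 0], ![α, γ, 0], ![0, 0, D]]
    refine ⟨φ (c 0), φ (c 1), φ (c 2), ⟨⟨_, rfl⟩, ⟨_, rfl⟩, ⟨_, rfl⟩⟩, ?_, ?_⟩
    · by_contra! H
      simp only [map_eq_zero] at H
      exact h4 (funext fun i => by fin_cases i; exacts [H.1, H.2.1, H.2.2])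
    · have := congrArg φ h5
      simp [Fin.sum_univ_three] at this
      change φ ε * _ + 2 * φ α * _ * _ + φ γ * _ + φ D * _ = 0
      linear_combination this
  · exact mem_closure_iff_nhdsWithin_neBot.1 (mem_closure_of_tendsto h3
      (.of_forall fun n => ⟨pow_mem h2 n, pow_ne_zero n L.π0⟩))
  · choose k hk using ha
    obtain ⟨d, hd⟩ := IsLocalization.exist_integer_multiples_of_finite (nonZeroDivisors ℂ[X]) k
    choose P hP using hd
    refine ⟨aeval π d.1, (map_ne_zero_iff _ L.inj).2 (nonZeroDivisors.coe_ne_zero d), P,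
      funext fun i => ?_⟩
    rw [Function.comp, ← h1, hP, Algebra.smul_def, map_mul, h1]
    exact congrArg _ (hk i)

end Loc

section
variable {σ A B : Type} [Fintype σ] [CommRing A] [Algebra ℂ A] [CommRing B] [Algebra ℂ B]

/-- The residual point without denominators. -/
def Q4.gres (q : Q4 σ) (p v : σ → A) : σ → A := q.T v v v v • p - (4 * q.T p v v v) • v

theorem Par.comap {q : Q4 σ} {φ : A →ₐ[ℂ] B} (hφ : Function.Injective φ) {e η c a b : σ → A}
    (h : Par q (φ ∘ e) (φ ∘ η) (φ ∘ c) (φ ∘ a) (φ ∘ b)) : Par q e η c a b := by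
  obtain ⟨a1, a2, a3, a4, a5, a6, a7, a8, a9, a10⟩ := h
  rw [← q.map φ] at a1 a2 a3 a4 a5 a6 a7 a8 a9 a10
  simp only [ne_eq, map_eq_zero_iff φ hφ] at a1 a2 a3 a4 a5 a6 a7 a8 a9 a10
  exact ⟨a1, a2, a3, a4, a5, a6, a7, a8, a9, a10⟩

theorem Par.map {q : Q4 σ} {φ : A →ₐ[ℂ] B} (hφ : Function.Injective φ) {e η c a b : σ → A}
    (h : Par q e η c a b) : Par q (φ ∘ e) (φ ∘ η) (φ ∘ c) (φ ∘ a) (φ ∘ b) := by
  obtain ⟨a1, a2, a3, a4, a5, a6, a7, a8, a9, a10⟩ := h
  constructor <;> simpa only [← q.map φ, ne_eq, map_eq_zero_iff φ hφ]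

theorem Par.smul [IsDomain A] {q : Q4 σ} {e η c a b : σ → A} (h : Par q e η c a b) {r s t u : A}
    (hr : r ≠ 0) (hs : s ≠ 0) (ht : t ≠ 0) (hu : u ≠ 0) :
    Par q e (r • η) (s • c) (t • a) (u • b) := by
  obtain ⟨a1, a2, a3, a4, a5, a6, a7, a8, a9, a10⟩ := h
  constructor <;> simp [q.smul1, q.smul2, q.smul3, q.smul4, *]

end

theorem approx {π : E} (L : Loc π) {q : Q4 (Fin 5)} {w u : Fin 3 → Fin 5 → ℂ}
    (F : Frame q (fun i => Pi.single i 1) w u) {v : Fin 3 → Fin 5 → E} {μ : Fin 3 → E}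
    (h : Chain q w u v μ) {s : E} {x : Fin 5 → ℂ} (hx : ‖s • pt v μ 3 - algebraMap ℂ E ∘ x‖ < 1) :
    ∃ η c a b : Fin 5 → ℂ[X], Par q (Pi.single 0 1) η c a b ∧
      (∀ (t : ℂ[X]) (y : Fin 5 → ℂ), η ≠ t • C ∘ y) ∧ ∀ h : MvPolynomial (Fin 5) ℂ,
        (∀ (A : Type) [CommRing A] [Algebra ℂ A] (ψ : ℂ[X] →ₐ[ℂ] A) (t : A), MvPolynomial.aeval
          (t • q.gres (ψ ∘ η) (q.dir (ψ ∘ η) (ψ ∘ c) (ψ ∘ a) (ψ ∘ b) 0)) h = 0) →
            MvPolynomial.eval x h = 0 := by
  obtain ⟨S, hS, hS'⟩ := L.ap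
  obtain ⟨η, c, a, b, m1, m2, m3, m4, R, h1, h2, h3⟩ := chain_par hS F h (((by fun_prop :
    Continuous fun y : Fin 5 → E => ‖s • y - algebraMap ℂ E ∘ x‖).tendsto _).eventually
      (gt_mem_nhds hx))
  obtain ⟨d1, n1, η', e1⟩ := hS' η m1
  obtain ⟨d2, n2, c', e2⟩ := hS' c m2
  obtain ⟨d3, n3, a', e3⟩ := hS' a m3
  obtain ⟨d4, n4, b', e4⟩ := hS' b m4
  refine ⟨η', c', a', b', .comap L.inj ?_, fun t y h4 => h1 ⟨aeval π t / d1, y, funext fun i => ?_⟩,
    fun h hh => ?_⟩
  · rw [comp_single, e1, e2, e3, e4]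
    exact R.smul n1 n2 n3 n4
  · have := congrFun e1 i
    simp only [h4, Function.comp, Pi.smul_apply, smul_eq_mul, map_mul, aeval_C] at this ⊢
    field_simp
    linear_combination -this
  · refine L.near h3 h ?_
    rw [← hh E (aeval π) (s / (d1 * (d1 ^ 2 * d3 ^ 2 * q.T η η a a * d2) ^ 4 * q.T c c c c)),
      e1, e2, e3, e4]
    congr 2
    have := R.a3
    simp only [Q4.gres, Q4.dir, Q4.res, zero_smul, add_zero, mul_zero, zero_mul, sub_zero,
      q.smul1, q.smul2, q.smul3, q.smul4, smul_smul, smul_sub]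
    congr 2 <;> field_simp

end Pool.Agent.MP_e0214e_ag.H61

end

-- part MP_e0214e_ag.H61.Surf
section

/-! The surface swept out by residual points along a rational curve. -/

set_option autoImplicit false

namespace Pool.Agent.MP_e0214e_ag.H61

open MvPolynomial

/-- An affine form of the conclusion. -/
def Aff {σ : Type} [Fintype σ] (q : Q4 σ) (x : σ → ℂ) : Prop :=
  ∃ g : σ → MvPolynomial (Fin 2) ℂ, (∀ a b c : MvPolynomial (Fin 2) ℂ,
    a • g + b • pderiv 0 ∘ g + c • pderiv 1 ∘ g = 0 → a = 0 ∧ b = 0 ∧ c = 0) ∧ q.T g g g g = 0 ∧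
    ∀ h : MvPolynomial σ ℂ, aeval ((X 0 : MvPolynomial (Fin 3) ℂ) • rename Fin.succ ∘ g) h = 0 →
      eval x h = 0

theorem minor {R σ : Type} [CommRing R] [Nontrivial R] {u v w : σ → R}
    (h : ∀ a b c : R, a • u + b • v + c • w = 0 → a = 0 ∧ b = 0 ∧ c = 0) :
    ∃ i j k, (v i * w j - v j * w i) * u k - (u i * w j - u j * w i) * v k
      + (u i * v j - u j * v i) * w k ≠ 0 := by
  by_contra! H
  have h2 : ∀ i j, u i * v j - u j * v i = 0 := fun i j =>
    (h (v i * w j - v j * w i) (-(u i * w j - u j * w i)) _ (funext fun k => by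
      simp only [Pi.add_apply, Pi.smul_apply, smul_eq_mul, Pi.zero_apply]
      linear_combination H i j k)).2.2
  have h1 : ∀ i, u i = 0 := fun i => (h (-v i) _ 0 (funext fun j => by
    simp only [Pi.add_apply, Pi.smul_apply, smul_eq_mul, Pi.zero_apply]
    linear_combination h2 i j)).2.1
  exact one_ne_zero (h 1 0 0 (funext fun i => by simp [h1])).1

theorem Aff.concl {σ : Type} [Fintype σ] {q : Q4 σ} {x : σ → ℂ} (h : Aff q x) : Concl q.f x := by
  obtain ⟨g, h1, h2, h3⟩ := h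
  obtain ⟨n, hn⟩ : ∃ n, ∀ i, (g i).totalDegree ≤ n :=
    ⟨Finset.univ.sup fun i => (g i).totalDegree, fun i =>
      Finset.le_sup (f := fun i => (g i).totalDegree) (Finset.mem_univ i)⟩
  let r : MvPolynomial (Fin 2) ℂ →ₐ[ℂ] MvPolynomial (Fin 3) ℂ := rename Fin.succ
  let G : σ → MvPolynomial (Fin 3) ℂ := fun i =>
    ∑ k ∈ Finset.range (n + 2), X 0 ^ (n + 1 - k) * r (homogeneousComponent k (g i))
  let φ : MvPolynomial (Fin 3) ℂ →ₐ[ℂ] MvPolynomial (Fin 3) ℂ :=
    aeval (Fin.cons (X 0) fun j => X 0 * X j.succ)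
  have h4 : φ ∘ G = (X 0 ^ (n + 1) : MvPolynomial (Fin 3) ℂ) • r ∘ g := funext fun i => by
    have : g i = ∑ k ∈ Finset.range (n + 2), homogeneousComponent k (g i) := by
      conv_lhs => rw [← sum_homogeneousComponent (g i)]
      refine Finset.sum_subset (Finset.range_subset_range.2 (by have := hn i; omega))
        fun k _ hk => homogeneousComponent_eq_zero _ _ (by simpa using hk)
    simp only [Function.comp, G, map_sum, Pi.smul_apply, smul_eq_mul]
    conv_rhs => rw [this, map_sum, Finset.mul_sum]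
    refine Finset.sum_congr rfl fun k hk => ?_
    rw [map_mul, map_pow, aeval_X, aeval_rename]
    change _ * aeval (fun j : Fin 2 => X 0 * X j.succ) _ = _
    rw [aeval_mul_homog (homogeneousComponent_isHomogeneous k _), ← mul_assoc, Fin.cons_zero,
      ← pow_add, Nat.sub_add_cancel (by simpa [Nat.lt_succ_iff] using hk)]
    exact congrArg _ (AlgHom.congr_fun (rename_eq_aeval Fin.succ) _).symm
  have h5 : ∀ p, φ p = 0 → p = 0 := fun p hp => by
    refine (mul_eq_zero.1 (MvPolynomial.funext fun y => ?_ : p * X 0 = 0)).resolve_right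
      (X_ne_zero 0)
    by_cases hy : y 0 = 0
    · simp [hy]
    have := congrArg (eval (Fin.cons (y 0) fun j => y j.succ / y 0)) hp
    rw [eval_aeval', map_zero] at this
    rw [map_mul, map_zero, ← zero_mul (eval y (X 0)), ← this]
    congr 3
    funext i
    refine Fin.cases ?_ (fun i => ?_) i
    · simp
    · simp; field_simp
  obtain ⟨a, b, c, h6⟩ := minor h1
  refine ⟨n + 1, G, fun i => IsHomogeneous.sum _ _ _ fun k hk => ?_, ⟨a, b, c, .of_comp φ ?_⟩,
    h5 _ ?_, fun h hh => h3 h (MvPolynomial.funext fun y => ?_)⟩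
  · have := (isHomogeneous_X_pow (R := ℂ) (0 : Fin 3) (n + 1 - k)).mul
      ((homogeneousComponent_isHomogeneous k (g i)).rename_isHomogeneous (f := Fin.succ))
    rwa [Nat.sub_add_cancel (by simpa [Nat.lt_succ_iff] using hk)] at this
  · obtain ⟨P, hP, h7⟩ : ∃ P : Fin 3 → MvPolynomial (Fin 3) ℂ, φ ∘ ![G a, G b, G c] = P ∧
        ∀ l, P l = X 0 ^ (n + 1) * r (g (![a, b, c] l)) :=
      ⟨_, rfl, fun l => by fin_cases l; exacts [congrFun h4 a, congrFun h4 b, congrFun h4 c]⟩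
    rw [hP, algebraicIndependent_iff]
    refine eq_zero_of_pderiv_closed (RingHom.ker (aeval P : MvPolynomial (Fin 3) ℂ →ₐ[ℂ] _))
      (RingHom.ker_ne_top _) fun i H hH => ?_
    have d0 : ∀ p, pderiv 0 (X 0 ^ (n + 1) * r p) =
        ((n : MvPolynomial (Fin 3) ℂ) + 1) * X 0 ^ n * r p := fun p => by
      rw [Derivation.leibniz, pderiv_eq_zero_of_notMem_vars (f := r p) fun h => by
        obtain ⟨j, -, hj⟩ := mem_vars_rename _ _ h
        exact Fin.succ_ne_zero _ hj]
      simp [mul_comm]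
    have d1 : ∀ (j : Fin 2) p, pderiv j.succ (X 0 ^ (n + 1) * r p) =
        X 0 ^ (n + 1) * r (pderiv j p) := fun j p => by
      rw [Derivation.leibniz, pderiv_rename (Fin.succ_injective _), pderiv_pow,
        pderiv_X_of_ne (Fin.succ_ne_zero j).symm]
      simp [r]
    have h8 := Matrix.eq_zero_of_mulVec_eq_zero (M := .of fun k l => pderiv k (P l))
      (v := fun l => aeval P (pderiv l H)) (fun h0 => ?_) (funext fun k => ?_)
    · exact congrFun h8 i
    · have e1 := d1 0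
      have e2 := d1 1
      simp only [Matrix.det_fin_three, Matrix.of_apply, h7, Matrix.cons_val, d0,
        Fin.succ_zero_eq_one, Fin.succ_one_eq_two] at h0 e1 e2
      simp only [e1, e2] at h0
      refine mul_ne_zero (mul_ne_zero (mul_ne_zero (Nat.cast_add_one_ne_zero n) (pow_ne_zero n
        (X_ne_zero 0))) (pow_ne_zero 2 (pow_ne_zero (n + 1) (X_ne_zero 0))))
          ((map_ne_zero_iff r (rename_injective _ (Fin.succ_injective _))).2 h6) ?_
      simp only [map_add, map_sub, map_mul, Function.comp]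
      linear_combination h0
    · have := pderiv_aeval P k H
      rw [show aeval P H = 0 from hH, map_zero] at this
      simp only [Matrix.mulVec, dotProduct, Matrix.of_apply, Pi.zero_apply, this, mul_comm]
  · rw [q.aeval_f, q.map, h4, q.smul1, q.smul2, q.smul3, q.smul4, ← q.map, h2]
    simp
  · obtain ⟨s, hs⟩ := IsAlgClosed.exists_pow_nat_eq (y 0) n.succ_pos
    have := congrArg (eval (Fin.cons s (Fin.tail y)) ∘ φ) hh
    simp only [Function.comp, comp_aeval_apply, map_zero] at this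
    rw [eval_aeval'] at this ⊢
    rw [map_zero, ← this]
    congr 2
    funext i
    rw [show φ (G i) = _ from congrFun h4 i]
    simp only [Pi.smul_apply, smul_eq_mul, map_mul, map_pow, eval_X, Function.comp, r,
      eval_rename, Fin.cons_zero, hs]
    rfl

section
variable {σ τ A B : Type} [Fintype τ] [CommRing A] [Algebra ℂ A] [CommRing B] [Algebra ℂ B]
  (m : τ → σ → ℂ)

theorem map_lin (φ : A →ₐ[ℂ] B) (a : τ → A) : φ ∘ lin m a = lin m (φ ∘ a) := funext fun s => by
  simp [lin]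

theorem aeval_lin (y : τ → A) (h : MvPolynomial σ ℂ) :
    aeval y (aeval (lin m X : σ → MvPolynomial τ ℂ) h) = aeval (lin m y) h := by
  rw [comp_aeval_apply]
  exact congrArg (aeval · h) ((map_lin m _ X).trans (by rw [aeval_comp_X]))

theorem der_lin (D : Derivation ℂ A A) (a : τ → A) : D ∘ lin m a = lin m (D ∘ a) :=
  funext fun s => by simp [lin]

theorem lin_smul (r : A) (a : τ → A) : lin m (r • a) = r • lin m a := funext fun s => by
  simp [lin, Finset.mul_sum, mul_left_comm]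

theorem lin_add (a b : τ → A) : lin m (a + b) = lin m a + lin m b := funext fun s => by
  simp [lin, mul_add, Finset.sum_add_distrib]

end

theorem Aff.lin {σ τ : Type} [Fintype σ] [Fintype τ] {q : Q4 σ} {m : τ → σ → ℂ}
    (hm : ∀ a : τ → ℂ, lin m a = 0 → a = 0) {x : τ → ℂ} (h : Aff (q.pull m) x) :
    Aff q (lin m x) := by
  obtain ⟨g, h1, h2, h3⟩ := h
  refine ⟨H61.lin m g, fun a b c h => h1 a b c (funext fun i => MvPolynomial.funext fun y => ?_),
    by rwa [← q.pull_T], fun h hh => ?_⟩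
  · rw [der_lin, der_lin, ← lin_smul, ← lin_smul, ← lin_smul, ← lin_add, ← lin_add] at h
    have := congrArg (aeval y ∘ ·) h
    simp only [map_lin] at this
    exact (congrFun (hm _ (this.trans (funext fun _ => map_zero _))) i).trans (map_zero _).symm
  · have := h3 (aeval (H61.lin m X) h) (by rwa [aeval_lin, lin_smul, ← map_lin])
    rwa [← aeval_eq_eval, aeval_lin, aeval_eq_eval] at this

section
variable {σ A B : Type} [Fintype σ] [CommRing A] [Algebra ℂ A] [CommRing B] [Algebra ℂ B]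
  (q : Q4 σ) (φ : A →ₐ[ℂ] B)

theorem map_dir (η c a b : σ → A) (z : A) :
    φ ∘ q.dir η c a b z = q.dir (φ ∘ η) (φ ∘ c) (φ ∘ a) (φ ∘ b) (φ z) := by
  have : φ ∘ (a + z • b) = φ ∘ a + φ z • φ ∘ b := funext fun i => by simp
  funext i
  simp [Q4.dir, q.map φ, this, map_ofNat]

theorem map_gres (p v : σ → A) : φ ∘ q.gres p v = q.gres (φ ∘ p) (φ ∘ v) := funext fun i => by
  simp [Q4.gres, q.map φ, map_ofNat]

end

theorem wron {p r : Polynomial ℂ} (hp : p ≠ 0) (h : p * r.derivative = r * p.derivative) :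
    ∃ c, r = p * Polynomial.C c := by
  have key : ∀ r : Polynomial ℂ, p * r.derivative = r * p.derivative → r ≠ 0 →
      r.natDegree = p.natDegree := fun r h hr => by
    have h1 : p * (r.derivative * Polynomial.X) = r * (p.derivative * Polynomial.X) := by
      linear_combination Polynomial.X * h
    have h2 : ∀ r : Polynomial ℂ, (r.derivative * Polynomial.X).natDegree ≤ r.natDegree ∧
        (r.derivative * Polynomial.X).coeff r.natDegree = r.leadingCoeff * r.natDegree := fun r => by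
      rcases Nat.eq_zero_or_pos r.natDegree with h | h
      · simp [Polynomial.natDegree_eq_zero.1 h |>.choose_spec ▸ Polynomial.derivative_C, h]
      · refine ⟨Polynomial.natDegree_mul_le.trans ?_, ?_⟩
        · have := r.natDegree_derivative_le
          rw [Polynomial.natDegree_X]; omega
        · obtain ⟨k, hk⟩ := Nat.exists_eq_add_one.2 h
          rw [Polynomial.leadingCoeff, hk, Polynomial.coeff_mul_X, Polynomial.coeff_derivative]
          push_cast; rfl
    have h3 := congrArg (Polynomial.coeff · (p.natDegree + r.natDegree)) h1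
    rw [Polynomial.coeff_mul_add_eq_of_natDegree_le le_rfl (h2 r).1, add_comm,
      Polynomial.coeff_mul_add_eq_of_natDegree_le le_rfl (h2 p).1, (h2 r).2, (h2 p).2,
      Polynomial.coeff_natDegree, Polynomial.coeff_natDegree] at h3
    exact_mod_cast mul_left_cancel₀ (mul_ne_zero (Polynomial.leadingCoeff_ne_zero.2 hp)
      (Polynomial.leadingCoeff_ne_zero.2 hr)) (by linear_combination h3 :
        _ * (r.natDegree : ℂ) = _ * p.natDegree)
  refine ⟨r.coeff p.natDegree / p.leadingCoeff, sub_eq_zero.1 (by_contra fun h0 => ?_)⟩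
  have := key _ (by simp only [map_sub, Polynomial.derivative_mul, Polynomial.derivative_C]
                    linear_combination h) h0
  refine Polynomial.leadingCoeff_ne_zero.2 h0 ?_
  rw [Polynomial.leadingCoeff, this, Polynomial.coeff_sub, Polynomial.coeff_mul_C]
  exact sub_eq_zero.2 (mul_div_cancel₀ _ (Polynomial.leadingCoeff_ne_zero.2 hp)).symm

theorem Par.prop {K : Type} [Field K] [Algebra ℂ K] {q : Q4 (Fin 5)} {e η c a b y : Fin 5 → K}
    (R : Par q e η c a b) (h0 : q.T η η η y = 0) (h1 : q.T η η c y = 0) (h2 : q.T η η a y = 0)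
    (h3 : q.T η η b y = 0) : ∃ k : K, k • η = y := by
  have h4 : LinearIndependent K ![q.L η η η, q.L η η c, q.L η η a, q.L η η b] := by
    rw [Fintype.linearIndependent_iff]
    intro g hg
    have h : ∀ z, g 0 * q.T η η η z + g 1 * q.T η η c z + g 2 * q.T η η a z + g 3 * q.T η η b z = 0 :=
      fun z => by simpa [Fin.sum_univ_four, Q4.L_apply] using LinearMap.congr_fun hg z
    have g3 : g 3 = 0 := by simpa [R.c1, R.c2, R.a2, R.b2, q.T34 η η _ c] using h c
    have g2 : g 2 = 0 := by simpa [R.a1, R.a2, R.a3, g3] using h a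
    have g1 : g 1 = 0 := by simpa [R.b1, R.b2, g2, g3] using h b
    have g0 : g 0 = 0 := by simpa [R.e1, g1, g2, g3] using h e
    intro i
    fin_cases i
    exacts [g0, g1, g2, g3]
  obtain ⟨k, hk⟩ := (dim_count h4 (c := ![η]) (linearIndependent_unique_iff.2 fun h =>
    R.e1 (by rw [show η = 0 from h]; simp [Q4.T])) fun i j => by
      fin_cases i <;> fin_cases j <;>
        simp [Q4.L_apply, R.z, R.c1, R.a1, R.b1, q.T34 η η _ η]).2 (by simp) y fun i => by
    fin_cases i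
    exacts [h0, h1, h2, h3]
  exact ⟨k 0, by simpa using hk⟩

theorem surf {q : Q4 (Fin 5)} {η c a b : Fin 5 → Polynomial ℂ} {x : Fin 5 → ℂ}
    (R : Par q (Pi.single 0 1) η c a b)
    (h1 : ∀ (t : Polynomial ℂ) (y : Fin 5 → ℂ), η ≠ t • Polynomial.C ∘ y)
    (h2 : ∀ h : MvPolynomial (Fin 5) ℂ,
      (∀ (A : Type) [CommRing A] [Algebra ℂ A] (ψ : Polynomial ℂ →ₐ[ℂ] A) (t : A), aeval
        (t • q.gres (ψ ∘ η) (q.dir (ψ ∘ η) (ψ ∘ c) (ψ ∘ a) (ψ ∘ b) 0)) h = 0) → eval x h = 0) :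
    Aff q x := by
  let ι : Polynomial ℂ →ₐ[ℂ] MvPolynomial (Fin 2) ℂ := Polynomial.aeval (X 0)
  have h3 : ∀ {A : Type} [CommRing A] [Algebra ℂ A] (ψ : Polynomial ℂ →ₐ[ℂ] A) (z : A)
      (y : Fin 5 → Polynomial ℂ), aeval ![ψ Polynomial.X, z] ∘ ι ∘ y = ψ ∘ y := fun ψ z y =>
    funext fun i => AlgHom.congr_fun (Polynomial.algHom_ext (by simp [ι]) :
      (aeval ![ψ Polynomial.X, z]).comp ι = ψ) (y i)
  have h4 : ∀ z : Polynomial ℂ, ∃ φ : MvPolynomial (Fin 2) ℂ →ₐ[ℂ] Polynomial ℂ, φ (X 1) = z ∧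
      ∀ y : Fin 5 → Polynomial ℂ, φ ∘ ι ∘ y = y := fun z => ⟨_, by simp, h3 (AlgHom.id ℂ _) z⟩
  have h5 : Function.Injective ι := fun a b h => by
    obtain ⟨φ, -, h4⟩ := h4 0
    exact (congrFun (h4 fun _ => a) 0).symm.trans ((congrArg φ h).trans (congrFun (h4 fun _ => b) 0))
  have d0 : pderiv 0 ∘ ι ∘ η = ι ∘ Polynomial.derivative ∘ η := funext fun i => by
    simp [ι]
  have d1 : ∀ y : Fin 5 → Polynomial ℂ, pderiv 1 ∘ ι ∘ y = 0 := fun y => funext fun i => by
    simp [ι]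
  have h6 : q.T η η η (Polynomial.derivative ∘ η) = 0 := by
    have := q.der Polynomial.derivative' η η η η
    rw [R.z, map_zero, q.T12 _ η, q.T23 η _ η, q.T34 η η _ η] at this
    change 0 = q.T η η η (Polynomial.derivative ∘ η) + q.T η η η (Polynomial.derivative ∘ η) +
      q.T η η η (Polynomial.derivative ∘ η) + q.T η η η (Polynomial.derivative ∘ η) at this
    exact (mul_eq_zero.1 (by linear_combination -this)).resolve_left
      (by norm_num : (4 : Polynomial ℂ) ≠ 0)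
  have h7 : q.T (ι ∘ η) (ι ∘ η) (q.dir (ι ∘ η) (ι ∘ c) (ι ∘ a) (ι ∘ b) (X 1))
      (ι ∘ Polynomial.derivative ∘ η) ≠ 0 := fun h0 => by
    have e : ∀ z, q.T η η (q.dir η c a b z) (Polynomial.derivative ∘ η) = 0 := fun z => by
      obtain ⟨φ, e1, e2⟩ := h4 z
      simpa only [q.map φ, map_dir, e1, e2, map_zero] using congrArg φ h0
    have e0 := e 0
    have e1 := e 1
    have e2 := e (-1)
    simp only [Q4.dir, q.sub3, q.smul3, q.add3, zero_smul, add_zero] at e0 e1 e2
    have e3 : q.T η η c (Polynomial.derivative ∘ η) = 0 :=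
      (mul_eq_zero.1 (by linear_combination e0)).resolve_left R.a3
    rw [e3] at e1 e2
    have e4 := mul_ne_zero (by norm_num : (4 : Polynomial ℂ) ≠ 0) R.b2
    have e5 : q.T η η a (Polynomial.derivative ∘ η) = 0 :=
      (mul_eq_zero.1 (by linear_combination e2 - e1)).resolve_left e4
    have e6 : q.T η η b (Polynomial.derivative ∘ η) = 0 :=
      (mul_eq_zero.1 (by linear_combination -e2 - e1)).resolve_left e4
    let j := IsScalarTower.toAlgHom ℂ (Polynomial ℂ) (RatFunc ℂ)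
    have hj : Function.Injective j := IsFractionRing.injective _ _
    obtain ⟨k, hk⟩ := (R.map hj).prop (y := j ∘ Polynomial.derivative ∘ η)
      (by rw [← q.map, h6, map_zero]) (by rw [← q.map, e3, map_zero])
      (by rw [← q.map, e5, map_zero]) (by rw [← q.map, e6, map_zero])
    obtain ⟨i, hi⟩ : ∃ i, η i ≠ 0 := by
      by_contra! H
      exact R.e1 (by simp [Q4.T, H])
    choose y hy using fun l => wron hi (r := η l) (hj (by
      have a1 := congrFun hk i
      have a2 := congrFun hk l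
      simp only [Pi.smul_apply, Function.comp, smul_eq_mul] at a1 a2
      rw [map_mul, map_mul, ← a1, ← a2]
      ring))
    exact h1 (η i) y (funext hy)
  have h8 : q.T (ι ∘ η) (q.dir (ι ∘ η) (ι ∘ c) (ι ∘ a) (ι ∘ b) (X 1)) (q.dir (ι ∘ η) (ι ∘ c)
      (ι ∘ a) (ι ∘ b) (X 1)) (q.dir (ι ∘ η) (ι ∘ c) (ι ∘ a) (ι ∘ b) (X 1)) ≠ 0 := fun h0 => by
    obtain ⟨φ, e1, e2⟩ := h4 0
    have := congrArg φ h0
    simp only [q.map φ, map_dir, e1, e2, map_zero] at this
    simp [Q4.dir, q.smul2, q.smul3, q.smul4, R.a3, R.c3] at this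
  have h9 := congrArg ι h6
  rw [q.map, map_zero] at h9
  refine ⟨q.gres (ι ∘ η) (q.dir (ι ∘ η) (ι ∘ c) (ι ∘ a) (ι ∘ b) (X 1)), ?_, ?_, fun h hh =>
    h2 h fun A _ _ ψ t => ?_⟩
  · have R' := R.map h5
    have d2 := d1 η
    have d3 := d1 c
    have d4 := d1 a
    have d5 := d1 b
    generalize ι ∘ η = η, ι ∘ c = c, ι ∘ a = a, ι ∘ b = b, ι ∘ Polynomial.derivative ∘ η = η'
      at R' d0 d2 d3 d4 d5 h7 h8 h9
    have z1 : ∀ a b c : Fin 5 → MvPolynomial (Fin 2) ℂ, q.T 0 a b c = 0 := fun a b c => by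
      simp [Q4.T]
    have z2 : ∀ a b c : Fin 5 → MvPolynomial (Fin 2) ℂ, q.T a 0 b c = 0 := fun a b c => by
      simp [Q4.T]
    have z3 : ∀ a b c : Fin 5 → MvPolynomial (Fin 2) ℂ, q.T a b 0 c = 0 := fun a b c => by
      simp [Q4.T]
    have v1 := dir1 R'.c1 R'.a1 R'.b1 (X 1)
    have vc := dirc (b := b) R'.c2 R'.a2 (X 1)
    have va : q.T η η a (q.dir η c a b (X 1)) = -2 * X 1 * q.T η η c b *
        (q.T η η a a + X 1 * q.T η η a b) := by
      simp only [Q4.dir, q.sub4, q.smul4, q.add4, q.T34 η η a c, R'.a2]; ring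
    generalize q.dir η c a b (X 1) = v at *
    have g0 : ∀ y, q.T η η η y = 0 → q.T η η y (q.gres η v) = -4 * q.T η v v v * q.T η η y v :=
      fun y hy => by rw [Q4.gres, q.sub4, q.smul4, q.smul4, q.T34 η η y, hy]; ring
    have g1 := g0 η R'.z
    have g2 := g0 η' h9
    have g3 := g0 c R'.c1
    have g4 := g0 a R'.a1
    rw [v1, mul_zero] at g1
    rw [vc] at g3
    rw [va] at g4
    generalize q.gres η v = g at *
    have k0 := congrArg (pderiv 0) g1
    have k1 := congrArg (pderiv 1) g1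
    have k3 := congrArg (pderiv 1) g3
    have k4 := congrArg (pderiv 1) g4
    have k5 : ∀ y z, pderiv 1 ∘ y = 0 → pderiv 1 ∘ z = 0 → pderiv 1 (q.T η η y z) = 0 :=
      fun y z hy hz => by simp only [q.der, d2, hy, hz, z1, z2, z3, q.zero4, add_zero]
    have n2 : pderiv 1 (2 : MvPolynomial (Fin 2) ℂ) = 0 := (pderiv 1).map_natCast 2
    have n4 : pderiv 1 (4 : MvPolynomial (Fin 2) ℂ) = 0 := (pderiv 1).map_natCast 4
    rw [q.der, d0, q.T12 η', q.T23 η η', map_zero, g2, q.T34 η η η'] at k0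
    simp only [Derivation.leibniz, Derivation.leibniz_pow, map_add, k5 _ _ d3 d5, k5 _ _ d4 d4,
      k5 _ _ d4 d5, map_neg, n2, n4, pderiv_X_self, smul_eq_mul, nsmul_eq_mul] at k3 k4
    rw [q.der] at k1 k3 k4
    simp only [d2, d3, d4, z1, z2, z3, zero_add, map_zero] at k1 k3 k4
    intro α β γ h
    have l : ∀ y, α * q.T η η y g + β * q.T η η y (pderiv 0 ∘ g) + γ * q.T η η y (pderiv 1 ∘ g)
        = 0 := fun y => by rw [← q.smul4, ← q.smul4, ← q.smul4, ← q.add4, ← q.add4, h, q.zero4]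
    have l0 := l η
    have l1 := l c
    have l2 := l a
    obtain rfl : β = 0 := (mul_eq_zero.1 (by
      linear_combination l0 - α * g1 - β * k0 - γ * k1)).resolve_right
        (mul_ne_zero (mul_ne_zero (by norm_num : (12 : MvPolynomial (Fin 2) ℂ) ≠ 0) h8) h7)
    have hW := mul_ne_zero (mul_ne_zero (mul_ne_zero (mul_ne_zero (by norm_num :
      (64 : MvPolynomial (Fin 2) ℂ) ≠ 0) (pow_ne_zero 2 h8)) (pow_ne_zero 3 R'.b2))
        (pow_ne_zero 2 (X_ne_zero 1))) R'.a3
    rw [g3, k3] at l1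
    rw [g4, k4] at l2
    generalize pderiv 1 (q.T η v v v) = B' at l1 l2
    generalize q.T η v v v = B, q.T η η c b = β, q.T η η a a = a3, q.T η η a b = a4,
      (X 1 : MvPolynomial (Fin 2) ℂ) = z at l1 l2 hW
    push_cast at l1
    exact ⟨(mul_eq_zero.1 (by
      linear_combination (8 * (B' * z ^ 2 + 2 * B * z) * β ^ 2) * l2 -
        8 * β * (B' * z * (a3 + z * a4) + B * (a3 + 2 * z * a4)) * l1)).resolve_right hW, rfl,
      (mul_eq_zero.1 (by
        linear_combination 8 * B * z * β * (a3 + z * a4) * l1 - 8 * B * z ^ 2 * β ^ 2 * l2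
          )).resolve_right hW⟩
  · have R' := R.map h5
    rw [Q4.gres, sub_eq_add_neg, ← neg_smul, q.expand]
    simp only [q.smul1, q.smul2, q.smul3, R'.z, dir1 R'.c1 R'.a1 R'.b1, dir2 R'.c2 R'.a2, q.smul4]
    ring
  · have := congrArg (aeval ![t, ψ Polynomial.X, 0]) hh
    rw [map_zero, comp_aeval_apply] at this
    refine (congrArg (aeval · h) (funext fun i => ?_)).trans this
    have e := congrFun (map_gres q (aeval ![ψ Polynomial.X, 0]) (ι ∘ η)
      (q.dir (ι ∘ η) (ι ∘ c) (ι ∘ a) (ι ∘ b) (X 1))) i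
    simp only [map_dir, h3, aeval_X, Matrix.cons_val] at e
    simp only [Pi.smul_apply, smul_eq_mul, map_mul, aeval_X, Matrix.cons_val, Function.comp,
      aeval_rename, ← e]
    rfl

end Pool.Agent.MP_e0214e_ag.H61

end

-- part MP_e0214e_ag.H61.Arc
section

/-! An arc through the given point, and the case of threefolds. -/

set_option autoImplicit false

namespace Pool.Agent.MP_e0214e_ag.H61

open Polynomial IsDedekindDomain

theorem place0 {B E : Type} [CommRing B] [IsDedekindDomain B] [Field E] [Algebra B E]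
    [IsFractionRing B E] [Algebra ℂ E] [Algebra ℂ[X] B] [Algebra.IsIntegral ℂ[X] B]
    (h1 : Function.Injective (algebraMap ℂ[X] B))
    (h7 : ∀ c : ℂ, algebraMap ℂ E c = algebraMap B E (algebraMap ℂ[X] B (C c))) :
    ∃ (N : AbsoluteValue E ℝ) (π : E), @Loc E N.toNormedField _ π ∧
      ∀ p : ℂ[X], p.eval 0 = 0 → N (algebraMap B E (algebraMap ℂ[X] B p)) < 1 := by
  have := RingHom.ker_isMaximal_of_surjective (evalRingHom (0 : ℂ)) fun c => ⟨C c, by simp⟩
  obtain ⟨P, h2, h3⟩ := Ideal.exists_ideal_over_maximal_of_isIntegral (S := B)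
    (RingHom.ker (evalRingHom (0 : ℂ))) (by rw [(RingHom.injective_iff_ker_eq_bot _).1 h1]; simp)
  have h4 : ∀ p : ℂ[X], p.eval 0 = 0 → algebraMap ℂ[X] B p ∈ P := fun p hp => by
    rw [← Ideal.mem_comap, h3]; exact hp
  let v : HeightOneSpectrum B := ⟨P, h2.isPrime, fun h => X_ne_zero (h1 (by
    have := h4 X (by simp)
    rwa [h, Ideal.mem_bot, ← map_zero (algebraMap ℂ[X] B)] at this))⟩
  have h5 : ∀ b : B, ∃ c : ℂ, b - algebraMap ℂ[X] B (C c) ∈ P := fun b => by
    let j : ℂ →+* B ⧸ P := (Ideal.Quotient.mk P).comp ((algebraMap ℂ[X] B).comp C)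
    have hj : j.comp (evalRingHom 0) = (Ideal.Quotient.mk P).comp (algebraMap ℂ[X] B) :=
      RingHom.ext fun p => Ideal.Quotient.eq.2 (by
        rw [RingHom.comp_apply, ← map_sub]; exact h4 _ (by simp))
    obtain ⟨c, hc⟩ := (IsAlgClosed.ringHom_bijective_of_isIntegral j fun x => by
      obtain ⟨b, rfl⟩ := Ideal.Quotient.mk_surjective x
      obtain ⟨m, h6, h7⟩ := Algebra.IsIntegral.isIntegral (R := ℂ[X]) b
      exact ⟨m.map (evalRingHom 0), h6.map _, by
        rw [eval₂_map, hj, ← hom_eval₂, h7, map_zero]⟩).2 (Ideal.Quotient.mk P b)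
    exact ⟨c, Ideal.Quotient.eq.1 hc.symm⟩
  obtain ⟨π, hπ⟩ := v.valuation_exists_uniformizer E
  have h6 := WithZeroMulInt.toNNReal_strictMono (one_lt_two (α := NNReal))
  let := (v.adicAbv (K := E) one_lt_two).toNormedField
  refine ⟨v.adicAbv one_lt_two, π, ⟨v.isNonarchimedean_adicAbv _, fun c => ?_, fun h => ?_, ?_,
    fun a ha => ?_⟩, fun p hp => (v.adicAbv_coe_lt_one_iff _ _).2 (h4 p hp)⟩
  · rw [h7]; exact v.adicAbv_coe_le_one _ _
  · rw [h, map_zero] at hπ
    exact WithZero.exp_ne_zero hπ.symm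
  · exact NNReal.coe_lt_one.2 ((WithZeroMulInt.toNNReal_lt_one_iff one_lt_two).2 (by
      rw [hπ, ← WithZero.exp_zero, WithZero.exp_lt_exp]; simp))
  · obtain ⟨b, hb⟩ := v.exists_valuation_sub_lt_of_integer
      ((WithZeroMulInt.toNNReal_le_one_iff one_lt_two).1 (NNReal.coe_le_one.1 ha)) 1
    obtain ⟨c, hc⟩ := h5 b
    refine ⟨c, NNReal.coe_le_coe.2 (h6.monotone ?_)⟩
    rw [hπ, ← WithZero.lt_mul_exp_iff_le (by simp), ← WithZero.exp_add, neg_add_cancel,
      WithZero.exp_zero, h7, show a - algebraMap B E (algebraMap ℂ[X] B (C c)) =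
        algebraMap B E (b - algebraMap ℂ[X] B (C c)) - (algebraMap B E b - a) by
          rw [map_sub]; ring]
    exact Valuation.map_sub_lt _ ((v.valuation_lt_one_iff_mem _).2 hc) hb

theorem place (E : Type) [Field E] [Algebra ℂ E] [Algebra ℂ[X] E] [Algebra (RatFunc ℂ) E]
    [IsScalarTower ℂ[X] (RatFunc ℂ) E] [IsScalarTower ℂ ℂ[X] E] [FiniteDimensional (RatFunc ℂ) E] :
    ∃ (N : AbsoluteValue E ℝ) (π : E), @Loc E N.toNormedField _ π ∧
      ∀ p : ℂ[X], p.eval 0 = 0 → N (algebraMap ℂ[X] E p) < 1 := by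
  have := integralClosure.isDedekindDomain ℂ[X] (RatFunc ℂ) E
  have := integralClosure.isFractionRing_of_finite_extension (A := ℂ[X]) (RatFunc ℂ) E
  exact place0 (B := integralClosure ℂ[X] E) (fun a b h =>
    IsFractionRing.injective ℂ[X] (RatFunc ℂ) ((algebraMap (RatFunc ℂ) E).injective (by
      rw [← IsScalarTower.algebraMap_apply, ← IsScalarTower.algebraMap_apply]
      exact congrArg Subtype.val h))) fun c => IsScalarTower.algebraMap_apply ℂ ℂ[X] E c

theorem roots4 {K : Type} [Field K] [IsAlgClosed K] (a0 a1 a2 a3 a4 : K) (h : a4 ≠ 0) :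
    ∃ r : Fin 4 → K, (∀ i, a0 + a1 * r i + a2 * r i ^ 2 + a3 * r i ^ 3 + a4 * r i ^ 4 = 0) ∧
      a0 = a4 * ∏ i, r i := by
  obtain ⟨x, hx⟩ := exists_root5 a0 a1 a2 a3 a4 0 (.inl h)
  obtain ⟨y, hy⟩ := exists_root3 (a1 + a2 * x + a3 * x ^ 2 + a4 * x ^ 3)
    (a2 + a3 * x + a4 * x ^ 2) (a3 + a4 * x) a4 (.inr h)
  obtain ⟨z, hz⟩ := exists_root3 (a2 + a3 * (x + y) + a4 * (x ^ 2 + x * y + y ^ 2))
    (a3 + a4 * (x + y)) a4 0 (.inl h)
  obtain ⟨w, rfl⟩ : ∃ w, a3 = -a4 * (x + y + z + w) :=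
    ⟨-a3 / a4 - x - y - z, by field_simp; ring⟩
  obtain rfl : a2 = a4 * (x * y + x * z + x * w + y * z + y * w + z * w) := by
    linear_combination hz
  obtain rfl : a1 = -a4 * (x * y * z + x * y * w + x * z * w + y * z * w) := by
    linear_combination hy
  obtain rfl : a0 = a4 * (x * y * z * w) := by linear_combination hx
  refine ⟨![x, y, z, w], fun i => ?_, by simp [Fin.prod_univ_four]⟩
  fin_cases i <;> simp <;> ring

theorem aff_std {q : Q4 (Fin 5)} {w u : Fin 3 → Fin 5 → ℂ} (hs : q.Sm ℂ)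
    (F : Frame q (fun i => Pi.single i 1) w u) {x : Fin 5 → ℂ} (hx : q.T x x x x = 0) :
    Aff q x := by
  obtain ⟨H, h1, h2⟩ := chain_gen hs F
  obtain ⟨a, ha⟩ : ∃ a, MvPolynomial.eval a H ≠ 0 := by
    by_contra! h
    exact h1 (MvPolynomial.funext fun y => by rw [h, map_zero])
  let Ω := AlgebraicClosure (RatFunc ℂ)
  let j := IsScalarTower.toAlgHom ℂ ℂ[X] Ω
  have hj : Function.Injective j := (algebraMap (RatFunc ℂ) Ω).injective.comp
    (IsFractionRing.injective ℂ[X] (RatFunc ℂ))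
  let U : Fin 5 → ℂ[X] := fun i => C (x i) + X * C ((Fin.cons 0 a : Fin 5 → ℂ) i - x i)
  have h3 : (Algebra.ofId ℂ Ω) (q.T (Pi.single 0 1) (Pi.single 0 1) (Pi.single 0 1)
    (Pi.single 0 1)) = q.T (Pi.single 0 1) (Pi.single 0 1) (Pi.single 0 1) (Pi.single 0 1) := by
    rw [q.map, comp_single]
  obtain ⟨r, h4, h5⟩ := roots4 (q.T (j ∘ U) (j ∘ U) (j ∘ U) (j ∘ U))
    (4 * q.T (j ∘ U) (j ∘ U) (j ∘ U) (Pi.single 0 1))
    (6 * q.T (j ∘ U) (j ∘ U) (Pi.single 0 1) (Pi.single 0 1))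
    (4 * q.T (j ∘ U) (Pi.single 0 1) (Pi.single 0 1) (Pi.single 0 1)) _
    (h3.symm.trans_ne ((_root_.map_ne_zero _).2 F.e4))
  choose v μ s h6 h7 using fun i => h2 Ω (j ∘ U + r i • Pi.single 0 1) (by rw [q.expand, h4]) (by
    rw [show Fin.tail (j ∘ U + r i • (Pi.single 0 1 : Fin 5 → Ω)) = fun k => j (U k.succ) by
      funext k; simp [Fin.tail], ← MvPolynomial.comp_aeval_apply, map_ne_zero_iff _ hj]
    intro h0
    have := congrArg (aeval (1 : ℂ)) h0
    rw [MvPolynomial.comp_aeval_apply, map_zero] at this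
    simp only [U, map_add, map_mul, aeval_C, aeval_X, Fin.cons_succ, Algebra.algebraMap_self,
      RingHom.id_apply, one_mul, add_sub_cancel] at this
    exact ha this)
  let d : Fin 4 × (Bool ⊕ Fin 3 × Option (Fin 5)) → Ω := fun i => i.2.elim
    (fun b => if b then r i.1 else s i.1) fun k => k.2.elim (μ i.1 k.1) (v i.1 k.1)
  let E := IntermediateField.adjoin (RatFunc ℂ) (Set.range d)
  have : FiniteDimensional (RatFunc ℂ) E :=
    IntermediateField.finiteDimensional_adjoin fun x _ => Algebra.IsIntegral.isIntegral x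
  let d' : Fin 4 × (Bool ⊕ Fin 3 × Option (Fin 5)) → E := fun i =>
    ⟨d i, IntermediateField.subset_adjoin _ _ ⟨i, rfl⟩⟩
  let φ : E →ₐ[ℂ] Ω := { E.val.toRingHom with commutes' := fun _ => rfl }
  have hφ : Function.Injective φ := Subtype.val_injective
  have : IsScalarTower ℂ ℂ[X] E := .of_algebraMap_eq fun _ => rfl
  obtain ⟨N, π, L, hN⟩ := place E
  let := N.toNormedField
  obtain ⟨i, hi⟩ : ∃ i, N (d' (i, .inl true)) < 1 := by
    by_contra! h
    have h8 := hN (q.T U U U U) (by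
      rw [← coe_aeval_eq_eval, q.map, show aeval (0 : ℂ) ∘ U = x from funext fun i => by simp [U],
        hx])
    rw [show algebraMap ℂ[X] E (q.T U U U U) = algebraMap ℂ E (q.T (Pi.single 0 1) (Pi.single 0 1)
      (Pi.single 0 1) (Pi.single 0 1)) * ∏ i, d' (i, .inl true) from hφ (by
        rw [map_mul, map_prod, φ.commutes]
        exact (q.map j _ _ _ _).trans (h5.trans (by rw [← h3]; rfl))), map_mul, map_prod] at h8
    exact F.e4 (L.disc _ ((le_mul_of_one_le_right (N.nonneg _)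
      (Finset.one_le_prod fun i _ => h i)).trans_lt h8))
  obtain ⟨η, c, a, b, R⟩ := approx L F (v := fun k l => d' (i, .inr (k, some l)))
    (μ := fun k => d' (i, .inr (k, none))) (.comap φ hφ (h6 i)) (s := d' (i, .inl false))
    (x := x) (by
      refine (pi_norm_lt_iff one_pos).2 fun k => ?_
      rw [show (d' (i, .inl false) • pt (fun k l => d' (i, .inr (k, some l)))
        (fun k => d' (i, .inr (k, none))) 3 - algebraMap ℂ E ∘ x) k = algebraMap ℂ[X] E (U k - C (x k))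
          + d' (i, .inl true) * (Pi.single 0 1 : Fin 5 → E) k from hφ (by
        have e1 := congrFun (h7 i) k
        have e2 := congrFun (map_pt φ (fun k l => d' (i, .inr (k, some l)))
          (fun k => d' (i, .inr (k, none))) 3) k
        have e3 := congrFun (comp_single φ (0 : Fin 5)) k
        simp only [Function.comp, Pi.smul_apply, Pi.sub_apply, Pi.add_apply, smul_eq_mul, map_sub,
          map_add, map_mul] at e1 e2 e3 ⊢
        rw [e2, e3]
        change s i * pt (v i) (μ i) 3 k - j (C (x k)) = j (U k) - j (C (x k)) + r i * _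
        rw [e1]; ring)]
      refine (L.na _ _).trans_lt (max_lt (hN _ (by simp [U])) ?_)
      rw [Pi.single_apply]
      split_ifs
      · rwa [mul_one]
      · simp)
  exact surf R.1 R.2.1 R.2.2

theorem aff5 {q : Q4 (Fin 5)} (hs : q.Sm ℂ) {x : Fin 5 → ℂ} (hx : q.T x x x x = 0) : Aff q x := by
  obtain ⟨b, w, u, h1, h2, F⟩ := exists_std hs
  obtain ⟨y, rfl⟩ := h1.2 x
  exact .lin (fun a ha => h1.1 (ha.trans (funext fun _ => by simp [lin])))
    (aff_std h2 F (by rwa [q.pull_T]))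

end Pool.Agent.MP_e0214e_ag.H61

end

-- part MP_e0214e_ag.H61.Bertini
section

/-! A smooth hyperplane section through a given point, and the general case. -/

set_option autoImplicit false

namespace Pool.Agent.MP_e0214e_ag.H61

open MvPolynomial

theorem gen1 {τ ι κ : Type} [Finite τ] [Finite ι] (r : κ → MvPolynomial ι ℂ)
    (o : τ → MvPolynomial ι ℂ)
    (H : ∀ t : τ → ℂ, ∃ y, (∀ j, eval y (r j) = 0) ∧ ∀ i, eval y (o i) = t i)
    {Ω : Type} [Field Ω] [IsAlgClosed Ω] [Algebra ℂ Ω] (g : MvPolynomial τ ℂ →ₐ[ℂ] Ω)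
    (hg : Function.Injective g) :
    ∃ y : ι → Ω, (∀ j, aeval y (r j) = 0) ∧ ∀ i, aeval y (o i) = g (X i) := by
  let J := Ideal.span (Set.range r)
  let := ((Ideal.Quotient.mkₐ ℂ J).comp (aeval o)).toRingHom.toAlgebra
  have : IsScalarTower ℂ (MvPolynomial τ ℂ) (MvPolynomial ι ℂ ⧸ J) :=
    IsScalarTower.of_algebraMap_eq fun c =>
      (((Ideal.Quotient.mkₐ ℂ J).comp (aeval o)).commutes c).symm
  have := Algebra.FiniteType.of_restrictScalars_finiteType ℂ (MvPolynomial τ ℂ)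
    (MvPolynomial ι ℂ ⧸ J)
  obtain ⟨a, ha, H2⟩ := gen0 (A := MvPolynomial τ ℂ) (B := MvPolynomial ι ℂ ⧸ J) (by
    rw [injective_iff_map_eq_zero]
    refine fun h hh => MvPolynomial.funext fun t => ?_
    obtain ⟨y, h1, h2⟩ := H t
    have h3 : J ≤ RingHom.ker (eval y) := Ideal.span_le.2 (by rintro _ ⟨j, rfl⟩; exact h1 j)
    have h4 : eval y (aeval o h) = 0 := h3 (Ideal.Quotient.eq_zero_iff_mem.1 hh)
    rwa [eval_aeval', funext h2] at h4)
  obtain ⟨ψ, hψ⟩ := H2 Ω g.toRingHom ((map_ne_zero_iff g hg).2 ha)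
  have h3 : ∀ h, ψ (Ideal.Quotient.mk J (aeval o h)) = g h := hψ
  have h4 : ∀ p, aeval (fun i => ψ (Ideal.Quotient.mk J (X i))) p = ψ (Ideal.Quotient.mk J p) := by
    intro p
    induction p using MvPolynomial.induction_on with
    | C c =>
      have := (h3 (C c)).trans (g.commutes c)
      rwa [aeval_C, algebraMap_eq, ← aeval_C, eq_comm] at this
    | add p q hp hq => simp only [map_add, hp, hq]
    | mul_X p i hp => simp only [map_mul, hp, aeval_X]
  refine ⟨fun i => ψ (Ideal.Quotient.mk J (X i)), fun j => ?_, fun i => ?_⟩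
  · rw [h4, Ideal.Quotient.eq_zero_iff_mem.2 (Ideal.subset_span (Set.mem_range_self j)), map_zero]
  · rw [h4]; simpa using h3 (X i)

theorem exists_der (τ : Type) : ∃ (K : Type) (_ : Field K) (_ : IsAlgClosed K) (_ : Algebra ℂ K)
    (g : MvPolynomial τ ℂ →ₐ[ℂ] K), Function.Injective g ∧
      ∀ w : τ → K, ∃ D : Derivation ℂ K K, ∀ i, D (g (X i)) = w i := by
  let A := MvPolynomial τ ℂ
  let F := FractionRing A
  let K := AlgebraicClosure F
  have : CharZero F := algebraRat.charZero F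
  have : Algebra.FormallySmooth A F := .of_isLocalization (nonZeroDivisors A)
  have : Algebra.FormallyEtale F K := .of_isSeparable F K
  have : Algebra.FormallySmooth A K := .comp A F K
  let g := IsScalarTower.toAlgHom ℂ A K
  refine ⟨K, inferInstance, inferInstance, inferInstance, g,
    (algebraMap F K).injective.comp (IsFractionRing.injective A F), fun w => ?_⟩
  obtain ⟨φ, h1, h2⟩ := lift_abs (A := A) (TrivSqZeroExt.fstHom K K K).toRingHom
    (fun a => ⟨TrivSqZeroExt.inl a, rfl⟩) ⟨2, TrivSqZeroExt.kerIdeal_sq K K⟩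
    (aeval (fun i => TrivSqZeroExt.inl (g (X i)) + TrivSqZeroExt.inr (w i)) :
      A →ₐ[ℂ] TrivSqZeroExt K K).toRingHom fun p => by
      change TrivSqZeroExt.fstHom ℂ K K (aeval _ p) = g p
      rw [← AlgHom.comp_apply]
      congr 1
      ext i
      simp
  have h3 : ∀ c : ℂ, φ (algebraMap ℂ K c) = algebraMap ℂ _ c := fun c => by
    rw [IsScalarTower.algebraMap_apply ℂ A K, h2]
    exact aeval_C _ c
  have h4 : ∀ a, (φ a).fst = a := h1
  refine ⟨Derivation.mk' ⟨⟨fun a => (φ a).snd, fun a b => by simp⟩, fun c a => ?_⟩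
    fun a b => ?_, fun i => ?_⟩
  · simp only [Algebra.smul_def, map_mul, h3, TrivSqZeroExt.snd_mul, RingHom.id_apply]
    simp [TrivSqZeroExt.algebraMap_eq_inl']
  · simp [h4, mul_comm]
  · change (φ (algebraMap A K (X i))).snd = _
    rw [h2]
    change (aeval (fun i => TrivSqZeroExt.inl (g (X i)) + TrivSqZeroExt.inr (w i))
      (X i : MvPolynomial τ ℂ) : TrivSqZeroExt K K).snd = _
    simp

theorem good_form {n : ℕ} (q : Q4 (Fin (n + 3))) {x : Fin (n + 3) → ℂ} (hx : x ≠ 0) :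
    ∃ φ : (Fin (n + 3) → ℂ) →ₗ[ℂ] ℂ, φ x = 0 ∧ ∀ y, q.T y y y y = 0 → q.L y y y ≠ φ := by
  by_contra! H
  obtain ⟨i, hi⟩ : ∃ i, x i ≠ 0 := Function.ne_iff.1 hx
  obtain ⟨K, _, _, _, g, hg, hD⟩ := exists_der (Fin (n + 2))
  have : CharZero K := charZero_of_injective_algebraMap (algebraMap ℂ K).injective
  obtain ⟨y, h1, h2⟩ := gen1 ![q.T X X X X, q.T X X X (algebraMap ℂ _ ∘ x)]
    (fun j => q.T X X X (Pi.single (i.succAbove j) 1)) (fun t => by
      obtain ⟨y, h1, h2⟩ := H (∑ j, t j • (LinearMap.proj (i.succAbove j) -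
        (x (i.succAbove j) / x i) • LinearMap.proj i)) (by simp [hi])
      refine ⟨y, fun j => ?_, fun j => ?_⟩
      · fin_cases j <;> simp only [Fin.zero_eta, Fin.mk_one, Matrix.cons_val, ← aeval_eq_eval,
          q.map, aeval_comp_X, map_const, h1]
        simpa [hi, Q4.L_apply] using LinearMap.congr_fun h2 x
      · rw [← aeval_eq_eval, q.map, aeval_comp_X, comp_single, ← q.L_apply, h2]
        simp [Pi.single_apply]) g hg
  have h3 := h1 0
  have h4 := h1 1
  simp only [Matrix.cons_val, q.map, aeval_comp_X, map_const, comp_single] at h2 h3 h4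
  have h5 : ∀ D : Derivation ℂ K K, ∀ w, D ∘ w = 0 → D (q.T y y y w) = 3 * q.T y y (D ∘ y) w :=
    fun D w hw => by rw [q.der, hw, q.zero4, q.T12 _ y, q.T23 y _ y]; ring
  have h6 : y = (y i / algebraMap ℂ K (x i)) • algebraMap ℂ K ∘ x := by
    rw [← sub_eq_zero]
    have h6 : (y - (y i / algebraMap ℂ K (x i)) • algebraMap ℂ K ∘ x) i = 0 := by simp [hi]
    funext k
    refine i.succAboveCases h6 (fun k => ?_) k
    obtain ⟨D, hD⟩ := hD (Pi.single k 3)
    have h7 := congrArg D h3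
    have h8 := congrArg D h4
    rw [q.der, map_zero, q.T12 _ y, q.T23 y _ y, ← q.T34 y y _ y] at h7
    rw [h5 D (algebraMap ℂ K ∘ x) (funext fun _ => D.map_algebraMap _), map_zero] at h8
    have h9 : ∀ j, q.T y y (D ∘ y) (Pi.single (i.succAbove j) 1) = (Pi.single k 1 : _ → K) j :=
      fun j => by
        have := hD j
        rw [← h2, h5 D _ (funext fun l => by
          simp only [Function.comp, Pi.single_apply]; split_ifs <;> simp)] at this
        simp only [Pi.single_apply] at this ⊢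
        split_ifs at this ⊢ <;> simpa using this
    have h10 := q.T_eq_sum y y (D ∘ y) (y - (y i / algebraMap ℂ K (x i)) • algebraMap ℂ K ∘ x)
    rw [Fin.sum_univ_succAbove _ i, h6, q.sub4, q.smul4] at h10
    simp only [h9, Pi.single_apply, mul_ite, mul_one, mul_zero, Finset.sum_ite_eq',
      Finset.mem_univ, if_true] at h10
    rw [Pi.zero_apply]
    linear_combination h7 / 4 - y i / algebraMap ℂ K (x i) / 3 * h8 - h10
  generalize y i / algebraMap ℂ K (x i) = c at h6
  have h7 : ∀ j, g (X j) = c ^ 3 * algebraMap ℂ K (q.T x x x (Pi.single (i.succAbove j) 1)) :=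
    fun j => by
      have := q.map (Algebra.ofId ℂ K) x x x (Pi.single (i.succAbove j) 1)
      rw [comp_single] at this
      rw [← h2, h6, q.smul1, q.smul2, q.smul3, ← mul_assoc, ← mul_assoc, ← pow_three']
      exact congrArg _ this.symm
  obtain ⟨D, h8⟩ := hD (Pi.single 0 1)
  obtain ⟨D', h9⟩ := hD (Pi.single 1 1)
  have h10 := congrArg D (show algebraMap ℂ K (q.T x x x (Pi.single (i.succAbove 1) 1)) * g (X 0) =
    algebraMap ℂ K (q.T x x x (Pi.single (i.succAbove 0) 1)) * g (X 1) by rw [h7, h7]; ring)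
  have h11 := h9 1
  simp [h8] at h10
  simp [h7, h10] at h11

theorem bertini {n : ℕ} {q : Q4 (Fin (n + 3))} (hs : q.Sm ℂ) {x : Fin (n + 3) → ℂ} (hx : x ≠ 0) :
    ∃ m : Fin (n + 2) → Fin (n + 3) → ℂ, (∀ a : _ → ℂ, lin m a = 0 → a = 0) ∧ (q.pull m).Sm ℂ ∧
      ∃ y, lin m y = x := by
  obtain ⟨φ, h1, h2⟩ := good_form q hx
  have h3 : φ ≠ 0 := fun h => h2 0 (q.zero4 _ _ _) (h ▸ LinearMap.ext fun w => by
    simp [Q4.L_apply, Q4.T])
  obtain ⟨e, he⟩ := LinearMap.surjective h3 1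
  let b := Module.finBasisOfFinrankEq ℂ (LinearMap.ker φ) (n := n + 2) (by
    have := φ.finrank_range_add_finrank_ker
    rw [LinearMap.range_eq_top.2 (LinearMap.surjective h3)] at this
    simp at this
    omega)
  have h4 : ∀ a, lin (fun i => (b i).1) a = (b.equivFun.symm a).1 := fun a => funext fun s => by
    simp [lin, mul_comm]
  have h5 : ∀ w, φ w = 0 → ∃ a, lin (fun i => (b i).1) a = w := fun w hw =>
    ⟨b.equivFun ⟨w, hw⟩, by rw [h4, LinearEquiv.symm_apply_apply]⟩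
  have h6 : ∀ a : _ → ℂ, lin (fun i => (b i).1) a = 0 → a = 0 := fun a ha =>
    b.equivFun.symm.map_eq_zero_iff.1 (Subtype.ext ((h4 a).symm.trans ha))
  refine ⟨fun i => b i, h6, fun a ha h0 => ?_, h5 x h1⟩
  by_contra! H
  simp only [q.pull_T] at h0 H
  have h7 := mt (h6 a) ha
  generalize lin (fun i => (b i).1) a = y at *
  have h8 : ∀ w, q.T y y y w = φ w * q.T y y y e := fun w => by
    obtain ⟨a, ha⟩ := h5 (w - φ w • e) (by simp [he])
    have := H a
    rwa [ha, q.sub4, q.smul4, sub_eq_zero] at this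
  obtain ⟨w, hw⟩ := hs y h7 h0
  rw [h8] at hw
  obtain ⟨k, hk⟩ := IsAlgClosed.exists_pow_nat_eq (q.T y y y e)⁻¹ (by norm_num : 0 < 3)
  refine h2 (k • y) (by rw [q.smul1, q.smul2, q.smul3, q.smul4, h0]; ring)
    (LinearMap.ext fun z => ?_)
  rw [q.L_apply, q.smul1, q.smul2, q.smul3, h8]
  linear_combination φ z * q.T y y y e * hk + φ z * mul_inv_cancel₀ (right_ne_zero_of_mul hw)

theorem aff (n : ℕ) : ∀ {q : Q4 (Fin (n + 5))}, q.Sm ℂ → ∀ {x : Fin (n + 5) → ℂ}, x ≠ 0 →
    q.T x x x x = 0 → Aff q x := by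
  induction n with
  | zero => exact fun hs _ _ hx => aff5 hs hx
  | succ n ih =>
    intro q hs x h0 hx
    obtain ⟨m, h1, h2, y, rfl⟩ := bertini (n := n + 3) hs h0
    exact .lin h1 (ih h2 (fun h => h0 (funext fun _ => by simp [h, lin])) (by rwa [q.pull_T]))

theorem quartic (n : ℕ) (f : MvPolynomial (Fin (n + 1)) ℂ) (hn : 4 ≤ n) (hf : f.IsHomogeneous 4)
    (hs : ∀ v : Fin (n + 1) → ℂ, v ≠ 0 → eval v f = 0 → ∃ i, eval v (pderiv i f) ≠ 0)
    (v : Fin (n + 1) → ℂ) (h0 : v ≠ 0) (hv : eval v f = 0) : Concl f v := by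
  obtain ⟨q, rfl⟩ := exists_Q4 hf
  obtain ⟨n, rfl⟩ := Nat.exists_eq_add_of_le' hn
  refine (aff n (fun y h1 h2 => ?_) h0 (by rwa [← q.eval_f])).concl
  obtain ⟨i, hi⟩ := hs y h1 (by rwa [q.eval_f])
  rw [q.pderiv_f, ← aeval_eq_eval, map_mul, q.map, aeval_comp_X] at hi
  exact ⟨_, right_ne_zero_of_mul hi⟩

end Pool.Agent.MP_e0214e_ag.H61

end
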