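import Mathlib
import Pool.Agent.MP_e0214e_ag.Mg.Surface

-- part MP_e0214e_ag.Val1
section

set_option autoImplicit false

namespace Pool.Agent.MP_e0214e_ag

open Polynomial IsLocalRing Finset

variable {K : Type*} [Field K] {O : ValuationSubring K} {m : ℕ}

/-- The truncated moment functional. -/
noncomputable def JJ (y : ℕ → O) (m : ℕ) (h : O[X]) : O := ∑ l ∈ range (m + 1), y l * h.coeff l

/-- The functional `h ↦ ∑ w_k h(λ_k) - ∑_{l ≤ m} y_l h_l`. -/
noncomputable def LL (w : Fin m → O) (lam : Fin m → K) (y : ℕ → O) (h : O[X]) : K :=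
  ∑ k, (w k : K) * aeval (lam k) h - (JJ y m h : K)

theorem JJ_add (y : ℕ → O) (g h : O[X]) : JJ y m (g + h) = JJ y m g + JJ y m h := by
  simp [JJ, mul_add, sum_add_distrib]

theorem JJ_C_mul (y : ℕ → O) (c : O) (h : O[X]) : JJ y m (C c * h) = c * JJ y m h := by
  simp only [JJ, coeff_C_mul, mul_sum]
  exact sum_congr rfl fun l _ => by ring

theorem LL_add (w : Fin m → O) (lam : Fin m → K) (y : ℕ → O) (g h : O[X]) :
    LL w lam y (g + h) = LL w lam y g + LL w lam y h := by
  simp only [LL, JJ_add, map_add, mul_add, sum_add_distrib]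
  push_cast
  ring

theorem LL_C_mul (w : Fin m → O) (lam : Fin m → K) (y : ℕ → O) (c : O) (h : O[X]) :
    LL w lam y (C c * h) = (c : K) * LL w lam y h := by
  simp only [LL, JJ_C_mul, map_mul, aeval_C, mul_sub, mul_sum]
  push_cast
  congr 1
  exact sum_congr rfl fun l _ => by
    change _ * ((c : K) * _) = _
    ring

theorem LL_eq_zero {w : Fin m → O} {lam : Fin m → K} {y : ℕ → O}
    (hy : ∀ l ≤ m, (y l : K) = ∑ k, (w k : K) * lam k ^ l) {h : O[X]} (hd : h.natDegree ≤ m) :
    LL w lam y h = 0 := by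
  rw [LL, sub_eq_zero, JJ]
  push_cast
  have : ∀ k, aeval (lam k) h = ∑ l ∈ range (m + 1), (h.coeff l : K) * lam k ^ l := by
    intro k
    rw [aeval_eq_sum_range' (Nat.lt_succ_of_le hd)]
    exact sum_congr rfl fun l _ => by rw [Algebra.smul_def]; rfl
  simp only [this, mul_sum]
  rw [sum_comm]
  refine sum_congr rfl fun l hl => ?_
  rw [hy l (by simpa [Nat.lt_succ_iff] using hl), sum_mul]
  exact sum_congr rfl fun k _ => by ring

theorem JJ_X_mul {y : ℕ → O} (hm : 1 ≤ m) (hy1 : y 1 - 1 ∈ maximalIdeal O)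
    (hy2 : ∀ l, 2 ≤ l → l ≤ m → y l ∈ maximalIdeal O) {h : O[X]} (h0 : h.coeff 0 = 1) :
    JJ y m (X * h) - 1 ∈ maximalIdeal O := by
  obtain ⟨n, rfl⟩ : ∃ n, m = n + 1 := ⟨m - 1, by omega⟩
  rw [JJ, sum_range_succ', sum_range_succ']
  simp only [coeff_X_mul, coeff_X_mul_zero, mul_zero, add_zero, zero_add, h0, mul_one]
  rw [add_sub_assoc]
  refine Ideal.add_mem _ (Ideal.sum_mem _ fun l hl => Ideal.mul_mem_right _ _ (hy2 _ ?_ ?_)) hy1
  · omega
  · have := mem_range.1 hl; omega

theorem JJ_X_pow_mul (y : ℕ → O) (h : O[X]) : JJ y m (X ^ (m + 1) * h) = 0 := by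
  refine sum_eq_zero fun l hl => ?_
  rw [coeff_X_pow_mul', if_neg (by have := mem_range.1 hl; omega), mul_zero]

theorem aeval_coe (x : O) (h : O[X]) : aeval (x : K) h = ((h.eval x : O) : K) :=
  aeval_algebraMap_apply_eq_algebraMap_eval (A := K) x h

theorem coeff_zero_prod_one_sub {ι : Type*} (S : Finset ι) (u : ι → O) :
    (∏ k ∈ S, (1 - C (u k) * X)).coeff 0 = 1 := by
  rw [coeff_zero_eq_eval_zero, eval_prod]
  simp

theorem natDegree_prod_one_sub {ι : Type*} (S : Finset ι) (u : ι → O) :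
    (∏ k ∈ S, (1 - C (u k) * X)).natDegree ≤ S.card := by
  refine (natDegree_prod_le _ _).trans ?_
  refine (sum_le_card_nsmul S _ 1 fun k _ => ?_).trans (by simp)
  compute_degree

/-- No `λ_k` lies in the maximal ideal. -/
theorem one_le_val {w : Fin m → O} {lam : Fin m → K} {y : ℕ → O} (hm : 1 ≤ m)
    (hy : ∀ l ≤ m, (y l : K) = ∑ k, (w k : K) * lam k ^ l) (hy1 : y 1 - 1 ∈ maximalIdeal O)
    (hy2 : ∀ l, 2 ≤ l → l ≤ m → y l ∈ maximalIdeal O) (k : Fin m) :
    1 ≤ O.valuation (lam k) := by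
  classical
  by_contra hk
  push Not at hk
  set S : Finset (Fin m) := univ.filter fun j => 1 ≤ O.valuation (lam j) with hS
  have hinv : ∀ j ∈ S, (lam j)⁻¹ ∈ O := by
    intro j hj
    rw [← O.valuation_le_one_iff, map_inv₀]
    exact inv_le_one_of_one_le₀ (mem_filter.1 hj).2
  let u : Fin m → O := fun j => if h : (lam j)⁻¹ ∈ O then ⟨_, h⟩ else 0
  have hcard : S.card < m := by
    have : S ⊂ univ := by
      refine ssubset_univ_iff.2 fun h => ?_
      have : k ∈ S := h ▸ mem_univ k
      exact absurd (mem_filter.1 this).2 (not_le.2 hk)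
    simpa using card_lt_card this
  set h0 : O[X] := ∏ j ∈ S, (1 - C (u j) * X) with hh0
  have hdeg : (X * h0).natDegree ≤ m := by
    refine natDegree_mul_le.trans ?_
    have : h0.natDegree ≤ S.card := natDegree_prod_one_sub S u
    rw [natDegree_X]
    omega
  have hL := LL_eq_zero hy hdeg
  have hJ : JJ y m (X * h0) - 1 ∈ maximalIdeal O :=
    JJ_X_mul hm hy1 hy2 (coeff_zero_prod_one_sub S u)
  rw [LL, sub_eq_zero] at hL
  have hlt : O.valuation (∑ j, (w j : K) * aeval (lam j) (X * h0)) < 1 := by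
    refine Valuation.map_sum_lt _ one_ne_zero fun j _ => ?_
    by_cases hj : j ∈ S
    · have hne : lam j ≠ 0 := by
        intro h
        have := (mem_filter.1 hj).2
        rw [h, map_zero] at this
        exact absurd this (by simp)
      have : aeval (lam j) h0 = 0 := by
        rw [hh0, map_prod]
        refine prod_eq_zero hj ?_
        simp only [map_sub, map_one, map_mul, aeval_C, aeval_X, u, dif_pos (hinv j hj)]
        change 1 - (lam j)⁻¹ * lam j = 0
        rw [inv_mul_cancel₀ hne, sub_self]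
      simp [this]
    · have hj' : O.valuation (lam j) < 1 := by
        by_contra hcon
        exact hj (mem_filter.2 ⟨mem_univ _, not_lt.1 hcon⟩)
      have hmem : lam j ∈ O := (O.valuation_le_one_iff _).1 hj'.le
      have e : aeval (lam j) h0 = ((h0.eval ⟨lam j, hmem⟩ : O) : K) := aeval_coe ⟨lam j, hmem⟩ h0
      rw [map_mul (aeval (lam j)), aeval_X, e, map_mul, map_mul]
      calc _ ≤ 1 * (O.valuation (lam j) * 1) := by
            gcongr
            · exact O.valuation_le_one _
            · exact O.valuation_le_one _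
        _ < 1 := by simpa using hj'
  rw [hL, ← O.valuation_lt_one_iff] at hlt
  have : (1 : O) ∈ maximalIdeal O := by
    have := Ideal.sub_mem _ hlt hJ
    rwa [sub_sub_cancel] at this
  exact (maximalIdeal.isMaximal O).ne_top ((Ideal.eq_top_iff_one _).2 this)

end Pool.Agent.MP_e0214e_ag

end

-- part MP_e0214e_ag.Val2
section

set_option autoImplicit false

namespace Pool.Agent.MP_e0214e_ag

open Polynomial IsLocalRing Finset

section Field

variable {k : Type*} [Field k] [CharZero k] {m : ℕ}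

theorem exists_antiderivative (W : k[X]) :
    ∃ e : k[X], derivative e = W ∧ e.eval 0 = 0 ∧ e.natDegree ≤ W.natDegree + 1 := by
  refine ⟨∑ i ∈ range (W.natDegree + 1), monomial (i + 1) (W.coeff i / (i + 1)), ?_, ?_, ?_⟩
  · rw [derivative_sum]
    conv_rhs => rw [W.as_sum_range]
    refine sum_congr rfl fun i _ => ?_
    rw [derivative_monomial_succ]
    congr 1
    have : (i : k) + 1 ≠ 0 := Nat.cast_add_one_ne_zero i
    field_simp
  · simp [eval_finsetSum]
  · refine natDegree_sum_le_of_forall_le _ _ fun i hi => (natDegree_monomial_le _).trans ?_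
    have := mem_range.1 hi
    omega

theorem pow_succ_dvd_of_derivative {p : k[X]} {ν : k} {n : ℕ} (h : (X - C ν) ^ n ∣ derivative p)
    (h0 : p.eval ν = 0) : (X - C ν) ^ (n + 1) ∣ p := by
  by_cases hp : p = 0
  · simp [hp]
  have hp' : derivative p ≠ 0 := by
    intro hd
    have := eq_C_of_natDegree_eq_zero (derivative_eq_zero.1 hd)
    rw [this, eval_C] at h0
    exact hp (by rw [this, h0, map_zero])
  rw [← le_rootMultiplicity_iff hp]
  rw [← le_rootMultiplicity_iff hp', derivative_rootMultiplicity_of_root h0] at h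
  have := (rootMultiplicity_pos hp).2 h0
  omega

theorem dvd_of_local [DecidableEq k] (a : Fin m → k) (k0 : Fin m) (h1 : a k0 = 1) (e F : k[X])
    (he : derivative e = X * ∏ j ∈ univ.erase k0, (X - C (a j)))
    (hF : ∀ ν ∈ insert 0 (univ.image a),
      (X - C ν) ^ (#{j | a j = ν} + if ν = 0 then 2 else 0) ∣ F - C (e.eval ν)) :
    X ^ 2 * ∏ j, (X - C (a j)) ∣ F - e := by
  set V : Finset k := insert 0 (univ.image a) with hV
  have hpow : ∀ (S : Finset (Fin m)) (ν : k), ∏ j ∈ S with a j = ν, (X - C (a j)) =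
      (X - C ν) ^ #{j ∈ S | a j = ν} := by
    intro S ν
    rw [← prod_const]
    exact prod_congr rfl fun j hj => by rw [(mem_filter.1 hj).2]
  have hD : X ^ 2 * ∏ j, (X - C (a j)) =
      ∏ ν ∈ V, (X - C ν) ^ (#{j | a j = ν} + if ν = 0 then 2 else 0) := by
    simp only [pow_add, prod_mul_distrib, ← hpow]
    rw [prod_fiberwise_of_maps_to (fun j _ => mem_insert_of_mem (mem_image_of_mem _ (mem_univ j))),
      mul_comm]
    congr 1
    rw [prod_eq_single 0]
    · simp
    · intro b _ hb; simp [hb]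
    · intro h; exact absurd (mem_insert_self _ _) h
  rw [hD]
  refine prod_dvd_of_coprime (fun ν _ ν' _ hne => ?_) fun ν hν => ?_
  · exact IsCoprime.pow (isCoprime_X_sub_C_of_isUnit_sub (sub_ne_zero.2 hne).isUnit)
  · have e1 : F - e = (F - C (e.eval ν)) - (e - C (e.eval ν)) := by ring
    rw [e1]
    refine dvd_sub (hF ν hν) ?_
    have h2 : (X - C ν) ^ (#{j ∈ univ.erase k0 | a j = ν} + if ν = 0 then 1 else 0) ∣
        derivative (e - C (e.eval ν)) := by
      rw [derivative_sub, derivative_C, sub_zero, he, pow_add, ← hpow, mul_comm]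
      refine mul_dvd_mul ?_ (prod_dvd_prod_of_subset _ _ _ (filter_subset _ _))
      split_ifs with h
      · simp [h]
      · simp
    refine (pow_dvd_pow _ ?_).trans (pow_succ_dvd_of_derivative h2 (by simp))
    rw [filter_erase]
    split_ifs with h
    · rw [erase_eq_of_notMem]
      intro hk
      have := (mem_filter.1 hk).2
      rw [h1, h] at this
      exact one_ne_zero this
    · have := pred_card_le_card_erase (s := ({j | a j = ν} : Finset (Fin m))) (a := k0)
      omega

end Field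

variable {O : Type*} [CommRing O] [IsLocalRing O] [CharZero (ResidueField O)] {m : ℕ}

theorem cluster_false (μ w : Fin m → O) (k0 : Fin m) (h1 : μ k0 = 1) (J : O[X] → O)
    (hJ : ∀ h, J (X ^ (m + 1) * h) = 0)
    (key : ∀ q r : O[X], r.natDegree ≤ m + 1 →
      ∑ j, w j * ((X ^ 2 * ∏ j, (X - C (μ j))) * q + r).eval (μ j) =
        J ((X ^ 2 * ∏ j, (X - C (μ j))) * q + r) → r.coeff (m + 1) ∈ maximalIdeal O)
    (zs : ∀ ν : ResidueField O, ν ≠ 0 → ∀ S : Finset (Fin m),
      (∀ j, j ∈ S ↔ residue O (μ j) = ν) → ∑ j ∈ S, w j = 0) : False := by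
  classical
  have hm : 1 ≤ m := Nat.succ_le_of_lt (Fin.pos k0)
  set φ := residue O with hφ
  set a : Fin m → ResidueField O := fun j => φ (μ j) with ha
  set W : (ResidueField O)[X] := X * ∏ j ∈ univ.erase k0, (X - C (a j)) with hW
  have hWm : W.Monic := monic_X.mul (monic_prod_of_monic _ _ fun j _ => monic_X_sub_C _)
  have hWd : W.natDegree = m := by
    rw [hW, monic_X.natDegree_mul (monic_prod_of_monic _ _ fun j _ => monic_X_sub_C _),
      natDegree_finsetProd_X_sub_C_eq_card, natDegree_X, card_erase_of_mem (mem_univ _)]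
    simp only [card_univ, Fintype.card_fin]
    omega
  obtain ⟨e, he, he0, hed⟩ := exists_antiderivative W
  rw [hWd] at hed
  have hec : e.coeff (m + 1) ≠ 0 := by
    intro h
    have := coeff_derivative e m
    rw [he, h, zero_mul, ← hWd, hWm.coeff_natDegree] at this
    exact one_ne_zero this
  set V : Finset (ResidueField O) := insert 0 (univ.image a) with hV
  let Dν : ResidueField O → O[X] := fun ν =>
    (∏ j with a j = ν, (X - C (μ j))) * if ν = 0 then X ^ (m + 1) else 1
  obtain ⟨c, hc, hc0⟩ : ∃ c : ResidueField O → O, (∀ ν, φ (c ν) = e.eval ν) ∧ c 0 = 0 := by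
    choose c hc using fun ν => residue_surjective (R := O) (e.eval ν)
    refine ⟨fun ν => if ν = 0 then 0 else c ν, fun ν => ?_, by simp⟩
    by_cases h : ν = 0
    · simp [h, he0]
    · simp only [h, if_false]; exact hc ν
  have hunit : ∀ x y : O, φ x ≠ φ y → IsCoprime (X - C x) (X - C y) := by
    intro x y h
    refine isCoprime_X_sub_C_of_isUnit_sub ?_
    rw [← residue_ne_zero_iff_isUnit, map_sub]
    exact sub_ne_zero.2 h
  have hcop : ∀ ν ν', ν ≠ ν' → IsCoprime (Dν ν) (Dν ν') := by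
    intro ν ν' hne
    have hX : ∀ ν'' : ResidueField O, ν'' ≠ 0 →
        IsCoprime (∏ j with a j = ν'', (X - C (μ j))) (X ^ (m + 1)) := by
      intro ν'' h
      refine IsCoprime.prod_left fun j hj => IsCoprime.pow_right ?_
      have e1 : φ (μ j) = ν'' := (mem_filter.1 hj).2
      have := hunit (μ j) 0 (by rw [map_zero, e1]; exact h)
      simpa using this
    refine IsCoprime.mul_left (IsCoprime.mul_right ?_ ?_) (IsCoprime.mul_right ?_ ?_)
    · refine IsCoprime.prod_left fun j hj => IsCoprime.prod_right fun j' hj' => hunit _ _ ?_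
      have e1 : φ (μ j) = ν := (mem_filter.1 hj).2
      have e2 : φ (μ j') = ν' := (mem_filter.1 hj').2
      rw [e1, e2]; exact hne
    · split_ifs with h
      · exact hX ν (h ▸ hne)
      · exact isCoprime_one_right
    · split_ifs with h
      · exact (hX ν' (h ▸ hne.symm)).symm
      · exact isCoprime_one_left
    · split_ifs with h h'
      · exact absurd (h.trans h'.symm) hne
      · exact isCoprime_one_right
      · exact isCoprime_one_left
      · exact isCoprime_one_left
  obtain ⟨f, hf⟩ := Ideal.exists_forall_sub_mem_ideal (ι := V)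
    (I := fun ν => Ideal.span {Dν ν})
    (fun ν ν' hne => (Ideal.isCoprime_span_singleton_iff _ _).2
      (hcop _ _ fun h => hne (Subtype.ext h))) (fun ν => C (c ν))
  have hf' : ∀ ν ∈ V, Dν ν ∣ f - C (c ν) := fun ν hν => Ideal.mem_span_singleton.1 (hf ⟨ν, hν⟩)
  have haV : ∀ j, a j ∈ V := fun j => mem_insert_of_mem (mem_image_of_mem _ (mem_univ j))
  have hev : ∀ j, f.eval (μ j) = c (a j) := by
    intro j
    have h3 : (X - C (μ j)) ∣ ∏ i with a i = a j, (X - C (μ i)) :=
      dvd_prod_of_mem (fun i => X - C (μ i)) (mem_filter.2 ⟨mem_univ j, rfl⟩)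
    have h2 : (X - C (μ j)) ∣ f - C (c (a j)) := (h3.mul_right _).trans (hf' _ (haV j))
    have := dvd_iff_isRoot.1 h2
    simpa [sub_eq_zero] using this
  have hJf : J f = 0 := by
    have h2 := hf' 0 (mem_insert_self _ _)
    rw [hc0, map_zero, sub_zero] at h2
    have h3 : X ^ (m + 1) ∣ Dν 0 := by
      simp only [Dν, if_true]
      exact dvd_mul_left _ _
    obtain ⟨h, rfl⟩ : X ^ (m + 1) ∣ f := h3.trans h2
    exact hJ h
  have hsum : ∑ j, w j * f.eval (μ j) = 0 := by
    rw [← sum_fiberwise_of_maps_to (fun j _ => haV j)]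
    refine sum_eq_zero fun ν _ => ?_
    have : ∑ j with a j = ν, w j * f.eval (μ j) = (∑ j with a j = ν, w j) * c ν := by
      rw [sum_mul]
      exact sum_congr rfl fun j hj => by rw [hev, (mem_filter.1 hj).2]
    rw [this]
    by_cases h : ν = 0
    · rw [h, hc0, mul_zero]
    · rw [zs ν h _ (fun j => by simp [ha]), zero_mul]
  set D : O[X] := X ^ 2 * ∏ j, (X - C (μ j)) with hD
  have hDm : D.Monic := (monic_X_pow 2).mul (monic_prod_of_monic _ _ fun j _ => monic_X_sub_C _)
  have hDd : D.natDegree = m + 2 := by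
    rw [hD, (monic_X_pow 2).natDegree_mul (monic_prod_of_monic _ _ fun j _ => monic_X_sub_C _),
      natDegree_finsetProd_X_sub_C_eq_card, natDegree_X_pow]
    simp only [card_univ, Fintype.card_fin]
    omega
  have hrd : (f %ₘ D).natDegree ≤ m + 1 := by
    have := natDegree_modByMonic_lt f hDm (by intro h; rw [h] at hDd; simp at hDd)
    omega
  have hdiv : D * (f /ₘ D) + f %ₘ D = f := by rw [add_comm]; exact modByMonic_add_div f D
  have hkey := key (f /ₘ D) (f %ₘ D) hrd (by rw [hdiv, hsum, hJf])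
  have hDmap : D.map φ = X ^ 2 * ∏ j, (X - C (a j)) := by
    simp [hD, Polynomial.map_prod, ha]
  have hdvd : D.map φ ∣ f.map φ - e := by
    rw [hDmap]
    refine dvd_of_local a k0 (by simp [ha, h1]) e _ he fun ν hν => ?_
    have h2 := Polynomial.map_dvd φ (hf' ν hν)
    rw [Polynomial.map_sub, map_C, hc] at h2
    refine Dvd.dvd.trans ?_ h2
    simp only [Dν, Polynomial.map_mul, Polynomial.map_prod, Polynomial.map_sub, map_X, map_C]
    rw [pow_add]
    refine mul_dvd_mul (dvd_of_eq ?_) ?_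
    · rw [← prod_const]
      exact prod_congr rfl fun j hj => by rw [← (mem_filter.1 hj).2]
    · split_ifs with h
      · simp only [h, map_zero, sub_zero, Polynomial.map_pow, map_X]
        exact pow_dvd_pow _ (by omega)
      · simp
  have hdvd2 : D.map φ ∣ (f %ₘ D).map φ - e := by
    have : (f %ₘ D).map φ - e = (f.map φ - e) - D.map φ * (f /ₘ D).map φ := by
      conv_rhs => rw [← hdiv]
      simp only [Polynomial.map_add, Polynomial.map_mul]
      rw [hdiv]; ring
    rw [this]
    exact dvd_sub hdvd (dvd_mul_right _ _)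
  have hz : (f %ₘ D).map φ - e = 0 := by
    refine eq_zero_of_dvd_of_natDegree_lt hdvd2 ?_
    rw [hDm.natDegree_map, hDd]
    refine lt_of_le_of_lt (natDegree_sub_le _ _) ?_
    have := natDegree_map_le (f := φ) (p := f %ₘ D)
    omega
  have := congrArg (fun p => p.coeff (m + 1)) hz
  simp only [coeff_sub, coeff_map, coeff_zero] at this
  rw [(residue_eq_zero_iff _).2 hkey, zero_sub, neg_eq_zero] at this
  exact hec this

end Pool.Agent.MP_e0214e_ag

end

-- part MP_e0214e_ag.Val3
section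

set_option autoImplicit false

namespace Pool.Agent.MP_e0214e_ag

open Polynomial IsLocalRing Finset

variable {K : Type*} [Field K] {O : ValuationSubring K} {m : ℕ}

/-- Valuative properness of the weighted power sum map near `(1, 0, …, 0)`. -/
theorem mem_of_moments [CharZero (ResidueField O)] {w : Fin m → O} {lam : Fin m → K} {y : ℕ → O}
    (hm : 1 ≤ m) (hy : ∀ l ≤ m, (y l : K) = ∑ k, (w k : K) * lam k ^ l)
    (hy1 : y 1 - 1 ∈ maximalIdeal O) (hy2 : ∀ l, 2 ≤ l → l ≤ m → y l ∈ maximalIdeal O)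
    (hW : ∀ S : Finset (Fin m), ∑ k ∈ S, w k ∈ maximalIdeal O → ∑ k ∈ S, w k = 0) (k : Fin m) :
    lam k ∈ O := by
  classical
  by_contra hk
  have hv := one_le_val hm hy hy1 hy2
  have hne : ∀ j, lam j ≠ 0 := by
    intro j h
    have := hv j
    rw [h, map_zero] at this
    exact absurd this (by simp)
  have hinv : ∀ j, (lam j)⁻¹ ∈ O := by
    intro j
    rw [← O.valuation_le_one_iff, map_inv₀]
    exact inv_le_one_of_one_le₀ (hv j)
  obtain ⟨k0, -, hk0⟩ := exists_max_image univ (fun j => O.valuation (lam j)) ⟨k, mem_univ _⟩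
  have hk1 : 1 < O.valuation (lam k0) :=
    lt_of_lt_of_le (not_le.1 fun h => hk ((O.valuation_le_one_iff _).1 h)) (hk0 k (mem_univ _))
  let u : Fin m → O := fun j => ⟨_, hinv j⟩
  set η : O := u k0 with hη
  have hηm : η ∈ maximalIdeal O := by
    rw [O.valuation_lt_one_iff]
    change O.valuation (lam k0)⁻¹ < 1
    rw [map_inv₀]
    exact inv_lt_one_of_one_lt₀ hk1
  have hμmem : ∀ j, (lam k0)⁻¹ * lam j ∈ O := by
    intro j
    rw [← O.valuation_le_one_iff, map_mul, map_inv₀]
    exact inv_mul_le_one_of_le₀ (hk0 j (mem_univ _)) zero_le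
  let μ : Fin m → O := fun j => ⟨_, hμmem j⟩
  have hμ1 : μ k0 = 1 := Subtype.ext (inv_mul_cancel₀ (hne k0))
  have hμu : ∀ j, μ j * u j = η := fun j => Subtype.ext (mul_inv_cancel_right₀ (hne j) _)
  have hμ0 : ∀ j, μ j ≠ 0 := fun j h =>
    mul_ne_zero (inv_ne_zero (hne k0)) (hne j) (congrArg Subtype.val h)
  have hη0 : η ≠ 0 := fun h => inv_ne_zero (hne k0) (congrArg Subtype.val h)
  let T : O[X] → O[X] := fun g => g.comp (C η * X)
  have hTd : ∀ g, (T g).natDegree ≤ g.natDegree := by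
    intro g
    refine natDegree_comp_le.trans ?_
    have : (C η * X).natDegree ≤ 1 := by compute_degree
    nlinarith
  have hLT : ∀ g, LL w lam y (T g) = ((∑ j, w j * g.eval (μ j) - JJ y m (T g) : O) : K) := by
    intro g
    simp only [LL]
    push_cast
    congr 1
    refine sum_congr rfl fun j _ => ?_
    rw [← aeval_coe, aeval_comp, map_mul, aeval_C, aeval_X]
    rfl
  set E0 : O[X] := ∏ j, (1 - C (u j) * X) with hE0
  set κ : O := ∏ j, (-μ j) with hκ
  have hκ0 : κ ≠ 0 := prod_ne_zero_iff.2 fun j _ => neg_ne_zero.2 (hμ0 j)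
  set E : O[X] := ∏ j, (X - C (μ j)) with hE
  have hTE : T E = C κ * E0 := by
    simp only [T, hE, hκ, hE0, Polynomial.prod_comp, map_prod, ← prod_mul_distrib]
    refine prod_congr rfl fun j _ => ?_
    rw [sub_comp, X_comp, C_comp, ← hμu j, map_neg, map_mul]
    ring
  have hLE : ∀ h, LL w lam y (h * E0) = -(JJ y m (h * E0) : K) := by
    intro h
    rw [LL, sum_eq_zero, zero_sub]
    intro j _
    have : aeval (lam j) E0 = 0 := by
      rw [hE0, map_prod]
      refine prod_eq_zero (mem_univ j) ?_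
      simp only [map_sub, map_one, map_mul, aeval_C, aeval_X]
      change 1 - (lam j)⁻¹ * lam j = 0
      rw [inv_mul_cancel₀ (hne j), sub_self]
    simp [this]
  have hU := JJ_X_mul hm hy1 hy2 (coeff_zero_prod_one_sub univ u)
  rw [← hE0] at hU
  refine cluster_false μ w k0 hμ1 (fun g => JJ y m (T g)) ?_ ?_ ?_
  · intro h
    have : T (X ^ (m + 1) * h) = X ^ (m + 1) * (C η ^ (m + 1) * T h) := by
      simp only [T, mul_comp, pow_comp, X_comp]; ring
    simp only [this, JJ_X_pow_mul]
  · intro q r hr hsum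
    rw [← hE] at hsum
    have hEm : E.Monic := monic_prod_of_monic _ _ fun j _ => monic_X_sub_C _
    have hXE : (X * E).natDegree = m + 1 := by
      rw [monic_X.natDegree_mul hEm, hE, natDegree_finsetProd_X_sub_C_eq_card, natDegree_X]
      simp [add_comm]
    set a := r.coeff (m + 1) with ha
    have hr' : (r - C a * (X * E)).natDegree ≤ m := by
      rw [natDegree_le_iff_coeff_eq_zero]
      intro N hN
      rw [coeff_sub, coeff_C_mul]
      rcases eq_or_lt_of_le (Nat.succ_le_of_lt hN) with h | h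
      · rw [← h, Nat.succ_eq_add_one, ← ha, ← hXE, (monic_X.mul hEm).coeff_natDegree]; simp
      · rw [coeff_eq_zero_of_natDegree_lt (by omega), coeff_eq_zero_of_natDegree_lt (by omega)]
        simp
    have h0 : LL w lam y (T (X ^ 2 * E * q + r)) = 0 := by
      rw [hLT, hsum, sub_self]; rfl
    have h1 : T (X ^ 2 * E * q + r) = C (η * η * κ) * ((X ^ 2 * T q) * E0) +
        (C (a * η * κ) * (X * E0) + T (r - C a * (X * E))) := by
      have := hTE
      simp only [T, add_comp, mul_comp, pow_comp, X_comp, sub_comp, C_comp, map_mul] at this ⊢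
      rw [this]; ring
    rw [h1, LL_add, LL_add, LL_C_mul, LL_C_mul, hLE, hLE,
      LL_eq_zero hy ((hTd _).trans hr')] at h0
    have h2 : η * κ * (η * JJ y m (X ^ 2 * T q * E0) + a * JJ y m (X * E0)) = 0 := by
      apply Subtype.ext
      push_cast at h0 ⊢
      linear_combination -h0
    have h3 := (mul_eq_zero.1 h2).resolve_left (mul_ne_zero hη0 hκ0)
    have h4 : a = -(η * JJ y m (X ^ 2 * T q * E0)) - a * (JJ y m (X * E0) - 1) := by
      linear_combination h3
    rw [h4]
    exact Ideal.sub_mem _ (neg_mem (Ideal.mul_mem_right _ _ hηm)) (Ideal.mul_mem_left _ _ hU)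
  · intro ν hν S hS
    rcases S.eq_empty_or_nonempty with rfl | hSne
    · simp
    apply hW
    set g0 : O[X] := ∏ j ∈ Sᶜ, (X - C (μ j)) with hg0
    have hd : (X * g0).natDegree ≤ m := by
      refine natDegree_mul_le.trans ?_
      rw [hg0, natDegree_finsetProd_X_sub_C_eq_card, natDegree_X, card_compl]
      have := hSne.card_pos
      have := card_le_univ S
      simp only [Fintype.card_fin] at *
      omega
    have h0 := LL_eq_zero hy ((hTd _).trans hd)
    rw [hLT] at h0
    have h1 : ∑ j, w j * (X * g0).eval (μ j) = JJ y m (T (X * g0)) :=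
      sub_eq_zero.1 (Subtype.ext h0)
    have h2 : T (X * g0) = C η * (X * T g0) := by
      simp only [T, mul_comp, X_comp]; ring
    rw [h2, JJ_C_mul] at h1
    have h3 := congrArg (residue O) h1
    rw [map_mul, (residue_eq_zero_iff _).2 hηm, zero_mul, map_sum,
      ← sum_subset (subset_univ S)] at h3
    · have h4 : ∑ j ∈ S, residue O (w j * (X * g0).eval (μ j)) =
          residue O (∑ j ∈ S, w j) * (ν * ∏ j ∈ Sᶜ, (ν - residue O (μ j))) := by
        rw [map_sum, sum_mul]
        refine sum_congr rfl fun j hj => ?_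
        simp [hg0, eval_prod, (hS j).1 hj]
      rw [h4] at h3
      rw [← residue_eq_zero_iff]
      refine (mul_eq_zero.1 h3).resolve_right (mul_ne_zero hν (prod_ne_zero_iff.2 fun j hj => ?_))
      exact sub_ne_zero.2 fun h => (mem_compl.1 hj) ((hS j).2 h.symm)
    · intro j _ hj
      have : g0.eval (μ j) = 0 := by
        rw [hg0, eval_prod]
        exact prod_eq_zero (mem_compl.2 hj) (by simp)
      simp [this]

end Pool.Agent.MP_e0214e_ag

end

-- part MP_e0214e_ag.Moments
section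

set_option autoImplicit false

namespace Pool.Agent.MP_e0214e_ag

open MvPolynomial IsLocalRing Finset

/-- For nonzero complex weights `w_1, …, w_m` there are `λ_k` with `∑ w_k λ_k = 1` and
`∑ w_k λ_k ^ l = 0` for `2 ≤ l ≤ m`. -/
theorem exists_moments_fin {m : ℕ} (hm : 1 ≤ m) (w : Fin m → ℂ) (hw : ∀ k, w k ≠ 0) :
    ∃ lam : Fin m → ℂ, ∑ k, w k * lam k = 1 ∧ ∀ l, 2 ≤ l → l ≤ m → ∑ k, w k * lam k ^ l = 0 := by
  classical
  let R := MvPolynomial (Fin m) ℂ
  let K := FractionRing R
  let ψ : R →+* K := (algebraMap R K).comp (aeval (wps w) : R →ₐ[ℂ] R).toRingHom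
  have hψ : Function.Injective ψ := (IsFractionRing.injective R K).comp (wps_injective w hw)
  let y0 : Fin m → ℂ := fun l => if (l : ℕ) = 0 then 1 else 0
  let I0 : Ideal R := RingHom.ker (eval y0)
  have hbij : Function.Bijective ψ.rangeRestrict :=
    ⟨fun a b h => hψ (congrArg Subtype.val h), ψ.rangeRestrict_surjective⟩
  have hI : I0.map ψ.rangeRestrict ≠ ⊤ := by
    intro h
    have := Ideal.comap_map_of_bijective ψ.rangeRestrict hbij (I := I0)
    rw [h, Ideal.comap_top] at this
    exact RingHom.ker_ne_top _ this.symm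
  obtain ⟨O, hAO, hIO⟩ := Ideal.image_subset_nonunits_valuationSubring _ hI
  have hmem : ∀ p : R, ψ p ∈ O := fun p => hAO ⟨p, rfl⟩
  let ψO : R →+* O := ψ.codRestrict O.toSubring hmem
  have hmax : ∀ p : R, eval y0 p = 0 → ψO p ∈ maximalIdeal O := by
    intro p hp
    have : ψ p ∈ O.nonunits := hIO ⟨_, Ideal.mem_map_of_mem ψ.rangeRestrict hp, rfl⟩
    exact ValuationSubring.coe_mem_nonunits_iff.1 this
  let ι : ℂ →+* O := ψO.comp C
  have hι : ∀ c, (ι c : K) = algebraMap R K (C c) := by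
    intro c
    change algebraMap R K (aeval (wps w) (C c : R)) = _
    rw [aeval_C]; rfl
  let lam : Fin m → K := fun k => algebraMap R K (X k)
  have hX : ∀ l : Fin m, (ψO (X l) : K) = ∑ k, (ι (w k) : K) * lam k ^ ((l : ℕ) + 1) := by
    intro l
    change algebraMap R K (aeval (wps w) (X l : R)) = _
    rw [aeval_X, wps, map_sum]
    exact sum_congr rfl fun k _ => by rw [map_mul, map_pow, hι]
  let y : ℕ → O := fun l => if l = 0 then ∑ k, ι (w k) else
    if h : l - 1 < m then ψO (X ⟨l - 1, h⟩) else 0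
  have hys : ∀ l : Fin m, y (l + 1) = ψO (X l) := by
    intro l
    simp [y]
  have hy : ∀ l ≤ m, (y l : K) = ∑ k, (ι (w k) : K) * lam k ^ l := by
    intro l hl
    rcases l with - | l
    · simp [y]
    · rw [hys ⟨l, hl⟩, hX]
  have hyl : ∀ l : Fin m, y (l + 1) - ι (y0 l) ∈ maximalIdeal O := by
    intro l
    rw [hys]
    have := hmax (X l - C (y0 l)) (by simp)
    rwa [map_sub] at this
  have : CharZero (ResidueField O) :=
    charZero_of_injective_ringHom ((residue O).comp ι).injective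
  have hlam : ∀ k, lam k ∈ O := by
    refine mem_of_moments (w := fun k => ι (w k)) hm hy ?_ ?_ ?_
    · simpa [y0] using hyl ⟨0, hm⟩
    · intro l h2 hl
      obtain ⟨l, rfl⟩ : ∃ n, l = n + 1 := ⟨l - 1, by omega⟩
      have := hyl ⟨l, hl⟩
      simp only [y0] at this
      rwa [if_neg (by omega), map_zero, sub_zero] at this
    · intro S hS
      rw [← map_sum] at hS ⊢
      by_cases h : ∑ k ∈ S, w k = 0
      · rw [h, map_zero]
      · exact absurd ((Ne.isUnit h).map ι) hS
  let θ : R →+* O := eval₂Hom ι fun k => ⟨lam k, hlam k⟩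
  have hθC : ∀ c, θ (C c) = ι c := fun c => eval₂Hom_C _ _ c
  have hθX : ∀ k, θ (X k) = ⟨lam k, hlam k⟩ := fun k => eval₂Hom_X' _ _ k
  have hθ : ∀ l : Fin m, θ (wps w l - C (y0 l)) ∈ maximalIdeal O := by
    intro l
    have : θ (wps w l) = y (l + 1) := by
      apply Subtype.ext
      rw [hy _ l.2, wps, map_sum]
      simp only [map_mul, map_pow, hθC, hθX]
      simp
    rw [map_sub, this, hθC]
    exact hyl l
  have hJ : (maximalIdeal O).comap θ ≠ ⊤ := Ideal.comap_ne_top _ (maximalIdeal.isMaximal O).ne_top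
  obtain ⟨M, hM, hJM⟩ := Ideal.exists_le_maximal _ hJ
  obtain ⟨x, hx⟩ := isMaximal_iff_eq_vanishingIdeal_singleton.1 hM
  have hx' : ∀ l : Fin m, ∑ k, w k * x k ^ ((l : ℕ) + 1) = y0 l := by
    intro l
    have h1 : wps w l - C (y0 l) ∈ M := hJM (hθ l)
    rw [hx, mem_vanishingIdeal_singleton_iff] at h1
    simpa [wps, sub_eq_zero] using h1
  refine ⟨x, by simpa [y0] using hx' ⟨0, hm⟩, fun l h2 hl => ?_⟩
  obtain ⟨l, rfl⟩ : ∃ n, l = n + 1 := ⟨l - 1, by omega⟩
  have := hx' ⟨l, hl⟩
  simp only [y0] at this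
  rwa [if_neg (by omega)] at this

/-- The same for a finite set of indices. -/
theorem exists_moments {σ : Type*} (B : Finset σ) (hB : B.Nonempty) (w : σ → ℂ)
    (hw : ∀ k ∈ B, w k ≠ 0) :
    ∃ lam : σ → ℂ, ∑ k ∈ B, w k * lam k = 1 ∧
      ∀ l, 2 ≤ l → l ≤ B.card → ∑ k ∈ B, w k * lam k ^ l = 0 := by
  classical
  let e := B.equivFin
  obtain ⟨x, h1, h2⟩ := exists_moments_fin (m := B.card) hB.card_pos (fun j => w (e.symm j))
    fun j => hw _ (e.symm j).2
  have key : ∀ l : ℕ, ∑ k ∈ B, w k * (if h : k ∈ B then x (e ⟨k, h⟩) else 0) ^ l =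
      ∑ j, w (e.symm j) * x j ^ l := by
    intro l
    rw [← sum_coe_sort, ← e.symm.sum_comp]
    exact sum_congr rfl fun j _ => by simp
  refine ⟨fun k => if h : k ∈ B then x (e ⟨k, h⟩) else 0, ?_, fun l hl hl' => ?_⟩
  · simpa [h1] using key 1
  · rw [key, h2 l hl hl']

end Pool.Agent.MP_e0214e_ag

end

-- part MP_e0214e_ag.Main
section

set_option autoImplicit false

namespace Pool.Agent.MP_e0214e_ag

open MvPolynomial Finset

variable {σ : Type*}

theorem split_sum [DecidableEq σ] {d : ℕ} {A B : Finset σ} (hBA : B ⊆ A) {G : MvPolynomial σ ℂ}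
    (hG : G.IsHomogeneous d) (hGA : ∀ i ∈ G.vars, i ∉ A) :
    ∃ G' : MvPolynomial σ ℂ, G'.IsHomogeneous d ∧ (∀ i ∈ G'.vars, i ∉ B) ∧
      ∑ k ∈ A, X k ^ d + G = ∑ k ∈ B, X k ^ d + G' := by
  refine ⟨∑ k ∈ A \ B, X k ^ d + G, ?_, fun i hi hB => ?_, ?_⟩
  · exact (IsHomogeneous.sum _ _ _ fun k _ => isHomogeneous_X_pow _ _).add hG
  · rcases mem_union.1 (vars_add_subset _ _ hi) with h | h
    · obtain ⟨k, hk, hik⟩ := mem_biUnion.1 (vars_sum_subset _ _ h)
      have := vars_pow _ _ hik
      rw [vars_X, mem_singleton] at this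
      exact (mem_sdiff.1 hk).2 (this ▸ hB)
    · exact hGA i h (hBA hB)
  · rw [← sum_sdiff hBA]; ring

theorem exists_xi {d : ℕ} (hd : 1 ≤ d) (B : Finset σ) (hB : B.Nonempty) (v : σ → ℂ)
    (hv : ∀ k ∈ B, v k ≠ 0) :
    ∃ ξ : σ → ℂ, (d : ℂ) * ∑ k ∈ B, v k ^ (d - 1) * ξ k = 1 ∧
      ∀ l, 2 ≤ l → l ≤ d → l ≤ B.card → ∑ k ∈ B, v k ^ (d - l) * ξ k ^ l = 0 := by
  obtain ⟨lam, h1, h2⟩ := exists_moments B hB (fun k => v k ^ d) fun k hk => pow_ne_zero _ (hv k hk)
  have hd0 : (d : ℂ) ≠ 0 := Nat.cast_ne_zero.2 (by omega)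
  have key : ∀ l, l ≤ d → ∑ k ∈ B, v k ^ (d - l) * (v k * lam k * (d : ℂ)⁻¹) ^ l =
      (∑ k ∈ B, v k ^ d * lam k ^ l) * (d : ℂ)⁻¹ ^ l := by
    intro l hl
    rw [sum_mul]
    refine sum_congr rfl fun k _ => ?_
    have : v k ^ d = v k ^ (d - l) * v k ^ l := by rw [← pow_add, Nat.sub_add_cancel hl]
    rw [this]; ring
  refine ⟨fun k => v k * lam k * (d : ℂ)⁻¹, ?_, fun l h hl hl' => ?_⟩
  · have := key 1 hd
    simp only [pow_one] at this
    rw [this, h1]
    field_simp
  · rw [key l hl, h2 l h hl', zero_mul]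

theorem concl_main [DecidableEq σ] {d : ℕ} (hd : 2 ≤ d) (A : Finset σ) (hA : d + 2 ≤ A.card)
    (G : MvPolynomial σ ℂ) (hG : G.IsHomogeneous d) (hGA : ∀ i ∈ G.vars, i ∉ A) (v : σ → ℂ)
    (hv0 : v ≠ 0) (hv : eval v (∑ k ∈ A, X k ^ d + G) = 0) :
    Concl (∑ k ∈ A, X k ^ d + G) v := by
  classical
  have hC : ∀ B : Finset σ, B ⊆ A → B.card = d → ∃ i j, i ∉ B ∧ j ∉ B ∧ i ≠ j := by
    intro B hBA hB
    have : 1 < (A \ B).card := by rw [card_sdiff_of_subset hBA]; omega
    obtain ⟨i, hi, j, hj, hij⟩ := one_lt_card.1 this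
    exact ⟨i, j, (mem_sdiff.1 hi).2, (mem_sdiff.1 hj).2, hij⟩
  set T : Finset σ := {k ∈ A | v k ≠ 0} with hT
  set Z : Finset σ := {k ∈ A | ¬ v k ≠ 0} with hZ
  have hTZ : T.card + Z.card = A.card := card_filter_add_card_filter_not _
  rcases le_or_gt d T.card with h | h
  · obtain ⟨B, hBT, hB⟩ := exists_subset_card_eq h
    have hBA : B ⊆ A := hBT.trans (filter_subset _ _)
    obtain ⟨ξ, h1, h2⟩ := exists_xi (d := d) (by omega) B (card_pos.1 (by omega)) v
      fun k hk => (mem_filter.1 (hBT hk)).2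
    obtain ⟨G', hG', hG'B, e⟩ := split_sum hBA hG hGA
    rw [e] at hv ⊢
    exact concl_monoid hd B G' hG' hG'B v ξ h1 (fun l a b => h2 l a b (hB ▸ b)) (hC B hBA hB) hv
  rcases le_or_gt 4 Z.card with h4 | h4
  · obtain ⟨B, hBZ, hB⟩ := exists_subset_card_eq h4
    have hBA : B ⊆ A := hBZ.trans (filter_subset _ _)
    obtain ⟨G', hG', hG'B, e⟩ := split_sum hBA hG hGA
    rw [e] at hv ⊢
    obtain ⟨a, b, c, e, hab, hac, hae, hbc, hbe, hce, rfl⟩ := card_eq_four.1 hB
    exact concl_plane (by omega) hab hac hae hbc hbe hce G' hG' hG'B v hv0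
      (fun i hi => not_not.1 (mem_filter.1 (hBZ hi)).2) hv
  · obtain ⟨k0, hk0⟩ : Z.Nonempty := card_pos.1 (by omega)
    have hvk : v k0 = 0 := not_not.1 (mem_filter.1 hk0).2
    have hk0T : k0 ∉ T := fun h => (mem_filter.1 h).2 hvk
    obtain ⟨ξ, h1, h2⟩ := exists_xi (d := d) (by omega) T (card_pos.1 (by omega)) v
      fun k hk => (mem_filter.1 hk).2
    obtain ⟨ζ, hζ⟩ := IsAlgClosed.exists_pow_nat_eq (-∑ k ∈ T, ξ k ^ d) (n := d) (by omega)
    have hBA : insert k0 T ⊆ A := insert_subset (mem_filter.1 hk0).1 (filter_subset _ _)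
    obtain ⟨G', hG', hG'B, e⟩ := split_sum hBA hG hGA
    rw [e] at hv ⊢
    have hup : ∀ k ∈ T, Function.update ξ k0 ζ k = ξ k := fun k hk =>
      Function.update_of_ne (ne_of_mem_of_not_mem hk hk0T) _ _
    refine concl_monoid hd _ G' hG' hG'B v (Function.update ξ k0 ζ) ?_ (fun l a b => ?_)
      (hC _ hBA (by rw [card_insert_of_notMem hk0T]; omega)) hv
    · rw [sum_insert hk0T, hvk, zero_pow (by omega), zero_mul, zero_add, ← h1]
      congr 1
      exact sum_congr rfl fun k hk => by rw [hup k hk]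
    · rw [sum_insert hk0T, Function.update_self,
        sum_congr rfl fun k hk => by rw [hup k hk]]
      rcases eq_or_lt_of_le b with rfl | hl
      · simp [hζ]
      · rw [hvk, zero_pow (by omega), zero_mul, zero_add]
        exact h2 l a b (by omega)

end Pool.Agent.MP_e0214e_ag

end
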